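import Pool.Agent.Lib.MP_23961f_co.AA.Defs

/-!
Module Chern. Two counting lemmas.

`card_fun_comp`: an event that depends only on the coordinates `φ j`.
PROOF: `I ≃ J ⊕ (complement of the range of φ)`, so `(I → R) ≃ (J → R) × (compl → R)`
(`Equiv.piEquivPiSubtypeProd` or `Equiv.sumArrowEquivProdArrow`), `Fintype.card_pi`/`card_fun`.

`chernoff`: exponential Markov. With `p = |τ| / |R|` and `λ = θ / 2 ∈ [0,1]`:
`∑_ω exp (λ ∑ (1_{ω i ∈ τ} - p)) = (∑_{t : R} exp (λ (1_{t ∈ τ} - p))) ^ |I|` and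
`exp z ≤ 1 + z + z²` for `|z| ≤ 1` (`Real.abs_exp_sub_one_sub_id_le`) gives
`∑_t exp (λ (1_{t ∈ τ} - p)) ≤ |R| (1 + λ²) ≤ |R| exp (λ²)`. So the number of `ω` in question is
at most `|R|^|I| exp (λ² |I| - λ θ |I|) = |R|^|I| exp (-θ² |I| / 4)`.
-/

set_option autoImplicit false

namespace Pool.Agent.Lib.MP_23961f_co.AA

open Classical in
theorem card_fun_comp {I J R : Type} [Fintype I] [Fintype J] [Fintype R]
    (φ : J → I) (hφ : Function.Injective φ) (P : (J → R) → Prop) :
    (Finset.univ.filter (fun ω : I → R => P (fun j => ω (φ j)))).card *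
        Fintype.card R ^ Fintype.card J =
      (Finset.univ.filter P).card * Fintype.card R ^ Fintype.card I := by
  let e : (I → R) ≃ (J → R) × ({x // ¬ x ∈ Set.range φ} → R) :=
    (Equiv.piEquivPiSubtypeProd (fun x => x ∈ Set.range φ) (fun _ => R)).trans
      (Equiv.prodCongr ((Equiv.arrowCongr (Equiv.ofInjective φ hφ) (Equiv.refl R)).symm)
        (Equiv.refl _))
  have he : ∀ ω : I → R, (e ω).1 = fun j => ω (φ j) := by
    intro ω
    funext j
    rfl
  have h1 : (Finset.univ.filter (fun ω : I → R => P (fun j => ω (φ j)))).card =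
      ((Finset.univ.filter P) ×ˢ
        (Finset.univ : Finset ({x // ¬ x ∈ Set.range φ} → R))).card := by
    apply Finset.card_equiv e
    intro ω
    rw [Finset.mem_product, Finset.mem_filter, Finset.mem_filter, he]
    simp
  have h2 : Fintype.card {x // ¬ x ∈ Set.range φ} + Fintype.card J = Fintype.card I := by
    have h3 := Fintype.card_congr (Equiv.ofInjective φ hφ)
    have h4 : Fintype.card {x // ¬ x ∈ Set.range φ} =
        Fintype.card I - Fintype.card {x // x ∈ Set.range φ} :=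
      Fintype.card_subtype_compl (fun x => x ∈ Set.range φ)
    have h5 : Fintype.card {x // x ∈ Set.range φ} ≤ Fintype.card I :=
      Fintype.card_subtype_le (fun x => x ∈ Set.range φ)
    have h6 : Fintype.card J = Fintype.card {x // x ∈ Set.range φ} := h3
    omega
  rw [h1, Finset.card_product, Finset.card_univ, Fintype.card_fun, mul_assoc, ← pow_add, h2]

private lemma exp_le_quad {z : ℝ} (hz : |z| ≤ 1) : Real.exp z ≤ 1 + z + z ^ 2 := by
  have h := Real.abs_exp_sub_one_sub_id_le hz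
  have h1 := (abs_le.mp h).2
  linarith

open Classical in
private lemma sum_exp_le {R : Type} [Fintype R] [Nonempty R] (τ : Finset R) (l : ℝ)
    (hl : 0 ≤ l) (hl1 : l ≤ 1) :
    ∑ t : R, Real.exp (l * ((if t ∈ τ then (1 : ℝ) else 0) - (τ.card : ℝ) / Fintype.card R)) ≤
      Fintype.card R * Real.exp (l ^ 2) := by
  have hR : (0 : ℝ) < Fintype.card R := by
    exact_mod_cast Fintype.card_pos
  set p : ℝ := (τ.card : ℝ) / Fintype.card R with hp
  have hp0 : 0 ≤ p := by positivity
  have hp1 : p ≤ 1 := by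
    rw [hp, div_le_one hR]
    exact_mod_cast Finset.card_le_univ τ
  have h1 : ∀ t : R, Real.exp (l * ((if t ∈ τ then (1 : ℝ) else 0) - p)) ≤
      1 + l * ((if t ∈ τ then (1 : ℝ) else 0) - p) + l ^ 2 := by
    intro t
    have h2 : |(if t ∈ τ then (1 : ℝ) else 0) - p| ≤ 1 := by
      rw [abs_le]
      split_ifs <;> constructor <;> linarith
    have h3 : |l * ((if t ∈ τ then (1 : ℝ) else 0) - p)| ≤ 1 := by
      rw [abs_mul, abs_of_nonneg hl]
      exact mul_le_one₀ hl1 (abs_nonneg _) h2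
    refine (exp_le_quad h3).trans ?_
    have h4 : (l * ((if t ∈ τ then (1 : ℝ) else 0) - p)) ^ 2 ≤ l ^ 2 := by
      rw [mul_pow]
      have h5 : ((if t ∈ τ then (1 : ℝ) else 0) - p) ^ 2 ≤ 1 := by
        rw [sq_le_one_iff_abs_le_one]
        exact h2
      nlinarith [sq_nonneg l]
    linarith
  have h6 : ∑ t : R, (if t ∈ τ then (1 : ℝ) else 0) = τ.card := by
    rw [Finset.sum_ite_mem, Finset.univ_inter, Finset.sum_const, nsmul_eq_mul, mul_one]
  calc ∑ t : R, Real.exp (l * ((if t ∈ τ then (1 : ℝ) else 0) - p))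
      ≤ ∑ t : R, (1 + l * ((if t ∈ τ then (1 : ℝ) else 0) - p) + l ^ 2) :=
        Finset.sum_le_sum (fun t _ => h1 t)
    _ = Fintype.card R * (1 + l ^ 2) := by
        rw [Finset.sum_add_distrib, Finset.sum_add_distrib, ← Finset.mul_sum,
          Finset.sum_sub_distrib, h6]
        simp only [Finset.sum_const, Finset.card_univ, nsmul_eq_mul, mul_one]
        have h7 : (Fintype.card R : ℝ) * p = τ.card := by
          rw [hp, mul_div_cancel₀ _ hR.ne']
        rw [h7]
        ring
    _ ≤ Fintype.card R * Real.exp (l ^ 2) := by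
        apply mul_le_mul_of_nonneg_left _ hR.le
        have h8 := Real.add_one_le_exp (l ^ 2)
        linarith

open Classical in
theorem chernoff {I R : Type} [Fintype I] [Fintype R] [Nonempty R] (τ : Finset R)
    (θ : ℝ) (hθ : 0 ≤ θ) (hθ1 : θ ≤ 1) :
    ((Finset.univ.filter (fun ω : I → R =>
        ((τ.card : ℝ) / Fintype.card R + θ) * Fintype.card I ≤
          ((Finset.univ.filter (fun i => ω i ∈ τ)).card : ℝ))).card : ℝ) ≤
      (Fintype.card R : ℝ) ^ Fintype.card I * Real.exp (-(θ ^ 2 * Fintype.card I / 4)) := by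
  set p : ℝ := (τ.card : ℝ) / Fintype.card R with hp
  set S := Finset.univ.filter (fun ω : I → R => (p + θ) * Fintype.card I ≤
          ((Finset.univ.filter (fun i => ω i ∈ τ)).card : ℝ)) with hS
  have h0 : (0 : ℝ) ≤ Fintype.card R := Nat.cast_nonneg _
  have h1 : ∀ ω ∈ S, Real.exp (θ / 2 * (θ * Fintype.card I)) ≤
      ∏ i : I, Real.exp (θ / 2 * ((if ω i ∈ τ then (1 : ℝ) else 0) - p)) := by
    intro ω hω
    rw [hS, Finset.mem_filter] at hω
    rw [← Real.exp_sum, ← Finset.mul_sum, Finset.sum_sub_distrib]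
    apply Real.exp_le_exp.mpr
    apply mul_le_mul_of_nonneg_left _ (by linarith)
    have h2 : ∑ i : I, (if ω i ∈ τ then (1 : ℝ) else 0) =
        ((Finset.univ.filter (fun i => ω i ∈ τ)).card : ℝ) := by
      rw [Finset.sum_boole]
    rw [h2]
    simp only [Finset.sum_const, Finset.card_univ, nsmul_eq_mul]
    linarith [hω.2]
  have h2 : (S.card : ℝ) * Real.exp (θ / 2 * (θ * Fintype.card I)) ≤
      ∑ ω : I → R, ∏ i : I, Real.exp (θ / 2 * ((if ω i ∈ τ then (1 : ℝ) else 0) - p)) := by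
    calc (S.card : ℝ) * Real.exp (θ / 2 * (θ * Fintype.card I))
        = ∑ _ω ∈ S, Real.exp (θ / 2 * (θ * Fintype.card I)) := by
          rw [Finset.sum_const, nsmul_eq_mul]
      _ ≤ ∑ ω ∈ S, ∏ i : I, Real.exp (θ / 2 * ((if ω i ∈ τ then (1 : ℝ) else 0) - p)) :=
          Finset.sum_le_sum h1
      _ ≤ _ := by
          apply Finset.sum_le_sum_of_subset_of_nonneg (Finset.subset_univ _)
          intro ω _ _
          exact Finset.prod_nonneg (fun i _ => (Real.exp_pos _).le)
  have h3 : ∑ ω : I → R, ∏ i : I, Real.exp (θ / 2 * ((if ω i ∈ τ then (1 : ℝ) else 0) - p)) =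
      (∑ t : R, Real.exp (θ / 2 * ((if t ∈ τ then (1 : ℝ) else 0) - p))) ^ Fintype.card I := by
    have h4 := Finset.prod_univ_sum (fun _ : I => (Finset.univ : Finset R))
      (fun (_ : I) (t : R) => Real.exp (θ / 2 * ((if t ∈ τ then (1 : ℝ) else 0) - p)))
    rw [Fintype.piFinset_univ] at h4
    rw [← h4, Finset.prod_const, Finset.card_univ]
  have h5 := sum_exp_le τ (θ / 2) (by linarith) (by linarith)
  rw [h3] at h2
  have h6 : (S.card : ℝ) * Real.exp (θ / 2 * (θ * Fintype.card I)) ≤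
      (Fintype.card R : ℝ) ^ Fintype.card I * Real.exp ((θ / 2) ^ 2 * Fintype.card I) := by
    refine h2.trans ?_
    refine (pow_le_pow_left₀ (Finset.sum_nonneg (fun t _ => (Real.exp_pos _).le)) h5 _).trans ?_
    rw [mul_pow, ← Real.exp_nat_mul, mul_comm ((Fintype.card I : ℕ) : ℝ) ((θ / 2) ^ 2)]
  have h7 : (S.card : ℝ) ≤ (Fintype.card R : ℝ) ^ Fintype.card I *
      Real.exp ((θ / 2) ^ 2 * Fintype.card I) / Real.exp (θ / 2 * (θ * Fintype.card I)) := by
    rw [le_div_iff₀ (Real.exp_pos _)]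
    exact h6
  refine h7.trans (le_of_eq ?_)
  rw [mul_div_assoc, ← Real.exp_sub]
  congr 2
  ring

end Pool.Agent.Lib.MP_23961f_co.AA
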