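import Pool.Agent.Lib.MP_23961f_co.AA.Cert
import Pool.Agent.Lib.MP_23961f_co.AA.Chern

/-!
Module BadPair. A random bipartite graph fails to be robustly stress-free with probability at most
`exp (-c N²)`.

PROOF. Let `ε ≤ 1/100` w.l.o.g. (Gd for larger `r`: only the hypotheses of `gd_of_triples` are
used, which are monotone in `r`). `θ = 1/1000`, `M = ⌊(1/8 + θ) N⌋`, `s = ⌈M/2⌉`; then
`M + 3 s + 1 ≤ 5/2 M + 4 ≤ 0.315 N + 4 ≤ N/3 ≤ r` for large `N`. `k = ⌈N/3 - ε N / 2⌉` (so that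
`N ≤ r + 2 k`), `k₀ = ⌊N/3⌋ - k + 1` or any number with `3 k₀ + 3 (k-1) ≤ N`, `k₀ ≥ ε N / 4`.
STEP 1 (`card_not_gd_le`): if `¬ Gd N r F`, take a maximal family of disjoint triples of rows with
`OK3`; it has fewer than `k` triples by `gd_of_triples`, so there is a set of `3 k₀` rows without
any good triple; hence there is an injective `t : Fin k₀ × Fin 3 → Fin N`, and we may take it in a
fixed way for every set (monotone enumeration of the set), such that all triples of `t` are bad.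
Number of sets `≤ 2^N`. For fixed `t` the number of `F : Fin N → (Fin N → Bool)` with all triples
bad is, by `card_fun_comp` (`I = Fin N`, `J = Fin k₀ × Fin 3`, `R = Fin N → Bool`), equal to
`β ^ k₀ * (2^N) ^ (N - 3 k₀)` with `β` the number of bad `x : Fin 3 → Fin N → Bool`.
STEP 2 (`card_not_ok3`): `β ≤ 8 exp (-θ² N / 4) (2^N)^3`: `x` is bad iff some type `τ` occurs more
than `M ≥ (1/8+θ) N - 1` times, i.e. at least `(1/8 + θ) N` times;
`chernoff` with `I = Fin N`, `R = Fin 3 → Bool`, singleton `{τ}`.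
STEP 3: `2^N * (8 exp (-θ² N / 4))^{k₀} ≤ exp (-c N²)` for large `N`.
-/

set_option autoImplicit false

namespace Pool.Agent.Lib.MP_23961f_co.AA

open Classical in
private lemma card_type_le {N M : ℕ} (θ : ℝ) (hθ : 0 ≤ θ) (hθ1 : θ ≤ 1)
    (hM : (1 / 8 + θ) * N ≤ M + 1) (τ : Fin 3 → Bool) :
    ((Finset.univ.filter (fun x : Fin 3 → Fin N → Bool =>
      ¬ (Finset.univ.filter (fun b => ∀ i, x i b = τ i)).card ≤ M)).card : ℝ) ≤
      Real.exp (-(θ ^ 2 * N / 4)) * (2 ^ N) ^ 3 := by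
  have h1 := chernoff (I := Fin N) (R := Fin 3 → Bool) {τ} θ hθ hθ1
  have e1 : ((({τ} : Finset (Fin 3 → Bool)).card : ℝ)) = 1 := by
    rw [Finset.card_singleton, Nat.cast_one]
  have e2 : ((Fintype.card (Fin 3 → Bool) : ℕ) : ℝ) = 8 := by
    rw [Fintype.card_fun, Fintype.card_fin, Fintype.card_bool]
    norm_num
  have e3 : ((Fintype.card (Fin N) : ℕ) : ℝ) = N := by
    rw [Fintype.card_fin]
  rw [e1, e2, e3, Fintype.card_fin] at h1
  have h2 : (Finset.univ.filter (fun x : Fin 3 → Fin N → Bool =>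
      ¬ (Finset.univ.filter (fun b => ∀ i, x i b = τ i)).card ≤ M)).card ≤
      (Finset.univ.filter (fun ω : Fin N → (Fin 3 → Bool) => (1 / 8 + θ) * (N : ℝ) ≤
          ((Finset.univ.filter (fun i => ω i ∈ ({τ} : Finset (Fin 3 → Bool)))).card : ℝ))).card := by
    apply Finset.card_le_card_of_injOn (fun x => fun b i => x i b)
    · intro x hx
      rw [Finset.mem_coe, Finset.mem_filter] at hx
      rw [Finset.mem_coe, Finset.mem_filter]
      refine ⟨Finset.mem_univ _, ?_⟩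
      have h3 : (Finset.univ.filter (fun b : Fin N => (fun i => x i b) ∈
          ({τ} : Finset (Fin 3 → Bool)))) = Finset.univ.filter (fun b => ∀ i, x i b = τ i) := by
        apply Finset.filter_congr
        intro b _
        rw [Finset.mem_singleton, funext_iff]
      have h4 := hx.2
      rw [not_le] at h4
      have h5 : (M : ℝ) + 1 ≤
          ((Finset.univ.filter (fun b => ∀ i, x i b = τ i)).card : ℝ) := by
        exact_mod_cast h4
      refine (hM.trans h5).trans (le_of_eq ?_)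
      rw [← h3]
    · intro x _ y _ hxy
      funext i b
      exact congrFun (congrFun hxy b) i
  have h3 : ((Finset.univ.filter (fun x : Fin 3 → Fin N → Bool =>
      ¬ (Finset.univ.filter (fun b => ∀ i, x i b = τ i)).card ≤ M)).card : ℝ) ≤
      ((Finset.univ.filter (fun ω : Fin N → (Fin 3 → Bool) => (1 / 8 + θ) * (N : ℝ) ≤
          ((Finset.univ.filter (fun i => ω i ∈ ({τ} : Finset (Fin 3 → Bool)))).card : ℝ))).card :
            ℝ) := Nat.cast_le.mpr h2
  have h4 : (8 : ℝ) ^ N = (2 ^ N) ^ 3 := by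
    rw [← pow_mul, mul_comm N 3, pow_mul]
    norm_num
  rw [← h4, mul_comm]
  refine h3.trans (Eq.trans_le ?_ h1)
  exact congrArg _ (card_irrel _ _ _ _ _ _ (fun x => iff_of_eq
    (congrArg (fun z : ℕ => (1 / 8 + θ) * (N : ℝ) ≤ (z : ℝ))
      (card_irrel _ _ _ _ _ _ (fun y => Iff.rfl)))))

open Classical in
theorem card_not_ok3 {N M : ℕ} (θ : ℝ) (hθ : 0 ≤ θ) (hθ1 : θ ≤ 1)
    (hM : (1 / 8 + θ) * N ≤ M + 1) :
    ((Finset.univ.filter (fun x : Fin 3 → Fin N → Bool => ¬ OK3 M x)).card : ℝ) ≤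
      8 * Real.exp (-(θ ^ 2 * N / 4)) * (2 ^ N) ^ 3 := by
  have h1 : (Finset.univ.filter (fun x : Fin 3 → Fin N → Bool => ¬ OK3 M x)) ⊆
      (Finset.univ : Finset (Fin 3 → Bool)).biUnion (fun τ =>
        Finset.univ.filter (fun x : Fin 3 → Fin N → Bool =>
          ¬ (Finset.univ.filter (fun b => ∀ i, x i b = τ i)).card ≤ M)) := by
    intro x hx
    rw [Finset.mem_filter] at hx
    have h2 := hx.2
    unfold OK3 at h2
    rw [not_forall] at h2
    obtain ⟨τ, hτ⟩ := h2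
    rw [Finset.mem_biUnion]
    refine ⟨τ, Finset.mem_univ _, ?_⟩
    rw [Finset.mem_filter]
    refine ⟨Finset.mem_univ _, ?_⟩
    intro hcon
    exact hτ ((card_irrel _ _ _ _ _ _ (fun x => Iff.rfl)).trans_le hcon)
  have h2 := (Finset.card_le_card h1).trans Finset.card_biUnion_le
  have h3 : ((Finset.univ.filter (fun x : Fin 3 → Fin N → Bool => ¬ OK3 M x)).card : ℝ) ≤
      ∑ τ : Fin 3 → Bool, ((Finset.univ.filter (fun x : Fin 3 → Fin N → Bool =>
          ¬ (Finset.univ.filter (fun b => ∀ i, x i b = τ i)).card ≤ M)).card : ℝ) := by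
    exact_mod_cast h2
  refine h3.trans ?_
  refine (Finset.sum_le_sum (fun τ _ => card_type_le θ hθ hθ1 hM τ)).trans (le_of_eq ?_)
  rw [Finset.sum_const, Finset.card_univ, Fintype.card_fun, Fintype.card_fin, Fintype.card_bool,
    nsmul_eq_mul]
  push_cast
  ring

open Classical in
/-- for a fixed system of disjoint triples of rows: all of them are bad -/
private lemma card_fixed {N M k₀ : ℕ} (u : Fin k₀ × Fin 3 → Fin N) (hu : Function.Injective u)
    (β : ℝ)
    (hβ : ((Finset.univ.filter (fun x : Fin 3 → Fin N → Bool => ¬ OK3 M x)).card : ℝ) ≤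
      β * (2 ^ N) ^ 3) :
    ((Finset.univ.filter (fun F : Fin N → Fin N → Bool =>
      ∀ i, ¬ OK3 M (fun j => F (u (i, j))))).card : ℝ) ≤ 2 ^ (N * N) * β ^ k₀ := by
  have h1 := card_fun_comp (R := Fin N → Bool) u hu
    (fun g => ∀ i, ¬ OK3 M (fun j => g (i, j)))
  have h2 : (Finset.univ.filter (fun g : Fin k₀ × Fin 3 → (Fin N → Bool) =>
      ∀ i, ¬ OK3 M (fun j => g (i, j)))).card =
      (Finset.univ.filter (fun x : Fin 3 → Fin N → Bool => ¬ OK3 M x)).card ^ k₀ := by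
    have h3 : (Finset.univ.filter (fun g : Fin k₀ × Fin 3 → (Fin N → Bool) =>
        ∀ i, ¬ OK3 M (fun j => g (i, j)))).card =
        (Fintype.piFinset (fun _ : Fin k₀ =>
          (Finset.univ.filter (fun x : Fin 3 → Fin N → Bool => ¬ OK3 M x)))).card := by
      apply Finset.card_equiv (Equiv.curry (Fin k₀) (Fin 3) (Fin N → Bool))
      intro g
      rw [Finset.mem_filter, Fintype.mem_piFinset]
      simp only [Finset.mem_univ, true_and, Finset.mem_filter]
      exact Iff.rfl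
    rw [h3, Fintype.card_piFinset, Finset.prod_const, Finset.card_univ, Fintype.card_fin]
  have h4 : (Fintype.card (Fin N → Bool)) = 2 ^ N := by
    rw [Fintype.card_fun, Fintype.card_fin, Fintype.card_bool]
  have h5 : Fintype.card (Fin k₀ × Fin 3) = 3 * k₀ := by
    rw [Fintype.card_prod, Fintype.card_fin, Fintype.card_fin, mul_comm]
  have h6 : ((Finset.univ.filter (fun F : Fin N → Fin N → Bool =>
      ∀ i, ¬ OK3 M (fun j => F (u (i, j))))).card) * (2 ^ N) ^ (3 * k₀) =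
      (Finset.univ.filter (fun x : Fin 3 → Fin N → Bool => ¬ OK3 M x)).card ^ k₀ *
        (2 ^ N) ^ N := by
    rw [← h2, ← h5]
    rw [h4, Fintype.card_fin] at h1
    refine Eq.trans ?_ (h1.trans ?_)
    · exact congrArg (fun z => z * _) (card_irrel _ _ _ _ _ _ (fun x => Iff.rfl))
    · exact congrArg (fun z => z * _) (card_irrel _ _ _ _ _ _ (fun x => Iff.rfl))
  have h7 : (0 : ℝ) < (2 ^ N) ^ (3 * k₀) := by positivity
  have h8 : (((Finset.univ.filter (fun F : Fin N → Fin N → Bool =>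
      ∀ i, ¬ OK3 M (fun j => F (u (i, j))))).card : ℝ)) * (2 ^ N) ^ (3 * k₀) ≤
      (2 ^ (N * N) * β ^ k₀) * (2 ^ N) ^ (3 * k₀) := by
    calc (((Finset.univ.filter (fun F : Fin N → Fin N → Bool =>
        ∀ i, ¬ OK3 M (fun j => F (u (i, j))))).card : ℝ)) * (2 ^ N) ^ (3 * k₀)
        = ((Finset.univ.filter (fun x : Fin 3 → Fin N → Bool => ¬ OK3 M x)).card : ℝ) ^ k₀ *
        (2 ^ N) ^ N := by exact_mod_cast h6
      _ ≤ (β * (2 ^ N) ^ 3) ^ k₀ * (2 ^ N) ^ N := by
        apply mul_le_mul_of_nonneg_right _ (by positivity)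
        exact pow_le_pow_left₀ (Nat.cast_nonneg _) hβ _
      _ = (2 ^ (N * N) * β ^ k₀) * (2 ^ N) ^ (3 * k₀) := by
        rw [mul_pow, ← pow_mul (2 ^ N : ℝ) 3 k₀, pow_mul (2 : ℝ) N N]
        ring
  exact le_of_mul_le_mul_right h8 h7

/-- a set of `3 k₀` rows without good triples -/
private lemma exists_bad {N r k M s k₀ : ℕ} (h1 : N ≤ r + 2 * k) (h2 : M ≤ 2 * s)
    (h3 : M + 3 * s + 1 ≤ r) (hk : 3 * k₀ + 3 * k ≤ N + 3) (F : Fin N → Fin N → Bool)
    (hF : ¬ Gd N r F) : ∃ S : Finset (Fin N), S.card = k₀ * 3 ∧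
      ∀ u : Fin k₀ × Fin 3 → Fin N, Function.Injective u → (∀ p, u p ∈ S) →
        ∀ i, ¬ OK3 M (fun j => F (u (i, j))) := by
  classical
  let Q : ℕ → Prop := fun m => ∃ t : Fin m × Fin 3 → Fin N, Function.Injective t ∧
    ∀ i, OK3 M (fun j => F (t (i, j)))
  have hQ0 : Q 0 := ⟨fun p => p.1.elim0, fun p => p.1.elim0, fun i => i.elim0⟩
  have hQk : ¬ Q k := by
    rintro ⟨t, ht, hOK⟩
    exact hF (gd_of_triples F t ht hOK h1 h2 h3)
  obtain ⟨m, hm1, hm2, hm3⟩ : ∃ m, m < k ∧ Q m ∧ ¬ Q (m + 1) := by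
    by_contra hcon
    push Not at hcon
    have : ∀ m, m ≤ k → Q m := by
      intro m
      induction m with
      | zero => exact fun _ => hQ0
      | succ m ih => exact fun h => hcon m (by omega) (ih (by omega))
    exact hQk (this k le_rfl)
  obtain ⟨t, ht, hOK⟩ := hm2
  have hc : (Finset.univ.image t).card = m * 3 := by
    rw [Finset.card_image_of_injective _ ht, Finset.card_univ, Fintype.card_prod,
      Fintype.card_fin, Fintype.card_fin]
  have hc2 : k₀ * 3 ≤ (Finset.univ \ Finset.univ.image t).card := by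
    rw [Finset.card_sdiff_of_subset (Finset.subset_univ _), hc, Finset.card_univ,
      Fintype.card_fin]
    omega
  obtain ⟨S, hS1, hS2⟩ := Finset.exists_subset_card_eq hc2
  refine ⟨S, hS2, ?_⟩
  intro u hu huS i hi
  apply hm3
  have hut : ∀ p q, u p ≠ t q := by
    intro p q h
    have h4 := hS1 (huS p)
    rw [Finset.mem_sdiff] at h4
    exact h4.2 (Finset.mem_image.mpr ⟨q, Finset.mem_univ _, h.symm⟩)
  refine ⟨fun p => Fin.cases (u (i, p.2)) (fun l => t (l, p.2)) p.1, ?_, ?_⟩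
  · rintro ⟨a, b⟩ ⟨c, d⟩
    refine Fin.cases ?_ (fun a => ?_) a <;> refine Fin.cases ?_ (fun c => ?_) c
    · intro h
      have h4 : u (i, b) = u (i, d) := h
      have h5 := hu h4
      rw [Prod.mk.injEq] at h5
      rw [h5.2]
    · intro h
      exact absurd h (hut _ _)
    · intro h
      exact absurd h.symm (hut _ _)
    · intro h
      have h4 : t (a, b) = t (c, d) := h
      have h5 := ht h4
      rw [Prod.mk.injEq] at h5
      rw [h5.1, h5.2]
  · intro l
    refine Fin.cases ?_ (fun l => ?_) l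
    · exact hi
    · exact hOK l

open Classical in
theorem card_not_gd_le {N r k M s k₀ : ℕ} (h1 : N ≤ r + 2 * k) (h2 : M ≤ 2 * s)
    (h3 : M + 3 * s + 1 ≤ r) (hk : 3 * k₀ + 3 * k ≤ N + 3) (β : ℝ)
    (hβ : ((Finset.univ.filter (fun x : Fin 3 → Fin N → Bool => ¬ OK3 M x)).card : ℝ) ≤
      β * (2 ^ N) ^ 3) :
    ((Finset.univ.filter (fun F : Fin N → Fin N → Bool => ¬ Gd N r F)).card : ℝ) ≤
      2 ^ (N * N) * (2 ^ N * β ^ k₀) := by
  have hβ0 : 0 ≤ β := by
    have h4 : (0 : ℝ) ≤ β * (2 ^ N) ^ 3 := (Nat.cast_nonneg _).trans hβ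
    exact nonneg_of_mul_nonneg_left h4 (by positivity)
  let B : Finset (Fin N) → Finset (Fin N → Fin N → Bool) := fun S =>
    Finset.univ.filter (fun F => ∀ u : Fin k₀ × Fin 3 → Fin N, Function.Injective u →
      (∀ p, u p ∈ S) → ∀ i, ¬ OK3 M (fun j => F (u (i, j))))
  have h4 : (Finset.univ.filter (fun F : Fin N → Fin N → Bool => ¬ Gd N r F)) ⊆
      (Finset.powersetCard (k₀ * 3) Finset.univ).biUnion B := by
    intro F hF
    rw [Finset.mem_filter] at hF
    obtain ⟨S, hS, hB⟩ := exists_bad h1 h2 h3 hk F hF.2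
    rw [Finset.mem_biUnion]
    refine ⟨S, Finset.mem_powersetCard.mpr ⟨Finset.subset_univ _, hS⟩, ?_⟩
    rw [Finset.mem_filter]
    exact ⟨Finset.mem_univ _, hB⟩
  have h5 : ∀ S ∈ Finset.powersetCard (k₀ * 3) (Finset.univ : Finset (Fin N)),
      ((B S).card : ℝ) ≤ 2 ^ (N * N) * β ^ k₀ := by
    intro S hS
    have hS2 := (Finset.mem_powersetCard.mp hS).2
    let u : Fin k₀ × Fin 3 → Fin N := fun p => S.orderEmbOfFin hS2 (finProdFinEquiv p)
    have hu : Function.Injective u := by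
      intro p q h
      exact finProdFinEquiv.injective ((S.orderEmbOfFin hS2).injective h)
    have huS : ∀ p, u p ∈ S := fun p => Finset.orderEmbOfFin_mem S hS2 _
    refine le_trans ?_ (card_fixed u hu β hβ)
    apply Nat.cast_le.mpr
    apply Finset.card_le_card
    intro F hF
    rw [Finset.mem_filter] at hF ⊢
    exact ⟨Finset.mem_univ _, hF.2 u hu huS⟩
  have h6 : ((Finset.univ.filter (fun F : Fin N → Fin N → Bool => ¬ Gd N r F)).card : ℝ) ≤
      ∑ S ∈ Finset.powersetCard (k₀ * 3) (Finset.univ : Finset (Fin N)), ((B S).card : ℝ) := by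
    exact_mod_cast (Finset.card_le_card h4).trans Finset.card_biUnion_le
  refine h6.trans ((Finset.sum_le_sum h5).trans ?_)
  rw [Finset.sum_const, Finset.card_powersetCard, Finset.card_univ, Fintype.card_fin,
    nsmul_eq_mul]
  have h7 : ((N.choose (k₀ * 3) : ℕ) : ℝ) ≤ 2 ^ N := by
    exact_mod_cast Nat.choose_le_two_pow N (k₀ * 3)
  have h8 : (0 : ℝ) ≤ 2 ^ (N * N) * β ^ k₀ := by positivity
  calc ((N.choose (k₀ * 3) : ℕ) : ℝ) * (2 ^ (N * N) * β ^ k₀)
      ≤ 2 ^ N * (2 ^ (N * N) * β ^ k₀) := mul_le_mul_of_nonneg_right h7 h8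
    _ = 2 ^ (N * N) * (2 ^ N * β ^ k₀) := by ring

open Classical in
theorem card_not_gd (ε : ℝ) (hε : 0 < ε) :
    ∃ c : ℝ, 0 < c ∧ ∃ N₀ : ℕ, ∀ N : ℕ, N₀ ≤ N → ∀ r : ℕ, (1 / 3 + ε) * N ≤ r →
      ((Finset.univ.filter (fun F : Fin N → Fin N → Bool => ¬ Gd N r F)).card : ℝ) ≤
        2 ^ (N * N) * Real.exp (-(c * N ^ 2)) := by
  obtain ⟨e, he, he1, heε⟩ : ∃ e : ℝ, 0 < e ∧ e ≤ 1 / 100 ∧ e ≤ ε :=
    ⟨min ε (1 / 100), lt_min hε (by norm_num), min_le_right _ _, min_le_left _ _⟩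
  refine ⟨e / 64000000, by positivity, ⌈(64000000 : ℝ) / e⌉₊, ?_⟩
  intro N hN r hr
  have hN1 : (64000000 : ℝ) / e ≤ N := (Nat.le_ceil _).trans (by exact_mod_cast hN)
  have hN2 : (64000000 : ℝ) ≤ e * N := by
    rwa [div_le_iff₀' he] at hN1
  have hN3 : (6400000000 : ℝ) ≤ N := by nlinarith
  -- parameters
  set M : ℕ := ⌊(126 / 1000 : ℝ) * N⌋₊ with hM
  set s : ℕ := (M + 1) / 2 with hs
  set k : ℕ := ⌈(N : ℝ) / 3 - e * N / 2⌉₊ with hk
  set k₀ : ℕ := ⌊e * N / 2⌋₊ with hk₀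
  have hM1 : (M : ℝ) ≤ (126 / 1000 : ℝ) * N := Nat.floor_le (by positivity)
  have hM2 : (126 / 1000 : ℝ) * N ≤ (M : ℝ) + 1 := (Nat.lt_floor_add_one _).le
  have hs1 : M ≤ 2 * s := by omega
  have hs2 : 2 * s ≤ M + 1 := by omega
  have hs2' : (2 : ℝ) * s ≤ M + 1 := by exact_mod_cast hs2
  have hk1 : (N : ℝ) / 3 - e * N / 2 ≤ k := Nat.le_ceil _
  have hk2 : (k : ℝ) < (N : ℝ) / 3 - e * N / 2 + 1 := Nat.ceil_lt_add_one (by nlinarith)
  have hk3 : (k₀ : ℝ) ≤ e * N / 2 := Nat.floor_le (by positivity)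
  have hk4 : e * N / 2 < (k₀ : ℝ) + 1 := Nat.lt_floor_add_one _
  have hr' : (1 / 3 + e) * N ≤ (r : ℝ) := by
    have : (1 / 3 + e) * N ≤ (1 / 3 + ε) * (N : ℝ) := by
      apply mul_le_mul_of_nonneg_right _ (Nat.cast_nonneg _)
      linarith
    linarith
  have h1 : N ≤ r + 2 * k := by
    have : (N : ℝ) ≤ (r : ℝ) + 2 * k := by linarith
    exact_mod_cast this
  have h3 : M + 3 * s + 1 ≤ r := by
    have : (M : ℝ) + 3 * s + 1 ≤ r := by nlinarith
    exact_mod_cast this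
  have h4 : 3 * k₀ + 3 * k ≤ N + 3 := by
    have : (3 : ℝ) * k₀ + 3 * k ≤ N + 3 := by linarith
    exact_mod_cast this
  have hβ := card_not_ok3 (N := N) (M := M) (1 / 1000) (by norm_num) (by norm_num) (by
    linarith)
  refine (card_not_gd_le h1 hs1 h3 h4 _ hβ).trans ?_
  apply mul_le_mul_of_nonneg_left _ (by positivity)
  -- 8 ≤ exp 3
  have h8 : (8 : ℝ) ≤ Real.exp 3 := by
    have h5 : (2 : ℝ) ≤ Real.exp 1 := by
      have := Real.add_one_le_exp (1 : ℝ)
      linarith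
    have h6 : Real.exp 3 = Real.exp 1 ^ 3 := by
      rw [← Real.exp_nat_mul]
      norm_num
    rw [h6]
    calc (8 : ℝ) = 2 ^ 3 := by norm_num
      _ ≤ Real.exp 1 ^ 3 := pow_le_pow_left₀ (by norm_num) h5 3
  have h2N : (2 : ℝ) ^ N ≤ Real.exp N := by
    have h5 : (2 : ℝ) ≤ Real.exp 1 := by
      have := Real.add_one_le_exp (1 : ℝ)
      linarith
    calc (2 : ℝ) ^ N ≤ Real.exp 1 ^ N := pow_le_pow_left₀ (by norm_num) h5 N
      _ = Real.exp N := by
        rw [← Real.exp_nat_mul]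
        norm_num
  have hb : 8 * Real.exp (-((1 / 1000 : ℝ) ^ 2 * N / 4)) ≤ Real.exp (-(N / 8000000)) := by
    calc 8 * Real.exp (-((1 / 1000 : ℝ) ^ 2 * N / 4))
        ≤ Real.exp 3 * Real.exp (-((1 / 1000 : ℝ) ^ 2 * N / 4)) :=
          mul_le_mul_of_nonneg_right h8 (Real.exp_pos _).le
      _ = Real.exp (3 + -((1 / 1000 : ℝ) ^ 2 * N / 4)) := (Real.exp_add _ _).symm
      _ ≤ Real.exp (-(N / 8000000)) := by
        apply Real.exp_le_exp.mpr
        linarith
  have hb2 : (8 * Real.exp (-((1 / 1000 : ℝ) ^ 2 * N / 4))) ^ k₀ ≤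
      Real.exp (-(k₀ * (N / 8000000))) := by
    calc (8 * Real.exp (-((1 / 1000 : ℝ) ^ 2 * N / 4))) ^ k₀
        ≤ Real.exp (-(N / 8000000)) ^ k₀ := pow_le_pow_left₀ (by positivity) hb k₀
      _ = Real.exp (-(k₀ * (N / 8000000))) := by
        rw [← Real.exp_nat_mul]
        congr 1
        ring
  calc (2 : ℝ) ^ N * (8 * Real.exp (-((1 / 1000 : ℝ) ^ 2 * N / 4))) ^ k₀
      ≤ Real.exp N * Real.exp (-(k₀ * (N / 8000000))) :=
        mul_le_mul h2N hb2 (by positivity) (Real.exp_pos _).le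
    _ = Real.exp (N + -(k₀ * (N / 8000000))) := (Real.exp_add _ _).symm
    _ ≤ Real.exp (-(e / 64000000 * N ^ 2)) := by
      apply Real.exp_le_exp.mpr
      have h7 : e * N / 4 ≤ (k₀ : ℝ) := by linarith
      have h9 : e * N / 4 * (N / 8000000) ≤ (k₀ : ℝ) * (N / 8000000) :=
        mul_le_mul_of_nonneg_right h7 (by positivity)
      have h10 : (N : ℝ) ≤ e * N / 4 * (N / 8000000) - e / 64000000 * N ^ 2 := by
        have h11 : e * N / 4 * (N / 8000000) - e / 64000000 * N ^ 2 =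
            e * N / 64000000 * N := by ring
        rw [h11]
        have h12 : (1 : ℝ) ≤ e * N / 64000000 := by
          rw [le_div_iff₀ (by norm_num)]
          linarith
        nlinarith
      linarith

end Pool.Agent.Lib.MP_23961f_co.AA
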