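import Pool.Agent.Lib.MP_23961f_co.AA.Defs

/-!
Module Generic. Finitely many stress-freeness conditions that are satisfiable one by one are
satisfiable simultaneously.

PROOF. `SF S p q` says that the vectors `m_e`, `e = (a,b)` with `S a b`, in
`(Fin N × Fin r) ⊕ (Fin N × Fin r) → ℝ` (entry `q b k` at `inl (a,k)`, entry `p a k` at
`inr (b,k)`, all others `0`) are linearly independent, equivalently `det (M * Mᵀ) ≠ 0` for the
matrix `M` with rows `m_e` (over `ℝ`, `x M Mᵀ = 0` gives `|x M|² = 0`; use
`Matrix.exists_vecMul_eq_zero_iff`). This determinant is the value of a polynomial in the variables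
`p, q` (`MvPolynomial`, `RingHom.map_det`). A finite product of nonzero polynomials is nonzero and
has a point where it does not vanish (`MvPolynomial.funext`). The condition
`∑ k, U i a k * U i b k ≠ 0` is a nonzero polynomial as well (all `U = 1`, as `0 < r`).
-/

set_option autoImplicit false

namespace Pool.Agent.Lib.MP_23961f_co.AA

open Classical in
/-- The matrix of the stress conditions; a third block forces `X a b = 0` outside `S`. -/
private noncomputable def genM {R : Type*} [CommRing R] {N r : ℕ} (S : Fin N → Fin N → Prop)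
    (P Q : Fin N → Fin r → R) :
    Matrix (Fin N × Fin N) ((Fin N × Fin r) ⊕ ((Fin N × Fin r) ⊕ (Fin N × Fin N))) R :=
  fun e c => match c with
    | Sum.inl (b, k) => if e.2 = b then P e.1 k else 0
    | Sum.inr (Sum.inl (a, k)) => if e.1 = a then Q e.2 k else 0
    | Sum.inr (Sum.inr e') => if e = e' then (if S e.1 e.2 then 0 else 1) else 0

private theorem genM_map {R R' : Type*} [CommRing R] [CommRing R'] {N r : ℕ}
    (S : Fin N → Fin N → Prop) (P Q : Fin N → Fin r → R) (f : R →+* R') :
    (genM S P Q).map f = genM S (fun a k => f (P a k)) (fun a k => f (Q a k)) := by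
  ext e c
  rcases c with ⟨b, k⟩ | ⟨a, k⟩ | e'
  · simp only [Matrix.map_apply, genM]
    split_ifs <;> simp
  · simp only [Matrix.map_apply, genM]
    split_ifs <;> simp
  · simp only [Matrix.map_apply, genM]
    split_ifs <;> simp

open Classical in
private theorem genM_vecMul {N r : ℕ} (S : Fin N → Fin N → Prop) (p q : Fin N → Fin r → ℝ)
    (v : Fin N × Fin N → ℝ) :
    Matrix.vecMul v (genM S p q) = 0 ↔ ((∀ a b, ¬ S a b → v (a, b) = 0) ∧
      (∀ b k, ∑ a, v (a, b) * p a k = 0) ∧ (∀ a k, ∑ b, v (a, b) * q b k = 0)) := by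
  have e1 : ∀ b k, Matrix.vecMul v (genM S p q) (Sum.inl (b, k)) = ∑ a, v (a, b) * p a k := by
    intro b k
    simp only [Matrix.vecMul, dotProduct, genM, Fintype.sum_prod_type]
    refine Finset.sum_congr rfl fun a _ => ?_
    simp
  have e2 : ∀ a k, Matrix.vecMul v (genM S p q) (Sum.inr (Sum.inl (a, k)))
      = ∑ b, v (a, b) * q b k := by
    intro a k
    simp only [Matrix.vecMul, dotProduct, genM, Fintype.sum_prod_type]
    rw [Finset.sum_comm]
    refine Finset.sum_congr rfl fun b _ => ?_
    simp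
  have e3 : ∀ a b, Matrix.vecMul v (genM S p q) (Sum.inr (Sum.inr (a, b)))
      = v (a, b) * (if S a b then 0 else 1) := by
    intro a b
    simp only [Matrix.vecMul, dotProduct, genM]
    rw [Finset.sum_eq_single (a, b)]
    · simp
    · intro e _ he
      simp [he]
    · intro h
      exact absurd (Finset.mem_univ _) h
  constructor
  · intro h
    refine ⟨fun a b hab => ?_, fun b k => ?_, fun a k => ?_⟩
    · have := congrFun h (Sum.inr (Sum.inr (a, b)))
      rw [e3, if_neg hab, mul_one] at this
      exact this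
    · rw [← e1, h]
      rfl
    · rw [← e2, h]
      rfl
  · rintro ⟨h1, h2, h3⟩
    funext c
    rcases c with ⟨b, k⟩ | ⟨a, k⟩ | ⟨a, b⟩
    · rw [e1, h2]
      rfl
    · rw [e2, h3]
      rfl
    · rw [e3]
      by_cases hab : S a b
      · rw [if_pos hab, mul_zero]
        rfl
      · rw [if_neg hab, mul_one, h1 a b hab]
        rfl

private theorem genM_det {N r : ℕ} (S : Fin N → Fin N → Prop) (p q : Fin N → Fin r → ℝ) :
    (genM S p q * (genM S p q).transpose).det ≠ 0 ↔ SF S p q := by
  rw [← not_iff_comm, ← Matrix.exists_vecMul_eq_zero_iff]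
  constructor
  · intro h
    by_contra hc
    refine h ?_
    intro X h1 h2 h3
    by_contra hX
    rw [not_forall] at hX
    obtain ⟨a, hX⟩ := hX
    rw [not_forall] at hX
    obtain ⟨b, hX⟩ := hX
    refine hc ⟨fun e => X e.1 e.2, fun h0 => hX (congrFun h0 (a, b)), ?_⟩
    rw [← Matrix.vecMul_vecMul, (genM_vecMul S p q (fun e => X e.1 e.2)).2 ⟨h1, h2, h3⟩,
      Matrix.zero_vecMul]
  · rintro ⟨v, hv, h⟩ hSF
    have h1 : Matrix.vecMul v (genM S p q) = 0 := by
      rw [← dotProduct_self_eq_zero]
      rw [← Matrix.vecMul_vecMul, Matrix.vecMul_transpose] at h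
      have h2 := congrArg (fun z => dotProduct z v) h
      simp only [zero_dotProduct] at h2
      rw [dotProduct_comm, Matrix.dotProduct_mulVec] at h2
      exact h2
    obtain ⟨h2, h3, h4⟩ := (genM_vecMul S p q v).1 h1
    refine hv (funext fun e => ?_)
    exact hSF (fun a b => v (a, b)) h2 h3 h4 e.1 e.2

/-- The polynomial whose non-vanishing is the condition `SF`. -/
private theorem exists_poly {σ : Type} {N r : ℕ} (S : Fin N → Fin N → Prop)
    (P Q : Fin N → Fin r → MvPolynomial σ ℝ) :
    ∃ D : MvPolynomial σ ℝ, ∀ u : σ → ℝ, MvPolynomial.eval u D ≠ 0 ↔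
      SF S (fun a k => MvPolynomial.eval u (P a k)) (fun a k => MvPolynomial.eval u (Q a k)) := by
  refine ⟨(genM S P Q * (genM S P Q).transpose).det, fun u => ?_⟩
  rw [← genM_det, RingHom.map_det]
  have : (MvPolynomial.eval u).mapMatrix (genM S P Q * (genM S P Q).transpose)
      = genM S (fun a k => MvPolynomial.eval u (P a k)) (fun a k => MvPolynomial.eval u (Q a k)) *
        (genM S (fun a k => MvPolynomial.eval u (P a k))
          (fun a k => MvPolynomial.eval u (Q a k))).transpose := by
    rw [RingHom.mapMatrix_apply, Matrix.map_mul, Matrix.transpose_map, genM_map]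
  rw [this]

private theorem exists_point {σ : Type} {K : Type} [Finite K] (D : K → MvPolynomial σ ℝ)
    (h : ∀ k, ∃ u : σ → ℝ, MvPolynomial.eval u (D k) ≠ 0) :
    ∃ u : σ → ℝ, ∀ k, MvPolynomial.eval u (D k) ≠ 0 := by
  classical
  have := Fintype.ofFinite K
  have h1 : ∏ k, D k ≠ 0 := by
    rw [Finset.prod_ne_zero_iff]
    intro k _ h0
    obtain ⟨u, hu⟩ := h k
    exact hu (by rw [h0, map_zero])
  have h2 : ∃ u : σ → ℝ, MvPolynomial.eval u (∏ k, D k) ≠ 0 := by
    by_contra hc
    rw [not_exists] at hc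
    refine h1 (MvPolynomial.funext fun u => ?_)
    rw [map_zero]
    exact not_not.1 (hc u)
  obtain ⟨u, hu⟩ := h2
  refine ⟨u, fun k h0 => hu ?_⟩
  rw [map_prod]
  exact Finset.prod_eq_zero (Finset.mem_univ k) h0

/-- Common right hand vectors (left hand vectors fixed). -/
theorem exists_common_right {N r : ℕ} {K : Type} [Finite K]
    (S : K → Fin N → Fin N → Prop) (p : K → Fin N → Fin r → ℝ)
    (h : ∀ k, ∃ q : Fin N → Fin r → ℝ, SF (S k) (p k) q) :
    ∃ q : Fin N → Fin r → ℝ, ∀ k, SF (S k) (p k) q := by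
  choose D hD using fun k => exists_poly (σ := Fin N × Fin r) (S k)
    (fun a t => MvPolynomial.C (p k a t)) (fun b t => MvPolynomial.X (b, t))
  obtain ⟨u, hu⟩ := exists_point D (fun k => by
    obtain ⟨q, hq⟩ := h k
    refine ⟨fun e => q e.1 e.2, ?_⟩
    rw [hD]
    simpa using hq)
  refine ⟨fun b t => u (b, t), fun k => ?_⟩
  have := (hD k u).1 (hu k)
  simpa using this

/-- Common generic vectors for all pairs of blocks. -/
theorem exists_common_blocks {N r m : ℕ} (hr : 0 < r) {K : Type} [Finite K]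
    (i j : K → Fin m) (hij : ∀ k, i k ≠ j k) (S : K → Fin N → Fin N → Prop)
    (h : ∀ k, ∃ p q : Fin N → Fin r → ℝ, SF (S k) p q) :
    ∃ U : Fin m → Fin N → Fin r → ℝ, (∀ k, SF (S k) (U (i k)) (U (j k))) ∧
      ∀ i a b, ∑ k, U i a k * U i b k ≠ 0 := by
  choose D hD using fun k => exists_poly (σ := Fin m × Fin N × Fin r) (S k)
    (fun a t => MvPolynomial.X (i k, a, t)) (fun b t => MvPolynomial.X (j k, b, t))
  obtain ⟨u, hu⟩ := exists_point (K := K ⊕ (Fin m × Fin N × Fin N))
    (Sum.elim D (fun c => ∑ t, MvPolynomial.X (c.1, c.2.1, t) * MvPolynomial.X (c.1, c.2.2, t)))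
    (fun k => by
      rcases k with k | c
      · obtain ⟨p, q, hpq⟩ := h k
        refine ⟨fun e => if e.1 = i k then p e.2.1 e.2.2 else q e.2.1 e.2.2, ?_⟩
        rw [Sum.elim_inl, hD]
        simpa [(hij k).symm] using hpq
      · refine ⟨fun _ => 1, ?_⟩
        rw [Sum.elim_inr]
        simp
        omega)
  refine ⟨fun l a t => u (l, a, t), fun k => ?_, fun l a b => ?_⟩
  · have := (hD k u).1 (hu (Sum.inl k))
    simpa using this
  · have := hu (Sum.inr (l, a, b))
    simpa using this

end Pool.Agent.Lib.MP_23961f_co.AA
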