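import Pool.Agent.Lib.MP_23961f_co.AA.Perturb
import Pool.Agent.Lib.MP_23961f_co.AA.Generic

/-!
Module Blocks. From a family of blocks to the matrix.

PROOF. Let `K` be the type of `(i, j, x, y)` with `i < j` in `Fin m` and `x, y : Fin N`, and
`S (i,j,x,y) a b := G.Adj (α i a) (α j b) ∨ (a = x ∧ b = y)`. By `hgd` and `exists_common_blocks`
there is `U : Fin m → Fin N → Fin r → ℝ` with `SF (S k) (U i) (U j)` for all `k` and
`∑ k, U i a k * U i b k ≠ 0`. Let `L` be the subtype of the vertices not of the form `α i a`,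
`E = EuclideanSpace ℝ ((Fin m × Fin r) ⊕ L)` (`finrank = m * r + (n - m * N)`), `u (α i a)` = the
vector with entries `U i a k` at `inl (i, k)` and `0` elsewhere, `u v` = basis vector `inr v` for
`v ∈ L`. Apply `matrix_of_config`. `h0`: adjacent vertices are in different blocks or in `L`.
Stress: let `X` be symmetric with `∑ w, X v w • u w = 0`. Coordinate `inr w` gives `X v w = 0` for
`w ∈ L`, so `X` vanishes if one index is in `L`. Coordinate `inl (j, k)` gives
`∑ b, X v (α j b) * U j b k = 0`. For `i < j` put `Y a b = X (α i a) (α j b)`; the coordinates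
`inl (j, k)` at `v = α i a` and `inl (i, k)` at `v = α j b` (with symmetry) are the two conditions
of `SF`. `X (α i a) (α i b) = 0` since `G` has no edge inside a block (and the extra pair is not
inside a block). So `h1` and the second alternative of `h2` hold for all pairs `x, y` which are not
both in the same block; for two vertices of the same block the first alternative holds
(`⟪u x, u y⟫ = ∑ k, U i a k * U i b k ≠ 0`). For `h1` when `N = 0` or `m ≤ 1`: there is nothing to
show; otherwise use `SF.mono` with any `x, y`.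
-/

set_option autoImplicit false

namespace Pool.Agent.Lib.MP_23961f_co.AA

open scoped InnerProductSpace

open Classical in
/-- coordinates of the vector of a vertex -/
private noncomputable def uf {n N r m : ℕ} (α : Fin m → Fin N → Fin n)
    (U : Fin m → Fin N → Fin r → ℝ) (v : Fin n) :
    ((Fin m × Fin r) ⊕ {v : Fin n // ∀ i a, α i a ≠ v}) → ℝ
  | Sum.inl (j, k) => ∑ b, if α j b = v then U j b k else 0
  | Sum.inr w => if w.1 = v then 1 else 0

private noncomputable def uE {n N r m : ℕ} (α : Fin m → Fin N → Fin n)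
    (U : Fin m → Fin N → Fin r → ℝ) (v : Fin n) :
    EuclideanSpace ℝ ((Fin m × Fin r) ⊕ {v : Fin n // ∀ i a, α i a ≠ v}) :=
  WithLp.toLp 2 (uf α U v)

open Classical in
private theorem uE_inner {n N r m : ℕ} (α : Fin m → Fin N → Fin n)
    (U : Fin m → Fin N → Fin r → ℝ) (v w : Fin n) :
    ⟪uE α U v, uE α U w⟫_ℝ = ∑ j, ∑ k, uf α U v (Sum.inl (j, k)) * uf α U w (Sum.inl (j, k))
      + ∑ z : {v : Fin n // ∀ i a, α i a ≠ v}, uf α U v (Sum.inr z) * uf α U w (Sum.inr z) := by
  rw [PiLp.inner_apply, Fintype.sum_sum_type, Fintype.sum_prod_type]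
  congr 1
  · refine Finset.sum_congr rfl fun j _ => Finset.sum_congr rfl fun k _ => ?_
    simp [uE, mul_comm]
  · refine Finset.sum_congr rfl fun z _ => ?_
    simp [uE, mul_comm]

private theorem uf_inl_eq {n N r m : ℕ} (α : Fin m → Fin N → Fin n)
    (hinj : ∀ i j a b, α i a = α j b → i = j ∧ a = b)
    (U : Fin m → Fin N → Fin r → ℝ) (i j : Fin m) (a : Fin N) (k : Fin r) :
    uf α U (α i a) (Sum.inl (j, k)) = if j = i then U i a k else 0 := by
  classical
  simp only [uf]
  by_cases h : j = i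
  · subst h
    rw [if_pos rfl, Finset.sum_eq_single a]
    · rw [if_pos rfl]
    · intro b _ hb
      rw [if_neg fun h => hb (hinj _ _ _ _ h).2]
    · intro h
      exact absurd (Finset.mem_univ _) h
  · rw [if_neg h]
    exact Finset.sum_eq_zero fun b _ => if_neg fun h' => h (hinj _ _ _ _ h').1

private theorem uf_inl_ne {n N r m : ℕ} (α : Fin m → Fin N → Fin n)
    (U : Fin m → Fin N → Fin r → ℝ) {v : Fin n} {j : Fin m} {k : Fin r}
    (h : uf α U v (Sum.inl (j, k)) ≠ 0) : ∃ b, α j b = v := by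
  classical
  by_contra hc
  rw [not_exists] at hc
  refine h ?_
  simp only [uf]
  exact Finset.sum_eq_zero fun b _ => if_neg (hc b)

private theorem uE_stress {n N r m : ℕ} (α : Fin m → Fin N → Fin n)
    (U : Fin m → Fin N → Fin r → ℝ) (P : Fin n → Fin n → Prop)
    (hP : ∀ i a b, ¬ P (α i a) (α i b))
    (hSF : ∀ i j, i < j → Fin N → SF (fun a b => P (α i a) (α j b)) (U i) (U j))
    (X : Fin n → Fin n → ℝ) (hsym : ∀ v w, X v w = X w v) (hX : ∀ v w, ¬ P v w → X v w = 0)
    (h : ∀ v, ∑ w, X v w • uE α U w = 0) : ∀ v w, X v w = 0 := by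
  classical
  have hc : ∀ v c, ∑ w, X v w * uf α U w c = 0 := by
    intro v c
    have h1 := congrArg (fun z : EuclideanSpace ℝ
      ((Fin m × Fin r) ⊕ {v : Fin n // ∀ i a, α i a ≠ v}) => z c) (h v)
    simpa [uE] using h1
  have hL : ∀ v w, (∀ i a, α i a ≠ w) → X v w = 0 := by
    intro v w hw
    have h1 := hc v (Sum.inr ⟨w, hw⟩)
    rw [Finset.sum_eq_single w] at h1
    · simpa [uf] using h1
    · intro w' _ hw'
      simp [uf, hw'.symm]
    · intro h
      exact absurd (Finset.mem_univ _) h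
  have hB : ∀ v j k, ∑ b, X v (α j b) * U j b k = 0 := by
    intro v j k
    have h1 := hc v (Sum.inl (j, k))
    rw [← h1]
    simp only [uf, Finset.mul_sum]
    rw [Finset.sum_comm]
    refine Finset.sum_congr rfl fun b _ => ?_
    rw [Finset.sum_eq_single (α j b)]
    · simp
    · intro w _ hw
      rw [if_neg hw.symm, mul_zero]
    · intro h
      exact absurd (Finset.mem_univ _) h
  have hlt : ∀ i j, i < j → ∀ a b, X (α i a) (α j b) = 0 := by
    intro i j hij a b
    refine hSF i j hij a (fun a b => X (α i a) (α j b)) ?_ ?_ ?_ a b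
    · intro a b hab
      exact hX _ _ hab
    · intro b k
      rw [← hB (α j b) i k]
      exact Finset.sum_congr rfl fun a _ => by rw [hsym]
    · intro a k
      exact hB (α i a) j k
  intro v w
  by_cases hw : ∀ i a, α i a ≠ w
  · exact hL v w hw
  by_cases hv : ∀ i a, α i a ≠ v
  · rw [hsym]
    exact hL w v hv
  push Not at hw hv
  obtain ⟨j, b, rfl⟩ := hw
  obtain ⟨i, a, rfl⟩ := hv
  rcases lt_trichotomy i j with hij | hij | hij
  · exact hlt i j hij a b
  · subst hij
    exact hX _ _ (hP i a b)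
  · rw [hsym]
    exact hlt j i hij b a

private theorem card_L {n N m : ℕ} (α : Fin m → Fin N → Fin n)
    (hinj : ∀ i j a b, α i a = α j b → i = j ∧ a = b)
    [Fintype {v : Fin n // ∀ i a, α i a ≠ v}] :
    Fintype.card {v : Fin n // ∀ i a, α i a ≠ v} = n - m * N := by
  classical
  have h1 : Fintype.card {v : Fin n // ∀ i a, α i a ≠ v}
      = ((Finset.univ.image (fun t : Fin m × Fin N => α t.1 t.2))ᶜ).card := by
    rw [← Fintype.card_coe]
    refine Fintype.card_congr (Equiv.subtypeEquivRight fun v => ?_)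
    simp
  rw [h1, Finset.card_compl, Finset.card_image_of_injective _ ?_, Finset.card_univ,
    Fintype.card_prod, Fintype.card_fin, Fintype.card_fin, Fintype.card_fin]
  rintro ⟨i, a⟩ ⟨j, b⟩ h
  obtain ⟨h1, h2⟩ := hinj _ _ _ _ h
  simp only at h1 h2
  rw [h1, h2]

open Classical in
theorem matrix_of_blocks {n N r m : ℕ} (hr : 0 < r) (G : SimpleGraph (Fin n))
    (α : Fin m → Fin N → Fin n) (hinj : ∀ i j a b, α i a = α j b → i = j ∧ a = b)
    (hcl : ∀ i a b, ¬ G.Adj (α i a) (α i b))
    (hgd : ∀ i j, i < j → Gd N r (fun a b => decide (G.Adj (α i a) (α j b)))) :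
    ∃ A : Matrix (Fin n) (Fin n) ℝ, A.PosSemidef ∧
      (∀ i j, i ≠ j → (A i j ≠ 0 ↔ Gᶜ.Adj i j)) ∧
      (∀ X : Matrix (Fin n) (Fin n) ℝ, X.IsSymm → (∀ i, X i i = 0) →
        (∀ i j, Gᶜ.Adj i j → X i j = 0) → A * X = 0 → X = 0) ∧
      A.rank ≤ m * r + (n - m * N) := by
  let K := {t : Fin m × Fin m × Fin N × Fin N // t.1 < t.2.1}
  obtain ⟨U, hU, hne⟩ := exists_common_blocks (N := N) (r := r) (m := m) hr (K := K)
    (fun k => k.1.1) (fun k => k.1.2.1) (fun k => k.2.ne)
    (fun k a b => G.Adj (α k.1.1 a) (α k.1.2.1 b) ∨ (a = k.1.2.2.1 ∧ b = k.1.2.2.2))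
    (fun k => by
      obtain ⟨p, q, hpq⟩ := hgd k.1.1 k.1.2.1 k.2 k.1.2.2.1 k.1.2.2.2
      refine ⟨p, q, hpq.mono fun a b hab => ?_⟩
      rcases hab with hab | hab
      · exact Or.inl (decide_eq_true hab)
      · exact Or.inr hab)
  have hU' : ∀ i j, i < j → ∀ x y, SF (fun a b => G.Adj (α i a) (α j b) ∨ (a = x ∧ b = y))
      (U i) (U j) := fun i j hij x y => hU ⟨(i, j, x, y), hij⟩
  suffices hmain : _ ∧ _ ∧ _ by
    obtain ⟨A, hA1, hA2, hA3, hA4⟩ := matrix_of_config G (uE α U) hmain.1 hmain.2.1 hmain.2.2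
    refine ⟨A, hA1, hA2, hA3, hA4.trans ?_⟩
    rw [finrank_euclideanSpace, Fintype.card_sum, Fintype.card_prod, Fintype.card_fin,
      Fintype.card_fin, card_L α hinj]
  refine ⟨?_, ?_, ?_⟩
  · intro v w hvw
    rw [uE_inner]
    have h1 : ∀ j k, uf α U v (Sum.inl (j, k)) * uf α U w (Sum.inl (j, k)) = 0 := by
      intro j k
      by_contra hc
      obtain ⟨h1, h2⟩ := mul_ne_zero_iff.1 hc
      obtain ⟨b, rfl⟩ := uf_inl_ne α U h1
      obtain ⟨b', rfl⟩ := uf_inl_ne α U h2
      exact hcl j b b' hvw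
    have h2 : ∀ z : {v : Fin n // ∀ i a, α i a ≠ v},
        uf α U v (Sum.inr z) * uf α U w (Sum.inr z) = 0 := by
      intro z
      simp only [uf]
      by_cases hz : z.1 = v
      · have hzw : z.1 ≠ w := fun h => hvw.ne (hz.symm.trans h)
        rw [if_neg hzw, mul_zero]
      · rw [if_neg hz, zero_mul]
    simp only [h1, h2, Finset.sum_const_zero, add_zero]
  · intro X hsym hX hs
    exact uE_stress α U G.Adj hcl (fun i j hij x => (hU' i j hij x x).mono
      fun a b hab => Or.inl hab) X hsym hX hs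
  · intro x y _ _
    by_cases hxy : ∃ i a b, α i a = x ∧ α i b = y
    · left
      obtain ⟨i, a, b, rfl, rfl⟩ := hxy
      rw [uE_inner]
      have h2 : ∀ z : {v : Fin n // ∀ i a, α i a ≠ v},
          uf α U (α i a) (Sum.inr z) * uf α U (α i b) (Sum.inr z) = 0 := by
        intro z
        simp only [uf]
        rw [if_neg (z.2 i a).symm, zero_mul]
      simp only [h2, Finset.sum_const_zero, add_zero, uf_inl_eq α hinj]
      rw [Finset.sum_eq_single i]
      · simpa using hne i a b
      · intro j _ hj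
        simp [hj]
      · intro h
        exact absurd (Finset.mem_univ _) h
    · right
      intro X hsym hX hs
      refine uE_stress α U (fun v w => G.Adj v w ∨ (v = x ∧ w = y) ∨ (v = y ∧ w = x))
        ?_ ?_ X hsym ?_ hs
      · rintro i a b (h | ⟨h1, h2⟩ | ⟨h1, h2⟩)
        · exact hcl i a b h
        · exact hxy ⟨i, a, b, h1, h2⟩
        · exact hxy ⟨i, b, a, h2, h1⟩
      · intro i j hij x₀
        by_cases hc : ∃ a₀ b₀, (α i a₀ = x ∧ α j b₀ = y) ∨ (α i a₀ = y ∧ α j b₀ = x)
        · obtain ⟨a₀, b₀, hc⟩ := hc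
          refine (hU' i j hij a₀ b₀).mono ?_
          rintro a b (h | ⟨h1, h2⟩ | ⟨h1, h2⟩)
          · exact Or.inl h
          · right
            rcases hc with ⟨h3, h4⟩ | ⟨h3, h4⟩
            · exact ⟨(hinj _ _ _ _ (h1.trans h3.symm)).2, (hinj _ _ _ _ (h2.trans h4.symm)).2⟩
            · exact absurd (hinj _ _ _ _ (h1.trans h4.symm)).1 hij.ne
          · right
            rcases hc with ⟨h3, h4⟩ | ⟨h3, h4⟩
            · exact absurd (hinj _ _ _ _ (h1.trans h4.symm)).1 hij.ne
            · exact ⟨(hinj _ _ _ _ (h1.trans h3.symm)).2, (hinj _ _ _ _ (h2.trans h4.symm)).2⟩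
        · refine (hU' i j hij x₀ x₀).mono ?_
          rintro a b (h | h | h)
          · exact Or.inl h
          · exact absurd ⟨a, b, Or.inl h⟩ hc
          · exact absurd ⟨a, b, Or.inr h⟩ hc
      · intro v w hvw
        rw [not_or, not_or] at hvw
        exact hX v w hvw.1 hvw.2.1 hvw.2.2

end Pool.Agent.Lib.MP_23961f_co.AA
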