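import Pool.Agent.Lib.MP_23961f_co.AA.Generic

/-!
Module Cert. A bipartite graph whose rows can be grouped into good triples and few singletons is
robustly stress-free.

PROOF. Fix `x y` and `S a b := F a b = true ∨ (a = x ∧ b = y)`. Rows: the `k` triples
`t (i, ·)`, `i : Fin k`, and the `N - 3 k` other rows are the groups of a map `g : Fin N → Fin r`
(`k + (N - 3 k) ≤ r`; same group iff equal or in the same triple). Put `p a = e_{g a}` (Pi.single).
DECOUPLING: if for every group `c` there is `q` with `SF (S ∧ g a = c) p q` then by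
`exists_common_right` one `q` works for all `c`, and `SF S p q` follows (the equations
`∑ a, X a b * p a k = 0` and `∑ b, X a b * q b k = 0` hold for `X` restricted to the rows of the
group `c`). For a fixed group `c` take `q b = e_{h b}` for `h : Fin N → Fin r` to be chosen; then
(column equations) `∑_{g a = c} X a b = 0` for every `b`, (row equations) `∑_{h b = l} X a b = 0`
for all `a, l`. If the group is a singleton, the column equation gives `X = 0` (any `h`).
If the group is a triple with rows `a0 a1 a2`: let `y` have its own value `r-1`. The columns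
`b ≠ y` have a type `τ : Fin 3 → Bool` (`τ i = F (a_i) b`), each type class has `≤ M ≤ 2 s`
members. Types with at most one `true`: `X a b = 0` by the column equation (value of `h` is
irrelevant, take `0`). Type `111`: values `0 .. M-1`, injective. For the types `011, 101, 110`
(classes `C0, C1, C2`; `C_i` misses row `i`) number the elements of the class injectively by
`0 .. 2s-1` and use the values `M + (rank of the row) * s + (index mod s)`: `C0` low and `C1` low
share the first `s` values, `C0` high and `C2` low the next `s`, `C1` high and `C2` high the last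
`s`; total `M + 3 s ≤ r - 1`. So each value is taken by at most one column of type `111`, or by
at most two columns of two different types `C_i, C_j`. In the second case the row `a_j` is adjacent
to the `C_i` column and not to the `C_j` column, hence the row equation of `a_j` gives
`X (a_j) b = 0` and the column equation of `b` gives the rest.
The column `y` alone in its value: row equations.
-/

set_option autoImplicit false

namespace Pool.Agent.Lib.MP_23961f_co.AA

/-- numbering of the columns inside the type classes -/
private theorem exists_index {N M : ℕ} (f : Fin 3 → Fin N → Bool) (hOK : OK3 M f) :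
    ∃ e : Fin N → ℕ, (∀ b, e b < M) ∧
      ∀ b b', (∀ i, f i b = f i b') → e b = e b' → b = b' := by
  classical
  have h1 : ∀ τ : Fin 3 → Bool, ∃ e : Fin N → ℕ, (∀ b, (∀ i, f i b = τ i) → e b < M) ∧
      ∀ b b', (∀ i, f i b = τ i) → (∀ i, f i b' = τ i) → e b = e b' → b = b' := by
    intro τ
    have hA := hOK τ
    set A := Finset.univ.filter (fun b => ∀ i, f i b = τ i) with hAd
    refine ⟨fun b => if h : b ∈ A then (A.equivFin ⟨b, h⟩ : ℕ) else 0, ?_, ?_⟩
    · intro b hb
      have h : b ∈ A := by rw [hAd]; simpa using hb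
      simp only [dif_pos h]
      exact lt_of_lt_of_le (A.equivFin ⟨b, h⟩).2 hA
    · intro b b' hb hb' he
      have h : b ∈ A := by rw [hAd]; simpa using hb
      have h' : b' ∈ A := by rw [hAd]; simpa using hb'
      simp only [dif_pos h, dif_pos h'] at he
      have h2 := A.equivFin.injective (Fin.ext he)
      exact congrArg Subtype.val h2
  choose e he1 he2 using h1
  refine ⟨fun b => e (fun i => f i b) b, fun b => he1 _ b fun i => rfl, ?_⟩
  intro b b' hbb' h
  have h3 : (fun i => f i b) = fun i => f i b' := funext hbb'
  simp only [h3] at h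
  exact he2 _ b b' hbb' (fun i => rfl) h

/-- two rows of the triple without entry in the column `b` -/
private def Low {N : ℕ} (f : Fin 3 → Fin N → Bool) (b : Fin N) : Prop :=
  ∃ i1 i2, i1 ≠ i2 ∧ f i1 b = false ∧ f i2 b = false

/-- the entry of the row `j` in the column `b` is determined by a row equation -/
private def Good {N : ℕ} (f : Fin 3 → Fin N → Bool) (y : Fin N) (h : Fin N → ℕ) (j : Fin 3)
    (b : Fin N) : Prop :=
  (f j b = false ∧ b ≠ y) ∨ ∀ b', b' ≠ b → h b' = h b → b' ≠ y ∧ (f j b' = false ∨ Low f b')

private def hv {N : ℕ} (r M s : ℕ) (f : Fin 3 → Fin N → Bool) (e : Fin N → ℕ) (y b : Fin N) : ℕ :=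
  if b = y then r - 1
  else if f 0 b = true ∧ f 1 b = true ∧ f 2 b = true then e b
  else if f 0 b = false ∧ f 1 b = true ∧ f 2 b = true then M + e b
  else if f 0 b = true ∧ f 1 b = false ∧ f 2 b = true then
    (if e b < s then M + e b else M + s + e b)
  else if f 0 b = true ∧ f 1 b = true ∧ f 2 b = false then M + s + e b
  else 0

private theorem hv_lt {N r M s : ℕ} (f : Fin 3 → Fin N → Bool) (e : Fin N → ℕ)
    (he : ∀ b, e b < M) (h2 : M ≤ 2 * s) (h3 : M + 3 * s + 1 ≤ r) (y b : Fin N) (hb : b ≠ y) :
    hv r M s f e y b < r - 1 := by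
  have h4 := he b
  unfold hv
  rw [if_neg hb]
  split_ifs <;> omega

private theorem hv_y {N r M s : ℕ} (f : Fin 3 → Fin N → Bool) (e : Fin N → ℕ) (y : Fin N) :
    hv r M s f e y y = r - 1 := by
  unfold hv
  rw [if_pos rfl]

private theorem exists_good {N r M s : ℕ} (f : Fin 3 → Fin N → Bool) (e : Fin N → ℕ)
    (he : ∀ b, e b < M) (he2 : ∀ b b', (∀ i, f i b = f i b') → e b = e b' → b = b')
    (h2 : M ≤ 2 * s) (h3 : M + 3 * s + 1 ≤ r) (y b : Fin N) :
    ∃ j1 j2, j1 ≠ j2 ∧ Good f y (hv r M s f e y) j1 b ∧ Good f y (hv r M s f e y) j2 b := by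
  by_cases hb : b = y
  · subst hb
    have h4 : ∀ j, Good f b (hv r M s f e b) j b := by
      intro j
      right
      intro b' hb' hh
      have h5 := hv_lt f e he h2 h3 b b' hb'
      rw [hh, hv_y] at h5
      exact absurd h5 (lt_irrefl _)
    exact ⟨0, 1, by decide, h4 0, h4 1⟩
  · -- a column with the same value is not `y`
    have hy : ∀ b', b' ≠ b → hv r M s f e y b' = hv r M s f e y b → b' ≠ y := by
      intro b' _ hh hb'
      have h5 := hv_lt f e he h2 h3 y b hb
      rw [← hh, hb', hv_y] at h5
      exact absurd h5 (lt_irrefl _)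
    have key : ∀ b', b' ≠ b → hv r M s f e y b' = hv r M s f e y b →
        Low f b' ∨ Low f b ∨
        (f 0 b = false ∧ e b < s ∧ f 1 b' = false) ∨ (f 0 b = false ∧ s ≤ e b ∧ f 2 b' = false) ∨
        (f 1 b = false ∧ e b < s ∧ f 0 b' = false) ∨ (f 1 b = false ∧ s ≤ e b ∧ f 2 b' = false) ∨
        (f 2 b = false ∧ e b < s ∧ f 0 b' = false) ∨
        (f 2 b = false ∧ s ≤ e b ∧ f 1 b' = false) := by
      intro b' hb' hh
      have hy' := hy b' hb' hh
      have e1 := he b
      have e2 := he b'
      have e3 := he2 b b'
      rw [Fin.forall_fin_succ, Fin.forall_fin_two] at e3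
      have e3' : f 0 b = f 0 b' → f 1 b = f 1 b' → f 2 b = f 2 b' → e b ≠ e b' :=
        fun q1 q2 q3 q4 => hb' (e3 ⟨q1, q2, q3⟩ q4).symm
      have l01 : ∀ c, f 0 c = false → f 1 c = false → Low f c :=
        fun c q1 q2 => ⟨0, 1, by decide, q1, q2⟩
      have l02 : ∀ c, f 0 c = false → f 2 c = false → Low f c :=
        fun c q1 q2 => ⟨0, 2, by decide, q1, q2⟩
      have l12 : ∀ c, f 1 c = false → f 2 c = false → Low f c :=
        fun c q1 q2 => ⟨1, 2, by decide, q1, q2⟩
      unfold hv at hh
      rw [if_neg hy', if_neg hb] at hh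
      clear e3
      cases a0 : f 0 b <;> cases a1 : f 1 b <;> cases a2 : f 2 b <;>
        first
        | exact Or.inr (Or.inl (l01 b a0 a1))
        | exact Or.inr (Or.inl (l02 b a0 a2))
        | exact Or.inr (Or.inl (l12 b a1 a2))
        | (cases c0 : f 0 b' <;> cases c1 : f 1 b' <;> cases c2 : f 2 b' <;>
            first
            | exact Or.inl (l01 b' c0 c1)
            | exact Or.inl (l02 b' c0 c2)
            | exact Or.inl (l12 b' c1 c2)
            | (simp only [a0, a1, a2, c0, c1, c2, and_true, true_and, and_false, false_and,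
                if_true, if_false, reduceCtorEq, ne_eq, forall_const, IsEmpty.forall_iff] at hh e3' ⊢
               try split_ifs at hh
               all_goals
                 first
                 | (exfalso; omega)
                 | (right; right; omega)))
    have notlow : ∀ i1 i2 : Fin 3, i1 ≠ i2 → f i1 b = true → f i2 b = true → ¬ Low f b := by
      rintro i1 i2 hi q1 q2 ⟨k1, k2, hk, r1, r2⟩
      have n11 : k1 ≠ i1 := fun h => by rw [h, q1] at r1; cases r1
      have n12 : k1 ≠ i2 := fun h => by rw [h, q2] at r1; cases r1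
      have n21 : k2 ≠ i1 := fun h => by rw [h, q1] at r2; cases r2
      have n22 : k2 ≠ i2 := fun h => by rw [h, q2] at r2; cases r2
      omega
    have fin : ∀ i1 i2 : Fin 3, i1 ≠ i2 → f i1 b = true → f i2 b = true → ∀ j : Fin 3,
        (∀ b', b' ≠ b → hv r M s f e y b' = hv r M s f e y b →
          (f 0 b = false ∧ e b < s ∧ f 1 b' = false) ∨
          (f 0 b = false ∧ s ≤ e b ∧ f 2 b' = false) ∨
          (f 1 b = false ∧ e b < s ∧ f 0 b' = false) ∨
          (f 1 b = false ∧ s ≤ e b ∧ f 2 b' = false) ∨
          (f 2 b = false ∧ e b < s ∧ f 0 b' = false) ∨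
          (f 2 b = false ∧ s ≤ e b ∧ f 1 b' = false) → f j b' = false ∨ Low f b') →
        Good f y (hv r M s f e y) j b := by
      intro i1 i2 hi q1 q2 j hj
      right
      intro b' hb' hh
      refine ⟨hy b' hb' hh, ?_⟩
      rcases key b' hb' hh with h | h | h
      · exact Or.inr h
      · exact absurd h (notlow i1 i2 hi q1 q2)
      · exact hj b' hb' hh h
    cases a0 : f 0 b
    · cases a1 : f 1 b
      · exact ⟨0, 1, by decide, Or.inl ⟨a0, hb⟩, Or.inl ⟨a1, hb⟩⟩
      · cases a2 : f 2 b
        · exact ⟨0, 2, by decide, Or.inl ⟨a0, hb⟩, Or.inl ⟨a2, hb⟩⟩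
        · by_cases hs : e b < s
          · refine ⟨0, 1, by decide, Or.inl ⟨a0, hb⟩, fin 1 2 (by decide) a1 a2 1 ?_⟩
            intro b' _ _ h
            simp only [a0, a1, a2, reduceCtorEq, false_and, false_or, or_false, true_and] at h
            left
            rcases h with h | h
            · exact h.2
            · omega
          · refine ⟨0, 2, by decide, Or.inl ⟨a0, hb⟩, fin 1 2 (by decide) a1 a2 2 ?_⟩
            intro b' _ _ h
            simp only [a0, a1, a2, reduceCtorEq, false_and, false_or, or_false, true_and] at h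
            left
            rcases h with h | h
            · omega
            · exact h.2
    · cases a1 : f 1 b
      · cases a2 : f 2 b
        · exact ⟨1, 2, by decide, Or.inl ⟨a1, hb⟩, Or.inl ⟨a2, hb⟩⟩
        · by_cases hs : e b < s
          · refine ⟨1, 0, by decide, Or.inl ⟨a1, hb⟩, fin 0 2 (by decide) a0 a2 0 ?_⟩
            intro b' _ _ h
            simp only [a0, a1, a2, reduceCtorEq, false_and, false_or, or_false, true_and] at h
            left
            rcases h with h | h
            · exact h.2
            · omega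
          · refine ⟨1, 2, by decide, Or.inl ⟨a1, hb⟩, fin 0 2 (by decide) a0 a2 2 ?_⟩
            intro b' _ _ h
            simp only [a0, a1, a2, reduceCtorEq, false_and, false_or, or_false, true_and] at h
            left
            rcases h with h | h
            · omega
            · exact h.2
      · cases a2 : f 2 b
        · by_cases hs : e b < s
          · refine ⟨2, 0, by decide, Or.inl ⟨a2, hb⟩, fin 0 1 (by decide) a0 a1 0 ?_⟩
            intro b' _ _ h
            simp only [a0, a1, a2, reduceCtorEq, false_and, false_or, or_false, true_and] at h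
            left
            rcases h with h | h
            · exact h.2
            · omega
          · refine ⟨2, 1, by decide, Or.inl ⟨a2, hb⟩, fin 0 1 (by decide) a0 a1 1 ?_⟩
            intro b' _ _ h
            simp only [a0, a1, a2, reduceCtorEq, false_and, false_or, or_false, true_and] at h
            left
            rcases h with h | h
            · omega
            · exact h.2
        · have h5 : ∀ j : Fin 3, Good f y (hv r M s f e y) j b := by
            intro j
            refine fin 0 1 (by decide) a0 a1 j ?_
            intro b' _ _ h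
            exfalso
            simp only [a0, a1, a2, reduceCtorEq, false_and, or_false] at h
          exact ⟨0, 1, by decide, h5 0, h5 1⟩

private theorem three {X : Fin 3 → ℝ} (h : ∑ j, X j = 0) {j1 j2 : Fin 3} (hj : j1 ≠ j2)
    (h1 : X j1 = 0) (h2 : X j2 = 0) (j : Fin 3) : X j = 0 := by
  rw [Fin.sum_univ_three] at h
  by_cases e1 : j = j1
  · rw [e1, h1]
  by_cases e2 : j = j2
  · rw [e2, h2]
  have h3 : (X 0 = 0 ∨ j = 0) ∧ (X 1 = 0 ∨ j = 1) ∧ (X 2 = 0 ∨ j = 2) := by
    refine ⟨?_, ?_, ?_⟩
    · by_cases q1 : j1 = 0
      · left; rwa [← q1]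
      by_cases q2 : j2 = 0
      · left; rwa [← q2]
      right; omega
    · by_cases q1 : j1 = 1
      · left; rwa [← q1]
      by_cases q2 : j2 = 1
      · left; rwa [← q2]
      right; omega
    · by_cases q1 : j1 = 2
      · left; rwa [← q1]
      by_cases q2 : j2 = 2
      · left; rwa [← q2]
      right; omega
  obtain ⟨q0, q1, q2⟩ := h3
  rcases q0 with q0 | q0
  · rcases q1 with q1 | q1
    · rcases q2 with q2 | q2
      · have : j = 0 ∨ j = 1 ∨ j = 2 := by omega
        rcases this with h | h | h <;> rw [h] <;> assumption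
      · rw [q2]; linarith
    · rw [q1] at e1 e2 ⊢
      rcases q2 with q2 | q2
      · linarith
      · exact absurd (q1.symm.trans q2) (by decide)
  · rw [q0] at e1 e2 ⊢
    rcases q1 with q1 | q1
    · rcases q2 with q2 | q2
      · linarith
      · exact absurd (q0.symm.trans q2) (by decide)
    · exact absurd (q0.symm.trans q1) (by decide)

/-- a triple of rows -/
private theorem triple {N r M s : ℕ} (f : Fin 3 → Fin N → Bool) (hOK : OK3 M f)
    (h2 : M ≤ 2 * s) (h3 : M + 3 * s + 1 ≤ r) (y : Fin N) :
    ∃ h : Fin N → Fin r, ∀ X : Fin 3 → Fin N → ℝ, (∀ j b, f j b = false → b ≠ y → X j b = 0) →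
      (∀ b, ∑ j, X j b = 0) → (∀ j l, ∑ b, X j b * (if h b = l then 1 else 0) = 0) →
      ∀ j b, X j b = 0 := by
  obtain ⟨e, he, he2⟩ := exists_index f hOK
  have hlt : ∀ b, hv r M s f e y b < r := by
    intro b
    by_cases hb : b = y
    · rw [hb, hv_y]; omega
    · have := hv_lt f e he h2 h3 y b hb
      omega
  refine ⟨fun b => ⟨hv r M s f e y b, hlt b⟩, ?_⟩
  intro X hX hcol hrow j b
  have hlow : ∀ b', b' ≠ y → Low f b' → ∀ j, X j b' = 0 := by
    rintro b' hb' ⟨i1, i2, hi, q1, q2⟩ j
    exact three (hcol b') hi (hX i1 b' q1 hb') (hX i2 b' q2 hb') j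
  have hgood : ∀ j, Good f y (hv r M s f e y) j b → X j b = 0 := by
    intro j hg
    rcases hg with ⟨q1, q2⟩ | hg
    · exact hX j b q1 q2
    · have h4 := hrow j ⟨hv r M s f e y b, hlt b⟩
      rw [Finset.sum_eq_single b] at h4
      · rw [if_pos rfl, mul_one] at h4
        exact h4
      · intro b' _ hb'
        by_cases h5 : hv r M s f e y b' = hv r M s f e y b
        · obtain ⟨h6, h7⟩ := hg b' hb' h5
          rcases h7 with h7 | h7
          · rw [hX j b' h7 h6, zero_mul]
          · rw [hlow b' h6 h7 j, zero_mul]
        · rw [if_neg, mul_zero]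
          intro h6
          exact h5 (Fin.mk.inj_iff.1 h6)
      · intro h
        exact absurd (Finset.mem_univ b) h
  obtain ⟨j1, j2, hj, g1, g2⟩ := exists_good f e he he2 h2 h3 y b
  exact three (hcol b) hj (hgood j1 g1) (hgood j2 g2) j

theorem gd_of_triples {N r k M s : ℕ} (F : Fin N → Fin N → Bool)
    (t : Fin k × Fin 3 → Fin N) (ht : Function.Injective t)
    (hOK : ∀ i, OK3 M (fun j => F (t (i, j))))
    (h1 : N ≤ r + 2 * k) (h2 : M ≤ 2 * s) (h3 : M + 3 * s + 1 ≤ r) : Gd N r F := by
  classical
  intro x y
  -- the groups of rows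
  have hcard : Fintype.card (Fin k ⊕ {a : Fin N // a ∉ Set.range t}) ≤ Fintype.card (Fin r) := by
    rw [Fintype.card_sum, Fintype.card_fin, Fintype.card_fin, Fintype.card_subtype_compl,
      Fintype.card_fin]
    have h4 : Fintype.card {a : Fin N // a ∈ Set.range t} = k * 3 := by
      have h5 := Set.card_range_of_injective ht
      rw [Fintype.card_prod, Fintype.card_fin, Fintype.card_fin] at h5
      rw [← h5]
    have h5 := Fintype.card_le_of_injective t ht
    rw [Fintype.card_prod, Fintype.card_fin, Fintype.card_fin, Fintype.card_fin] at h5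
    rw [h4]
    omega
  obtain ⟨ι⟩ := Function.Embedding.nonempty_of_card_le hcard
  obtain ⟨cl, hcl1, hcl2⟩ : ∃ cl : Fin N → Fin k ⊕ {a : Fin N // a ∉ Set.range t},
      (∀ i j, cl (t (i, j)) = Sum.inl i) ∧
      ∀ a, (∃ i j, a = t (i, j)) ∨ ∃ h : a ∉ Set.range t, cl a = Sum.inr ⟨a, h⟩ := by
    refine ⟨fun a => if h : a ∈ Set.range t then Sum.inl h.choose.1 else Sum.inr ⟨a, h⟩, ?_, ?_⟩
    · intro i j
      have h : t (i, j) ∈ Set.range t := ⟨_, rfl⟩
      simp only [dif_pos h]
      rw [ht h.choose_spec]
    · intro a
      by_cases h : a ∈ Set.range t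
      · left
        obtain ⟨⟨i, j⟩, rfl⟩ := h
        exact ⟨i, j, rfl⟩
      · right
        refine ⟨h, ?_⟩
        simp only [dif_neg h]
  let g : Fin N → Fin r := fun a => ι (cl a)
  let p : Fin N → Fin r → ℝ := fun a c => if g a = c then 1 else 0
  have key : ∀ c : Fin r, ∃ q : Fin N → Fin r → ℝ,
      SF (fun a b => (F a b = true ∨ (a = x ∧ b = y)) ∧ g a = c) p q := by
    intro c
    by_cases hc : ∃ i, ι (Sum.inl i) = c
    · obtain ⟨i, rfl⟩ := hc
      have hg : ∀ a, g a = ι (Sum.inl i) → ∃ j, t (i, j) = a := by
        intro a ha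
        have h4 : cl a = Sum.inl i := ι.injective ha
        rcases hcl2 a with ⟨i', j, rfl⟩ | ⟨h, h5⟩
        · rw [hcl1] at h4
          rw [← Sum.inl.inj h4]
          exact ⟨j, rfl⟩
        · rw [h5] at h4
          cases h4
      have hg' : ∀ j, g (t (i, j)) = ι (Sum.inl i) := fun j => by
        show ι (cl (t (i, j))) = _
        rw [hcl1]
      obtain ⟨h, hh⟩ := triple (r := r) (fun j => F (t (i, j))) (hOK i) h2 h3 y
      refine ⟨fun b c => if h b = c then 1 else 0, ?_⟩
      intro X hS hcol hrow a b
      by_cases ha : g a = ι (Sum.inl i)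
      · obtain ⟨j, rfl⟩ := hg a ha
        refine hh (fun j b => X (t (i, j)) b) ?_ ?_ ?_ j b
        · intro j b hF hb
          refine hS _ _ ?_
          rintro ⟨h4 | h4, _⟩
          · simp only [hF] at h4
            cases h4
          · exact hb h4.2
        · intro b
          have h4 := hcol b (ι (Sum.inl i))
          have h5 : ∑ a, X a b * p a (ι (Sum.inl i)) =
              ∑ a ∈ Finset.univ.image (fun j => t (i, j)), X a b * p a (ι (Sum.inl i)) := by
            symm
            refine Finset.sum_subset (Finset.subset_univ _) ?_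
            intro a _ ha
            have h6 : g a ≠ ι (Sum.inl i) := by
              intro h7
              obtain ⟨j, rfl⟩ := hg a h7
              exact ha (Finset.mem_image_of_mem _ (Finset.mem_univ j))
            rw [hS a b (fun h7 => h6 h7.2), zero_mul]
          rw [h5, Finset.sum_image] at h4
          · rw [← h4]
            refine Finset.sum_congr rfl fun j _ => ?_
            have h6 : p (t (i, j)) (ι (Sum.inl i)) = 1 := if_pos (hg' j)
            rw [h6, mul_one]
          · intro j _ j' _ hjj
            have := ht hjj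
            exact (Prod.mk.inj this).2
        · intro j l
          exact hrow (t (i, j)) l
      · exact hS a b fun h4 => ha h4.2
    · refine ⟨fun _ _ => 0, ?_⟩
      intro X hS hcol _ a b
      by_cases ha : g a = c
      · have h4 := hcol b c
        rw [Finset.sum_eq_single a] at h4
        · have h5 : p a c = 1 := if_pos ha
          rw [h5, mul_one] at h4
          exact h4
        · intro a' _ haa
          have h5 : g a' ≠ c := by
            intro h6
            have h7 : cl a' = cl a := ι.injective (h6.trans ha.symm)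
            rcases hcl2 a with ⟨i, j, rfl⟩ | ⟨q1, q2⟩
            · exact hc ⟨i, by rw [← ha]; show _ = ι (cl (t (i, j))); rw [hcl1]⟩
            · rcases hcl2 a' with ⟨i, j, rfl⟩ | ⟨q3, q4⟩
              · exact hc ⟨i, by rw [← h6]; show _ = ι (cl (t (i, j))); rw [hcl1]⟩
              · rw [q2, q4] at h7
                exact haa (congrArg Subtype.val (Sum.inr.inj h7))
          rw [hS a' b (fun h6 => h5 h6.2), zero_mul]
        · intro h
          exact absurd (Finset.mem_univ a) h
      · exact hS a b fun h4 => ha h4.2
  obtain ⟨q, hq⟩ := exists_common_right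
    (fun (c : Fin r) a b => (F a b = true ∨ (a = x ∧ b = y)) ∧ g a = c) (fun _ => p) key
  refine ⟨p, q, ?_⟩
  intro X hS hcol hrow a b
  have h4 := hq (g a) (fun a' b => if g a' = g a then X a' b else 0) ?_ ?_ ?_ a b
  · simpa using h4
  · intro a' b' h5
    by_cases h6 : g a' = g a
    · rw [if_pos h6]
      exact hS a' b' fun h7 => h5 ⟨h7, h6⟩
    · rw [if_neg h6]
  · intro b' c
    by_cases hc : g a = c
    · rw [← hcol b' c]
      refine Finset.sum_congr rfl fun a' _ => ?_
      by_cases h6 : g a' = g a
      · rw [if_pos h6]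
      · have h7 : p a' c = 0 := if_neg fun h8 => h6 (h8.trans hc.symm)
        rw [h7, mul_zero, mul_zero]
    · refine Finset.sum_eq_zero fun a' _ => ?_
      by_cases h6 : g a' = g a
      · have h7 : p a' c = 0 := if_neg fun h8 => hc (h6.symm.trans h8)
        rw [h7, mul_zero]
      · rw [if_neg h6, zero_mul]
  · intro a' c
    by_cases h6 : g a' = g a
    · simp only [if_pos h6]
      exact hrow a' c
    · simp only [if_neg h6, zero_mul, Finset.sum_const_zero]

end Pool.Agent.Lib.MP_23961f_co.AA
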