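import Pool.Agent.Lib.MP_23961f_co.AA.Density

/-!
Module Cliques. Many independent `k`-tuples in every large set (deterministic).

PROOF of `card_indep_ge`. Induction on `k` for all `R`, `m`. `k = 0`: one function. Step: the set
`R` has `t = |R| ≥ m ≥ t₀` elements (`t₀ ≤ q^(k+1) m`, `q = 1/2 - 3ε < 1`). Since
`nonEdges G R = ∑_{v ∈ R} d(v)` with `d(v) = |R ∩ N(v)| ≤ t - 1` the number of non-neighbours in
`R \ {v}`, and `∑ d(v) ≥ (1/2 - ε) t (t-1)`, at least `ε t` vertices `v ∈ R` have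
`d(v) ≥ (1/2 - 2ε)(t-1) ≥ q t` (the last because `ε t ≥ 1`, `ε ≤ 1/8`). For each of these the set
`R' = {w ∈ R : w ≠ v, w not adjacent to v}` has at least `q m` elements and `t₀ ≤ q^k (q m)`, so
it contains at least `(ε q m)^k q^(k(k-1)/2)` tuples; `Fin.cons v f` gives distinct tuples.
Total `≥ ε m (ε q m)^k q^(k(k-1)/2) = (ε m)^(k+1) q^((k+1)k/2)`.
-/

set_option autoImplicit false

namespace Pool.Agent.Lib.MP_23961f_co.AA

open Classical in
/-- Embedded independent `k`-sets (ordered) of `G` inside `R`. -/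
noncomputable def indepTuples {n : ℕ} (G : SimpleGraph (Fin n)) (k : ℕ) (R : Finset (Fin n)) :
    Finset (Fin k → Fin n) :=
  Finset.univ.filter (fun f => (∀ i, f i ∈ R) ∧ ∀ i j, i ≠ j → f i ≠ f j ∧ ¬ G.Adj (f i) (f j))

open Classical in
private noncomputable def nonNb {n : ℕ} (G : SimpleGraph (Fin n)) (R : Finset (Fin n))
    (v : Fin n) : Finset (Fin n) :=
  R.filter (fun w => v ≠ w ∧ ¬ G.Adj v w)

open Classical in
private theorem nonEdges_eq {n : ℕ} (G : SimpleGraph (Fin n)) (R : Finset (Fin n)) :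
    (nonEdges G R : ℝ) = ∑ v ∈ R, ((nonNb G R v).card : ℝ) := by
  unfold nonEdges nonNb
  simp only [Finset.card_filter, Finset.sum_product]
  push_cast
  rfl

open Classical in
private theorem nonNb_card_le {n : ℕ} (G : SimpleGraph (Fin n)) (R : Finset (Fin n)) (v : Fin n)
    (hv : v ∈ R) : ((nonNb G R v).card : ℝ) ≤ (R.card : ℝ) - 1 := by
  have h1 : nonNb G R v ⊆ R.erase v := by
    intro w hw
    unfold nonNb at hw
    rw [Finset.mem_filter] at hw
    rw [Finset.mem_erase]
    exact ⟨fun h => hw.2.1 h.symm, hw.1⟩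
  have h2 := Finset.card_le_card h1
  rw [Finset.card_erase_of_mem hv] at h2
  have h3 : 1 ≤ R.card := Finset.card_pos.mpr ⟨v, hv⟩
  have h4 : (nonNb G R v).card + 1 ≤ R.card := by omega
  have h5 : ((nonNb G R v).card : ℝ) + 1 ≤ R.card := by exact_mod_cast h4
  linarith

open Classical in
/-- At least `ε |R|` vertices have many non-neighbours. -/
private theorem many_good {n : ℕ} (G : SimpleGraph (Fin n)) (ε : ℝ) (hε : 0 < ε)
    (hε1 : ε ≤ 1 / 12) (R : Finset (Fin n)) (ht : 1 / ε ≤ R.card)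
    (hd : (1 / 2 - ε) * R.card * (R.card - 1) ≤ (nonEdges G R : ℝ)) :
    ε * R.card ≤ ((R.filter (fun v => (1 / 2 - 3 * ε) * R.card ≤ (nonNb G R v).card)).card : ℝ) := by
  set t : ℝ := (R.card : ℝ) with htdef
  have hεt : 1 ≤ ε * t := by
    rw [div_le_iff₀ hε] at ht
    linarith
  have ht12 : 12 ≤ t := by
    by_contra h
    push Not at h
    nlinarith
  set A := R.filter (fun v => (1 / 2 - 3 * ε) * t ≤ (nonNb G R v).card) with hA
  set B := R.filter (fun v => ¬ (1 / 2 - 3 * ε) * t ≤ (nonNb G R v).card) with hB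
  have hAB : (A.card : ℝ) + B.card = t := by
    rw [htdef, hA, hB]
    exact_mod_cast Finset.card_filter_add_card_filter_not (s := R)
      (fun v => (1 / 2 - 3 * ε) * t ≤ (nonNb G R v).card)
  have hsum : (nonEdges G R : ℝ) = ∑ v ∈ A, ((nonNb G R v).card : ℝ) +
      ∑ v ∈ B, ((nonNb G R v).card : ℝ) := by
    rw [nonEdges_eq, hA, hB, Finset.sum_filter_add_sum_filter_not]
  have hs1 : ∑ v ∈ A, ((nonNb G R v).card : ℝ) ≤ A.card * (t - 1) := by
    rw [← nsmul_eq_mul]
    refine Finset.sum_le_card_nsmul _ _ _ ?_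
    intro v hv
    rw [hA, Finset.mem_filter] at hv
    exact nonNb_card_le G R v hv.1
  have hs2 : ∑ v ∈ B, ((nonNb G R v).card : ℝ) ≤ B.card * ((1 / 2 - 3 * ε) * t) := by
    rw [← nsmul_eq_mul]
    refine Finset.sum_le_card_nsmul _ _ _ ?_
    intro v hv
    rw [hB, Finset.mem_filter] at hv
    exact le_of_lt (not_le.mp hv.2)
  by_contra hcon
  push Not at hcon
  have hB' : (B.card : ℝ) ≤ t - A.card := by linarith
  have hq : 0 ≤ (1 / 2 - 3 * ε) * t := by
    apply mul_nonneg _ (by linarith)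
    linarith
  have hB2 : (B.card : ℝ) * ((1 / 2 - 3 * ε) * t) ≤ (t - A.card) * ((1 / 2 - 3 * ε) * t) :=
    mul_le_mul_of_nonneg_right hB' hq
  have hA0 : (0:ℝ) ≤ A.card := by positivity
  have hle : (1 / 2 - ε) * t * (t - 1) ≤ A.card * (t - 1) + (t - A.card) * ((1 / 2 - 3 * ε) * t) := by
    linarith
  -- A.card coefficient: (t-1) - (1/2-3ε) t = (1/2+3ε) t - 1 ≥ 0
  have hcoef : 0 ≤ (1 / 2 + 3 * ε) * t - 1 := by nlinarith
  have hA3 : (A.card : ℝ) * ((1 / 2 + 3 * ε) * t - 1) ≤ ε * t * ((1 / 2 + 3 * ε) * t - 1) :=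
    mul_le_mul_of_nonneg_right hcon.le hcoef
  nlinarith

open Classical in
private theorem cons_count {n : ℕ} (G : SimpleGraph (Fin n)) (k : ℕ) (R A : Finset (Fin n))
    (hAR : A ⊆ R) (c : ℝ) (hc : ∀ v ∈ A, c ≤ ((indepTuples G k (nonNb G R v)).card : ℝ)) :
    (A.card : ℝ) * c ≤ ((indepTuples G (k + 1) R).card : ℝ) := by
  have hinj : ∀ v ∈ A, ∀ f ∈ indepTuples G k (nonNb G R v),
      (Fin.cons v f : Fin (k + 1) → Fin n) ∈ indepTuples G (k + 1) R := by
    intro v hv f hf
    unfold indepTuples at hf ⊢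
    rw [Finset.mem_filter] at hf ⊢
    obtain ⟨-, hf1, hf2⟩ := hf
    have hf3 : ∀ i, f i ∈ R ∧ v ≠ f i ∧ ¬ G.Adj v (f i) := by
      intro i
      have := hf1 i
      unfold nonNb at this
      rw [Finset.mem_filter] at this
      exact ⟨this.1, this.2⟩
    refine ⟨Finset.mem_univ _, ?_, ?_⟩
    · intro i
      refine Fin.cases ?_ (fun i => ?_) i
      · rw [Fin.cons_zero]; exact hAR hv
      · rw [Fin.cons_succ]; exact (hf3 i).1
    · intro i j
      refine Fin.cases ?_ (fun i => ?_) i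
      · refine Fin.cases ?_ (fun j => ?_) j
        · intro h; exact absurd rfl h
        · intro _
          rw [Fin.cons_zero, Fin.cons_succ]
          exact (hf3 j).2
      · refine Fin.cases ?_ (fun j => ?_) j
        · intro _
          rw [Fin.cons_zero, Fin.cons_succ]
          exact ⟨fun h => (hf3 i).2.1 h.symm, fun h => (hf3 i).2.2 h.symm⟩
        · intro h
          rw [Fin.cons_succ, Fin.cons_succ]
          exact hf2 i j (fun h' => h (by rw [h']))
  have h1 : (A.sigma (fun v => indepTuples G k (nonNb G R v))).card ≤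
      (indepTuples G (k + 1) R).card := by
    refine Finset.card_le_card_of_injOn
      (fun p : (_ : Fin n) × (Fin k → Fin n) => (Fin.cons p.1 p.2 : Fin (k + 1) → Fin n)) ?_ ?_
    · intro p hp
      rw [Finset.mem_coe, Finset.mem_sigma] at hp
      exact hinj p.1 hp.1 p.2 hp.2
    · rintro ⟨v, f⟩ _ ⟨w, g⟩ _ h
      simp only at h
      obtain ⟨e1, e2⟩ := Fin.cons_injective2 h
      subst e1
      subst e2
      rfl
  rw [Finset.card_sigma] at h1
  have h2 : (A.card : ℝ) * c ≤ ∑ v ∈ A, ((indepTuples G k (nonNb G R v)).card : ℝ) := by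
    rw [← nsmul_eq_mul]
    exact Finset.card_nsmul_le_sum _ _ _ hc
  refine h2.trans ?_
  exact_mod_cast h1

theorem card_indep_ge {n : ℕ} (G : SimpleGraph (Fin n)) (ε : ℝ) (hε : 0 < ε) (hε1 : ε ≤ 1 / 12)
    (t₀ : ℝ) (ht₀ : 1 / ε ≤ t₀)
    (hdense : ∀ T : Finset (Fin n), t₀ ≤ T.card →
      (1 / 2 - ε) * T.card * (T.card - 1) ≤ (nonEdges G T : ℝ))
    (k : ℕ) (R : Finset (Fin n)) (m : ℝ) (hm : m ≤ R.card)
    (hk : t₀ ≤ (1 / 2 - 3 * ε) ^ k * m) :
    (ε * m) ^ k * (1 / 2 - 3 * ε) ^ (k * (k - 1) / 2) ≤ ((indepTuples G k R).card : ℝ) := by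
  classical
  have hq0 : 0 < 1 / 2 - 3 * ε := by linarith
  have hq1 : 1 / 2 - 3 * ε ≤ 1 := by linarith
  have ht0pos : 0 < t₀ := lt_of_lt_of_le (by positivity) ht₀
  induction k generalizing R m with
  | zero =>
    have : indepTuples G 0 R = {fun i => i.elim0} := by
      ext f
      unfold indepTuples
      rw [Finset.mem_filter, Finset.mem_singleton]
      constructor
      · intro _
        funext i
        exact i.elim0
      · intro _
        exact ⟨Finset.mem_univ _, fun i => i.elim0, fun i => i.elim0⟩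
    rw [this]
    simp
  | succ k ih =>
    have hmpos : 0 < m := by
      by_contra h
      push Not at h
      have : (1 / 2 - 3 * ε) ^ (k + 1) * m ≤ 0 :=
        mul_nonpos_of_nonneg_of_nonpos (by positivity) h
      linarith
    have hmt : t₀ ≤ m := by
      refine hk.trans ?_
      calc (1 / 2 - 3 * ε) ^ (k + 1) * m ≤ 1 * m :=
            mul_le_mul_of_nonneg_right (pow_le_one₀ hq0.le hq1) hmpos.le
        _ = m := one_mul m
    have hRt : t₀ ≤ R.card := hmt.trans hm
    have hgood := many_good G ε hε hε1 R (ht₀.trans hRt) (hdense R hRt)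
    set A := R.filter (fun v => (1 / 2 - 3 * ε) * R.card ≤ (nonNb G R v).card) with hA
    set c : ℝ := (ε * ((1 / 2 - 3 * ε) * m)) ^ k * (1 / 2 - 3 * ε) ^ (k * (k - 1) / 2) with hc
    have hcount := cons_count G k R A (Finset.filter_subset _ _) c (by
      intro v hv
      rw [hA, Finset.mem_filter] at hv
      refine ih (nonNb G R v) ((1 / 2 - 3 * ε) * m) ?_ ?_
      · exact (mul_le_mul_of_nonneg_left hm hq0.le).trans hv.2
      · rw [← mul_assoc, ← pow_succ]
        exact hk)
    refine le_trans ?_ hcount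
    have hc0 : 0 ≤ c := by rw [hc]; positivity
    have hAm : ε * m ≤ A.card := (mul_le_mul_of_nonneg_left hm hε.le).trans hgood
    refine le_trans (le_of_eq ?_) (mul_le_mul_of_nonneg_right hAm hc0)
    have hexp : (k + 1) * (k + 1 - 1) / 2 = k + k * (k - 1) / 2 := by
      rw [Nat.add_sub_cancel]
      rcases k with _ | k
      · rfl
      · have h1 : (k + 1 + 1) * (k + 1) = (k + 1) * (k + 1 - 1) + (k + 1) * 2 := by
          rw [Nat.add_sub_cancel]; ring
        rw [h1, Nat.add_mul_div_right _ _ (by norm_num)]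
        ring
    rw [hexp, pow_add, hc]
    generalize (1 / 2 - 3 * ε) = q
    ring

end Pool.Agent.Lib.MP_23961f_co.AA
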