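import Mathlib

/-!
Almost all graphs: common definitions (helper76).

`SF S p q`: the bipartite graph `S` on `Fin N` and `Fin N` carries no stress with respect to the
vectors `p` (rows) and `q` (columns) of `ℝ^r`.
`Gd N r F`: for every pair `(x,y)` the bipartite graph `F` together with the pair `(x,y)` is
stress-free for a suitable choice of vectors.
`OK3 M x`: each of the eight column types of the three rows `x 0, x 1, x 2` occurs at most `M`
times.
-/

set_option autoImplicit false

namespace Pool.Agent.Lib.MP_23961f_co.AA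

def SF {N r : ℕ} (S : Fin N → Fin N → Prop) (p q : Fin N → Fin r → ℝ) : Prop :=
  ∀ X : Fin N → Fin N → ℝ, (∀ a b, ¬ S a b → X a b = 0) →
    (∀ b k, ∑ a, X a b * p a k = 0) → (∀ a k, ∑ b, X a b * q b k = 0) → ∀ a b, X a b = 0

def Gd (N r : ℕ) (F : Fin N → Fin N → Bool) : Prop :=
  ∀ x y, ∃ p q : Fin N → Fin r → ℝ, SF (fun a b => F a b = true ∨ (a = x ∧ b = y)) p q

def OK3 {N : ℕ} (M : ℕ) (x : Fin 3 → Fin N → Bool) : Prop :=
  ∀ τ : Fin 3 → Bool, (Finset.univ.filter (fun b => ∀ i, x i b = τ i)).card ≤ M

theorem SF.mono {N r : ℕ} {S S' : Fin N → Fin N → Prop} {p q : Fin N → Fin r → ℝ}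
    (h : SF S' p q) (hSS' : ∀ a b, S a b → S' a b) : SF S p q := by
  intro X h1 h2 h3
  exact h X (fun a b hab => h1 a b (fun h' => hab (hSS' a b h'))) h2 h3

/-- Counting does not depend on the chosen decidability and finiteness instances. -/
theorem card_irrel {α : Type*} (F1 F2 : Fintype α) (p1 p2 : α → Prop) (i1 : DecidablePred p1)
    (i2 : DecidablePred p2) (h : ∀ x, p1 x ↔ p2 x) :
    (@Finset.filter α p1 i1 (@Finset.univ α F1)).card =
      (@Finset.filter α p2 i2 (@Finset.univ α F2)).card := by
  have hp : p1 = p2 := funext fun x => propext (h x)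
  subst hp
  have hF : F1 = F2 := Subsingleton.elim _ _
  subst hF
  have hi : i1 = i2 := Subsingleton.elim _ _
  subst hi
  rfl

theorem card_filter_irrel {α : Type*} (s : Finset α) (p : α → Prop) (i1 i2 : DecidablePred p) :
    (@Finset.filter α p i1 s).card = (@Finset.filter α p i2 s).card := by
  have hi : i1 = i2 := Subsingleton.elim _ _
  subst hi
  rfl

theorem card_type_irrel {α : Type*} (F1 F2 : Fintype α) :
    @Fintype.card α F1 = @Fintype.card α F2 := by
  have hF : F1 = F2 := Subsingleton.elim _ _
  subst hF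
  rfl

end Pool.Agent.Lib.MP_23961f_co.AA
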