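import Pool.Agent.Lib.MP_23961f_co.AA.GraphCount

/-!
Module Density. In almost all graphs all sets `T` with `|T|^4 ≥ n` have at least
`(1/2 - ε) |T| (|T|-1)` ordered non-adjacent pairs.

PROOF. For fixed `T`, `t = |T|`: the pairs inside `T` are `J = C(t,2)` coordinates
(`card_graph_comp`), and the number of `ω : J → Bool` with at least `(1/2 + ε) |J|` values `true`
is at most `2^|J| exp (-ε² |J| / 4)` (`chernoff`, `R = Bool`, `τ = {true}`). The number of sets of
size `t` is at most `n^t`, so the proportion of bad graphs is at most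
`∑_{t ≥ n^{1/4}} n^t exp (-ε² t (t-1) / 8) → 0`.
-/

set_option autoImplicit false

namespace Pool.Agent.Lib.MP_23961f_co.AA

open Classical in
/-- Number of ordered pairs of distinct non-adjacent vertices of `T`. -/
noncomputable def nonEdges {n : ℕ} (G : SimpleGraph (Fin n)) (T : Finset (Fin n)) : ℕ :=
  ((T ×ˢ T).filter (fun p => p.1 ≠ p.2 ∧ ¬ G.Adj p.1 p.2)).card

/-- All large sets have non-edge density at least `1/2 - ε`. -/
def Dense (ε : ℝ) {n : ℕ} (G : SimpleGraph (Fin n)) : Prop :=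
  ∀ T : Finset (Fin n), n ≤ T.card ^ 4 →
    (1 / 2 - ε) * T.card * (T.card - 1) ≤ (nonEdges G T : ℝ)

open Classical in
/-- half of the ordered pairs -/
private noncomputable def halfNon {n : ℕ} (G : SimpleGraph (Fin n)) (T : Finset (Fin n)) : ℕ :=
  ((T ×ˢ T).filter (fun p => p.1 < p.2 ∧ ¬ G.Adj p.1 p.2)).card

private lemma nonEdges_eq {n : ℕ} (G : SimpleGraph (Fin n)) (T : Finset (Fin n)) :
    nonEdges G T = 2 * halfNon G T := by
  classical
  have h1 : (T ×ˢ T).filter (fun p => p.1 ≠ p.2 ∧ ¬ G.Adj p.1 p.2) =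
      (T ×ˢ T).filter (fun p => p.1 < p.2 ∧ ¬ G.Adj p.1 p.2) ∪
        (T ×ˢ T).filter (fun p => p.2 < p.1 ∧ ¬ G.Adj p.1 p.2) := by
    ext p
    simp only [Finset.mem_filter, Finset.mem_union]
    constructor
    · rintro ⟨hp, hne, ha⟩
      rcases lt_or_gt_of_ne hne with h | h
      · exact Or.inl ⟨hp, h, ha⟩
      · exact Or.inr ⟨hp, h, ha⟩
    · rintro (⟨hp, h, ha⟩ | ⟨hp, h, ha⟩)
      · exact ⟨hp, h.ne, ha⟩
      · exact ⟨hp, h.ne', ha⟩
  have h2 : Disjoint ((T ×ˢ T).filter (fun p => p.1 < p.2 ∧ ¬ G.Adj p.1 p.2))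
      ((T ×ˢ T).filter (fun p => p.2 < p.1 ∧ ¬ G.Adj p.1 p.2)) := by
    rw [Finset.disjoint_left]
    intro p hp hq
    rw [Finset.mem_filter] at hp hq
    exact lt_asymm hp.2.1 hq.2.1
  have h3 : ((T ×ˢ T).filter (fun p => p.2 < p.1 ∧ ¬ G.Adj p.1 p.2)).card =
      ((T ×ˢ T).filter (fun p => p.1 < p.2 ∧ ¬ G.Adj p.1 p.2)).card := by
    apply Finset.card_equiv (Equiv.prodComm _ _)
    intro p
    simp only [Finset.mem_filter, Finset.mem_product, Equiv.prodComm_apply, Prod.fst_swap,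
      Prod.snd_swap, G.adj_comm p.2 p.1]
    tauto
  unfold nonEdges halfNon
  have h4 : ((T ×ˢ T).filter (fun p => p.1 ≠ p.2 ∧ ¬ G.Adj p.1 p.2)).card =
      2 * ((T ×ˢ T).filter (fun p => p.1 < p.2 ∧ ¬ G.Adj p.1 p.2)).card := by
    rw [h1, Finset.card_union_of_disjoint h2, h3]
    ring
  exact (card_filter_irrel _ _ _ _).trans
    (h4.trans (congrArg (fun z => 2 * z) (card_filter_irrel _ _ _ _)))

open Classical in
private lemma card_bad {n : ℕ} (ε : ℝ) (hε : 0 < ε) (hε1 : ε ≤ 1) (T : Finset (Fin n)) :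
    ((Finset.univ.filter (fun G : SimpleGraph (Fin n) =>
      ¬ (1 / 2 - ε) * T.card * (T.card - 1) ≤ (nonEdges G T : ℝ))).card : ℝ) ≤
      Real.exp (-(ε ^ 2 * (T.card * (T.card - 1)) / 8)) * Fintype.card (SimpleGraph (Fin n)) := by
  let J := {p : Fin n × Fin n // p ∈ T ×ˢ T ∧ p.1 < p.2}
  let φ : J → Sym2 (Fin n) := fun j => s(j.1.1, j.1.2)
  have hφ : Function.Injective φ := by
    rintro ⟨⟨a, b⟩, h1⟩ ⟨⟨c, d⟩, h2⟩ h
    have h3 : s(a, b) = s(c, d) := h
    rw [Sym2.eq_iff] at h3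
    rcases h3 with ⟨rfl, rfl⟩ | ⟨rfl, rfl⟩
    · rfl
    · exact absurd h1.2 (lt_asymm h2.2)
  have hd : ∀ j, ¬ (φ j).IsDiag := by
    rintro ⟨⟨a, b⟩, h1⟩ h
    exact h1.2.ne (Sym2.mk_isDiag_iff.mp h)
  have hhalf : ∀ G : SimpleGraph (Fin n), halfNon G T =
      (Finset.univ.filter (fun j : J => ¬ φ j ∈ G.edgeSet)).card := by
    intro G
    unfold halfNon
    symm
    apply Finset.card_bij (fun (j : J) _ => j.1)
    · rintro ⟨⟨a, b⟩, h1⟩ hj
      rw [Finset.mem_filter] at hj ⊢
      exact ⟨h1.1, h1.2, hj.2⟩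
    · intro i _ j _ h
      exact Subtype.ext h
    · rintro p hp
      rw [Finset.mem_filter] at hp
      exact ⟨⟨p, hp.1, hp.2.1⟩, Finset.mem_filter.mpr ⟨Finset.mem_univ _, hp.2.2⟩, rfl⟩
  -- the number of coordinates
  have hJ : 2 * (Fintype.card J : ℝ) = T.card * (T.card - 1) := by
    have h1 := nonEdges_eq (⊥ : SimpleGraph (Fin n)) T
    have hgen : ∀ G : SimpleGraph (Fin n), (∀ j : J, ¬ φ j ∈ G.edgeSet) →
        halfNon G T = Fintype.card J := by
      intro G hG
      rw [hhalf, Finset.filter_true_of_mem (fun j _ => hG j), Finset.card_univ]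
    have h2 : halfNon (⊥ : SimpleGraph (Fin n)) T = Fintype.card J := by
      apply hgen
      intro j
      rw [SimpleGraph.edgeSet_bot]
      exact Set.notMem_empty _
    have h3 : nonEdges (⊥ : SimpleGraph (Fin n)) T = T.card * T.card - T.card := by
      unfold nonEdges
      rw [← Finset.offDiag_card]
      congr 1
      ext p
      simp only [Finset.mem_filter, Finset.mem_product, Finset.mem_offDiag, SimpleGraph.bot_adj,
        not_false_eq_true, and_true]
      tauto
    rw [h2, h3] at h1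
    have h4 : T.card ≤ T.card * T.card := Nat.le_mul_self _
    have h5 : ((T.card * T.card - T.card : ℕ) : ℝ) = 2 * (Fintype.card J : ℝ) := by
      rw [h1]
      push_cast
      ring
    rw [Nat.cast_sub h4] at h5
    rw [← h5]
    push_cast
    ring
  -- the event
  let P : (J → Bool) → Prop := fun ω => (1 / 2 + ε) * (Fintype.card J : ℝ) ≤
    ((Finset.univ.filter (fun j => ω j ∈ ({true} : Finset Bool))).card : ℝ)
  have h1 : (Finset.univ.filter (fun G : SimpleGraph (Fin n) =>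
      ¬ (1 / 2 - ε) * T.card * (T.card - 1) ≤ (nonEdges G T : ℝ))) ⊆
      (Finset.univ.filter (fun G : SimpleGraph (Fin n) =>
        P (fun j => decide (φ j ∈ G.edgeSet)))) := by
    intro G hG
    rw [Finset.mem_filter] at hG ⊢
    refine ⟨Finset.mem_univ _, ?_⟩
    have h2 := hG.2
    rw [not_le, nonEdges_eq, hhalf] at h2
    have h3 : (Finset.univ.filter (fun j : J => φ j ∈ G.edgeSet)).card +
        (Finset.univ.filter (fun j : J => ¬ φ j ∈ G.edgeSet)).card = Fintype.card J := by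
      rw [Finset.card_filter_add_card_filter_not, Finset.card_univ]
    have h4 : (Finset.univ.filter (fun j : J => decide (φ j ∈ G.edgeSet) ∈
        ({true} : Finset Bool))) = (Finset.univ.filter (fun j : J => φ j ∈ G.edgeSet)) := by
      apply Finset.filter_congr
      intro j _
      rw [Finset.mem_singleton, decide_eq_true_iff]
    change (1 / 2 + ε) * (Fintype.card J : ℝ) ≤ _
    have h5 : ((Finset.univ.filter (fun j : J => φ j ∈ G.edgeSet)).card : ℝ) +
        ((Finset.univ.filter (fun j : J => ¬ φ j ∈ G.edgeSet)).card : ℝ) = Fintype.card J := by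
      exact_mod_cast h3
    have h6 : (1 / 2 + ε) * (Fintype.card J : ℝ) ≤
        ((Finset.univ.filter (fun j : J => φ j ∈ G.edgeSet)).card : ℝ) := by
      push_cast at h2
      rw [mul_assoc, ← hJ] at h2
      linarith
    refine h6.trans (le_of_eq ?_)
    congr 2
    rw [← h4]
  have h2 := card_graph_comp φ hφ hd P
  have h3 := chernoff (I := J) (R := Bool) {true} ε hε.le hε1
  have h4 : ((Finset.univ.filter P).card : ℝ) ≤
      2 ^ Fintype.card J * Real.exp (-(ε ^ 2 * Fintype.card J / 4)) := by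
    have e1 : (((({true} : Finset Bool).card : ℝ)) / Fintype.card Bool + ε) = 1 / 2 + ε := by
      rw [Finset.card_singleton, Fintype.card_bool]
      norm_num
    rw [e1, Fintype.card_bool] at h3
    push_cast at h3
    refine le_trans (le_of_eq ?_) h3
    exact congrArg _ (card_irrel _ _ _ _ _ _ (fun x => iff_of_eq
      (congrArg (fun z : ℕ => (1 / 2 + ε) * (Fintype.card J : ℝ) ≤ (z : ℝ))
        (card_irrel _ _ _ _ _ _ (fun y => Iff.rfl)))))
  have h5 : (0 : ℝ) < 2 ^ Fintype.card J := by positivity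
  have h6 : (((Finset.univ.filter (fun G : SimpleGraph (Fin n) =>
        P (fun j => decide (φ j ∈ G.edgeSet)))).card : ℝ)) * 2 ^ Fintype.card J ≤
      (Real.exp (-(ε ^ 2 * Fintype.card J / 4)) * Fintype.card (SimpleGraph (Fin n))) *
        2 ^ Fintype.card J := by
    calc (((Finset.univ.filter (fun G : SimpleGraph (Fin n) =>
        P (fun j => decide (φ j ∈ G.edgeSet)))).card : ℝ)) * 2 ^ Fintype.card J
        = ((Finset.univ.filter P).card : ℝ) * Fintype.card (SimpleGraph (Fin n)) := by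
          have h2' : (Finset.univ.filter (fun G : SimpleGraph (Fin n) =>
              P (fun j => decide (φ j ∈ G.edgeSet)))).card * 2 ^ Fintype.card J =
              (Finset.univ.filter P).card * Fintype.card (SimpleGraph (Fin n)) := by
            rw [h2]
            refine congrArg₂ (fun z w => z * w) ?_ ?_
            · exact card_irrel _ _ _ _ _ _ (fun x => Iff.rfl)
            · exact card_type_irrel _ _
          exact_mod_cast h2'
      _ ≤ (2 ^ Fintype.card J * Real.exp (-(ε ^ 2 * Fintype.card J / 4))) *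
          Fintype.card (SimpleGraph (Fin n)) :=
          mul_le_mul_of_nonneg_right h4 (Nat.cast_nonneg _)
      _ = _ := by ring
  have h7 := le_of_mul_le_mul_right h6 h5
  have h8 : ε ^ 2 * (Fintype.card J : ℝ) / 4 = ε ^ 2 * (T.card * (T.card - 1)) / 8 := by
    rw [← hJ]
    ring
  rw [h8] at h7
  exact (Nat.cast_le.mpr (Finset.card_le_card h1)).trans h7

private lemma exists_thr (ε : ℝ) (hε : 0 < ε) :
    ∃ t₀ : ℕ, ∀ t : ℕ, t₀ ≤ t → (t : ℝ) ^ 4 * Real.exp (-(ε ^ 2 * (t - 1) / 8)) ≤ 1 / 2 := by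
  have hc : 0 < ε ^ 2 / 8 := by positivity
  have h1 : Filter.Tendsto (fun x : ℝ => x ^ 4 * Real.exp (-(ε ^ 2 / 8) * x)) Filter.atTop
      (nhds 0) := by
    have := Real.tendsto_pow_mul_exp_neg_atTop_nhds_zero 4
    have h2 : Filter.Tendsto (fun x : ℝ => ε ^ 2 / 8 * x) Filter.atTop Filter.atTop :=
      Filter.tendsto_id.const_mul_atTop hc
    have h3 := (this.comp h2).const_mul ((ε ^ 2 / 8) ^ 4)⁻¹
    rw [mul_zero] at h3
    refine h3.congr (fun x => ?_)
    simp only [Function.comp]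
    rw [mul_pow, neg_mul]
    field_simp
  have h4 : Filter.Tendsto (fun t : ℕ => Real.exp (ε ^ 2 / 8) *
      ((t : ℝ) ^ 4 * Real.exp (-(ε ^ 2 / 8) * t))) Filter.atTop (nhds 0) := by
    have h5 := (h1.comp tendsto_natCast_atTop_atTop).const_mul (Real.exp (ε ^ 2 / 8))
    rw [mul_zero] at h5
    exact h5
  have h6 := h4.eventually (gt_mem_nhds (show (0 : ℝ) < 1 / 2 by norm_num))
  rw [Filter.eventually_atTop] at h6
  obtain ⟨t₀, ht₀⟩ := h6
  refine ⟨t₀, fun t ht => ?_⟩
  have h7 := ht₀ t ht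
  refine le_trans (le_of_eq ?_) h7.le
  rw [mul_left_comm, ← Real.exp_add]
  congr 2
  ring

open Classical in
theorem card_not_dense (ε δ : ℝ) (hε : 0 < ε) (hε1 : ε ≤ 1) (hδ : 0 < δ) :
    ∃ n₀ : ℕ, ∀ n : ℕ, n₀ ≤ n →
      ((Finset.univ.filter (fun G : SimpleGraph (Fin n) => ¬ Dense ε G)).card : ℝ) ≤
        δ * Fintype.card (SimpleGraph (Fin n)) := by
  obtain ⟨t₀, ht₀⟩ := exists_thr ε hε
  obtain ⟨m, hm⟩ := exists_pow_lt_of_lt_one (show 0 < δ / 3 by positivity)
    (show (1 / 2 : ℝ) < 1 by norm_num)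
  set K := max (max t₀ m) 1 with hK
  refine ⟨K ^ 4, fun n hn => ?_⟩
  have hK1 : 1 ≤ K := le_max_right _ _
  have hn0 : 0 < n := lt_of_lt_of_le (by positivity) hn
  have hnR : (0 : ℝ) < n := by exact_mod_cast hn0
  let 𝒯 : Finset (Finset (Fin n)) := Finset.univ.filter (fun T => n ≤ T.card ^ 4)
  have h1 : (Finset.univ.filter (fun G : SimpleGraph (Fin n) => ¬ Dense ε G)) ⊆
      𝒯.biUnion (fun T => Finset.univ.filter (fun G : SimpleGraph (Fin n) =>
        ¬ (1 / 2 - ε) * T.card * (T.card - 1) ≤ (nonEdges G T : ℝ))) := by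
    intro G hG
    rw [Finset.mem_filter] at hG
    have h2 := hG.2
    unfold Dense at h2
    push Not at h2
    obtain ⟨T, hT, hlt⟩ := h2
    rw [Finset.mem_biUnion]
    refine ⟨T, Finset.mem_filter.mpr ⟨Finset.mem_univ _, hT⟩, ?_⟩
    rw [Finset.mem_filter, not_le]
    exact ⟨Finset.mem_univ _, hlt⟩
  have h2 : ((Finset.univ.filter (fun G : SimpleGraph (Fin n) => ¬ Dense ε G)).card : ℝ) ≤
      ∑ T ∈ 𝒯, ((Finset.univ.filter (fun G : SimpleGraph (Fin n) =>
        ¬ (1 / 2 - ε) * T.card * (T.card - 1) ≤ (nonEdges G T : ℝ))).card : ℝ) := by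
    exact_mod_cast (Finset.card_le_card h1).trans Finset.card_biUnion_le
  have hC : (0 : ℝ) ≤ Fintype.card (SimpleGraph (Fin n)) := Nat.cast_nonneg _
  have h3 : ∀ T ∈ 𝒯, ((Finset.univ.filter (fun G : SimpleGraph (Fin n) =>
        ¬ (1 / 2 - ε) * T.card * (T.card - 1) ≤ (nonEdges G T : ℝ))).card : ℝ) ≤
      ((1 / 2) ^ m * ((1 / n : ℝ)) ^ T.card) * Fintype.card (SimpleGraph (Fin n)) := by
    intro T hT
    refine (card_bad ε hε hε1 T).trans ?_
    apply mul_le_mul_of_nonneg_right _ hC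
    have hT2 : n ≤ T.card ^ 4 := (Finset.mem_filter.mp hT).2
    have hTK : K ≤ T.card := by
      by_contra hcon
      rw [not_le] at hcon
      have := Nat.pow_lt_pow_left hcon (show (4 : ℕ) ≠ 0 by norm_num)
      omega
    have hTt : t₀ ≤ T.card := ((le_max_left _ _).trans (le_max_left _ _)).trans hTK
    have hTm : m ≤ T.card := ((le_max_right _ _).trans (le_max_left _ _)).trans hTK
    have h4 := ht₀ T.card hTt
    have h5 : (n : ℝ) * Real.exp (-(ε ^ 2 * (T.card - 1) / 8)) ≤ 1 / 2 := by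
      refine le_trans (mul_le_mul_of_nonneg_right ?_ (Real.exp_pos _).le) h4
      exact_mod_cast hT2
    have h6 : Real.exp (-(ε ^ 2 * (T.card - 1) / 8)) ≤ 1 / 2 * (1 / n) := by
      rw [mul_one_div, le_div_iff₀ hnR, mul_comm]
      exact h5
    have h7 : Real.exp (-(ε ^ 2 * (T.card * (T.card - 1)) / 8)) =
        Real.exp (-(ε ^ 2 * (T.card - 1) / 8)) ^ T.card := by
      rw [← Real.exp_nat_mul]
      congr 1
      ring
    rw [h7]
    refine (pow_le_pow_left₀ (Real.exp_pos _).le h6 _).trans ?_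
    rw [mul_pow]
    apply mul_le_mul_of_nonneg_right _ (by positivity)
    exact pow_le_pow_of_le_one (by norm_num) (by norm_num) hTm
  refine h2.trans ((Finset.sum_le_sum h3).trans ?_)
  rw [← Finset.sum_mul, ← Finset.mul_sum]
  apply mul_le_mul_of_nonneg_right _ hC
  have h4 : ∑ T ∈ 𝒯, ((1 / n : ℝ)) ^ T.card ≤ 3 := by
    have h5 : ∑ T ∈ 𝒯, ((1 / n : ℝ)) ^ T.card ≤
        ∑ T ∈ (Finset.univ : Finset (Fin n)).powerset, ((1 / n : ℝ)) ^ T.card := by
      apply Finset.sum_le_sum_of_subset_of_nonneg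
      · intro T _
        exact Finset.mem_powerset.mpr (Finset.subset_univ _)
      · intro T _ _
        positivity
    have h6 : ∑ T ∈ (Finset.univ : Finset (Fin n)).powerset, ((1 / n : ℝ)) ^ T.card =
        (1 / n + 1) ^ n := by
      have h7 := Finset.sum_pow_mul_eq_add_pow (1 / n : ℝ) 1 (Finset.univ : Finset (Fin n))
      rw [Finset.card_univ, Fintype.card_fin] at h7
      rw [← h7]
      apply Finset.sum_congr rfl
      intro T _
      rw [one_pow, mul_one]
    rw [h6] at h5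
    refine h5.trans ?_
    have h8 : (1 / n + 1 : ℝ) ≤ Real.exp (1 / n) := Real.add_one_le_exp _
    refine (pow_le_pow_left₀ (by positivity) h8 n).trans ?_
    rw [← Real.exp_nat_mul, mul_one_div, div_self hnR.ne']
    have := Real.exp_one_lt_d9
    linarith
  calc (1 / 2 : ℝ) ^ m * ∑ T ∈ 𝒯, ((1 / n : ℝ)) ^ T.card ≤ (δ / 3) * 3 := by
        apply mul_le_mul hm.le h4 (Finset.sum_nonneg (fun T _ => by positivity)) (by positivity)
    _ = δ := by ring

end Pool.Agent.Lib.MP_23961f_co.AA
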