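import Pool.Agent.Lib.MP_23961f_co.AA.Cliques

/-!
Module Greedy. Choice of disjoint, pairwise good blocks (deterministic).

PROOF. `C` a finite set of injective maps (blocks), `bad` a relation. Call `f ∈ C` light if at
most `X / (2 n)` many `g ∈ C` with range disjoint from that of `f` satisfy `bad f g`. The number of
non-light `f` is at most `(X²/(4n)) / (X/(2n)) = X/2` (strictly less, by `hZ`). Build the list
`α 0, α 1, ..` of light blocks with pairwise disjoint ranges and `¬ bad (α i) (α j)` for `i < j`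
as long as the uncovered set `R` has `|R| ≥ η n` (at most `n` steps since `N > 0`): the number of
blocks inside `R` is `≥ X`, the non-light ones are `< X/2`, those bad for one of the `≤ n` chosen
ones are `≤ n * X/(2n) = X/2`, so there is a new one. Formally: induction on the number of
uncovered vertices, or take a maximal `m ≤ n` for which such a family exists.
-/

set_option autoImplicit false

namespace Pool.Agent.Lib.MP_23961f_co.AA

open Classical in
private theorem greedy_nonlight {n N : ℕ} (hn : 0 < n) (C : Finset (Fin N → Fin n))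
    (bad : (Fin N → Fin n) → (Fin N → Fin n) → Prop) (X : ℝ) (hX0 : 0 < X)
    (hZ : (((C ×ˢ C).filter (fun p => (∀ a b, p.1 a ≠ p.2 b) ∧ bad p.1 p.2)).card : ℝ) <
      X ^ 2 / (4 * n)) :
    ((C.filter (fun f => ¬ ((C.filter (fun g => (∀ a b, f a ≠ g b) ∧ bad f g)).card : ℝ) ≤
      X / (2 * n))).card : ℝ) < X / 2 := by
  have hnR : (0:ℝ) < n := by exact_mod_cast hn
  have hsum : (((C ×ˢ C).filter (fun p => (∀ a b, p.1 a ≠ p.2 b) ∧ bad p.1 p.2)).card : ℝ)
      = ∑ f ∈ C, ((C.filter (fun g => (∀ a b, f a ≠ g b) ∧ bad f g)).card : ℝ) := by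
    simp only [Finset.card_filter, Finset.sum_product]
    push_cast
    rfl
  rw [hsum] at hZ
  set S := C.filter (fun f => ¬ ((C.filter (fun g => (∀ a b, f a ≠ g b) ∧ bad f g)).card : ℝ) ≤
      X / (2 * n)) with hS
  have h1 : (S.card : ℝ) * (X / (2 * n)) ≤
      ∑ f ∈ S, ((C.filter (fun g => (∀ a b, f a ≠ g b) ∧ bad f g)).card : ℝ) := by
    rw [← nsmul_eq_mul]
    refine Finset.card_nsmul_le_sum _ _ _ ?_
    intro f hf
    rw [hS, Finset.mem_filter] at hf
    exact le_of_lt (not_le.mp hf.2)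
  have h2 : ∑ f ∈ S, ((C.filter (fun g => (∀ a b, f a ≠ g b) ∧ bad f g)).card : ℝ) ≤
      ∑ f ∈ C, ((C.filter (fun g => (∀ a b, f a ≠ g b) ∧ bad f g)).card : ℝ) := by
    refine Finset.sum_le_sum_of_subset_of_nonneg (Finset.filter_subset _ _) ?_
    intro i _ _
    positivity
  have h3 : (S.card : ℝ) * (X / (2 * n)) < X ^ 2 / (4 * n) := by linarith
  have hpos : 0 < X / (2 * n) := by positivity
  have h4 : X ^ 2 / (4 * n) = (X / 2) * (X / (2 * n)) := by
    field_simp
    ring
  rw [h4] at h3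
  exact lt_of_mul_lt_mul_right h3 hpos.le

open Classical in
private theorem greedy_step {n N m : ℕ} (hn : 0 < n) (C : Finset (Fin N → Fin n))
    (bad : (Fin N → Fin n) → (Fin N → Fin n) → Prop) (X : ℝ) (hX0 : 0 < X)
    (hnl : ((C.filter (fun f => ¬ ((C.filter (fun g => (∀ a b, f a ≠ g b) ∧ bad f g)).card : ℝ) ≤
      X / (2 * n))).card : ℝ) < X / 2)
    (R : Finset (Fin n)) (hR : X ≤ ((C.filter (fun f => ∀ i, f i ∈ R)).card : ℝ))
    (α : Fin m → Fin N → Fin n) (hm : m ≤ n)
    (hl : ∀ i, ((C.filter (fun g => (∀ a b, α i a ≠ g b) ∧ bad (α i) g)).card : ℝ) ≤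
      X / (2 * n)) (hd : ∀ i a, α i a ∉ R) :
    ∃ g ∈ C, (∀ i, g i ∈ R) ∧
      ((C.filter (fun h => (∀ a b, g a ≠ h b) ∧ bad g h)).card : ℝ) ≤ X / (2 * n) ∧
      ∀ i, ¬ bad (α i) g := by
  have hnR : (0:ℝ) < n := by exact_mod_cast hn
  by_contra hcon
  push Not at hcon
  set S := C.filter (fun f => ¬ ((C.filter (fun g => (∀ a b, f a ≠ g b) ∧ bad f g)).card : ℝ) ≤
      X / (2 * n)) with hS
  have hsub : C.filter (fun f => ∀ i, f i ∈ R) ⊆ S ∪
      (Finset.univ : Finset (Fin m)).biUnion
        (fun i => C.filter (fun g => (∀ a b, α i a ≠ g b) ∧ bad (α i) g)) := by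
    intro g hg
    rw [Finset.mem_filter] at hg
    rw [Finset.mem_union]
    by_cases hlg : ((C.filter (fun h => (∀ a b, g a ≠ h b) ∧ bad g h)).card : ℝ) ≤ X / (2 * n)
    · right
      obtain ⟨i, hi⟩ := hcon g hg.1 hg.2 hlg
      rw [Finset.mem_biUnion]
      refine ⟨i, Finset.mem_univ _, ?_⟩
      rw [Finset.mem_filter]
      refine ⟨hg.1, ?_, hi⟩
      intro a b hab
      exact hd i a (hab ▸ hg.2 b)
    · left
      rw [hS, Finset.mem_filter]
      exact ⟨hg.1, hlg⟩
  have hc1 : ((C.filter (fun f => ∀ i, f i ∈ R)).card : ℝ) ≤ (S.card : ℝ) +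
      (((Finset.univ : Finset (Fin m)).biUnion
        (fun i => C.filter (fun g => (∀ a b, α i a ≠ g b) ∧ bad (α i) g))).card : ℝ) := by
    exact_mod_cast (Finset.card_le_card hsub).trans (Finset.card_union_le _ _)
  have hc2 : (((Finset.univ : Finset (Fin m)).biUnion
        (fun i => C.filter (fun g => (∀ a b, α i a ≠ g b) ∧ bad (α i) g))).card : ℝ) ≤
      ∑ i : Fin m, ((C.filter (fun g => (∀ a b, α i a ≠ g b) ∧ bad (α i) g)).card : ℝ) := by
    exact_mod_cast Finset.card_biUnion_le
  have hc3 : ∑ i : Fin m, ((C.filter (fun g => (∀ a b, α i a ≠ g b) ∧ bad (α i) g)).card : ℝ) ≤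
      ∑ _i : Fin m, X / (2 * n) := Finset.sum_le_sum (fun i _ => hl i)
  rw [Finset.sum_const, Finset.card_univ, Fintype.card_fin, nsmul_eq_mul] at hc3
  have hmn : (m : ℝ) ≤ n := by exact_mod_cast hm
  have hc4 : (m : ℝ) * (X / (2 * n)) ≤ X / 2 := by
    have hpos : 0 ≤ X / (2 * n) := by positivity
    calc (m : ℝ) * (X / (2 * n)) ≤ n * (X / (2 * n)) := mul_le_mul_of_nonneg_right hmn hpos
      _ = X / 2 := by field_simp
  linarith

open Classical in
private theorem greedy_card {n N m : ℕ} (α : Fin m → Fin N → Fin n)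
    (hinj : ∀ i j a b, α i a = α j b → i = j ∧ a = b) :
    (Finset.univ.image (fun p : Fin m × Fin N => α p.1 p.2)).card = m * N := by
  rw [Finset.card_image_of_injective, Finset.card_univ, Fintype.card_prod, Fintype.card_fin,
    Fintype.card_fin]
  rintro ⟨i, a⟩ ⟨j, b⟩ h
  obtain ⟨h1, h2⟩ := hinj i j a b h
  rw [h1, h2]

open Classical in
theorem exists_blocks {n N : ℕ} (hN : 0 < N) (hn : 0 < n) (C : Finset (Fin N → Fin n))
    (hC : ∀ f ∈ C, Function.Injective f) (bad : (Fin N → Fin n) → (Fin N → Fin n) → Prop)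
    (X η : ℝ) (hX0 : 0 < X)
    (hX : ∀ R : Finset (Fin n), η * n ≤ R.card →
      X ≤ ((C.filter (fun f => ∀ i, f i ∈ R)).card : ℝ))
    (hZ : (((C ×ˢ C).filter (fun p => (∀ a b, p.1 a ≠ p.2 b) ∧ bad p.1 p.2)).card : ℝ) <
      X ^ 2 / (4 * n)) :
    ∃ m : ℕ, ∃ α : Fin m → Fin N → Fin n, (∀ i, α i ∈ C) ∧
      (∀ i j a b, α i a = α j b → i = j ∧ a = b) ∧
      (∀ i j, i < j → ¬ bad (α i) (α j)) ∧ (n : ℝ) - m * N ≤ η * n := by
  have hnl := greedy_nonlight hn C bad X hX0 hZ
  by_contra hcon
  have hle : ∀ (m : ℕ) (α : Fin m → Fin N → Fin n),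
      (∀ i j a b, α i a = α j b → i = j ∧ a = b) → m * N ≤ n := by
    intro m α hα
    have h := greedy_card α hα
    have h2 := Finset.card_le_univ (Finset.univ.image (fun p : Fin m × Fin N => α p.1 p.2))
    rw [h, Fintype.card_fin] at h2
    exact h2
  have key : ∀ m : ℕ, ∃ α : Fin m → Fin N → Fin n, (∀ i, α i ∈ C) ∧
      (∀ i j a b, α i a = α j b → i = j ∧ a = b) ∧
      (∀ i j, i < j → ¬ bad (α i) (α j)) ∧
      (∀ i, ((C.filter (fun g => (∀ a b, α i a ≠ g b) ∧ bad (α i) g)).card : ℝ) ≤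
        X / (2 * n)) := by
    intro m
    induction m with
    | zero =>
      exact ⟨fun i => i.elim0, fun i => i.elim0, fun i => i.elim0, fun i => i.elim0,
        fun i => i.elim0⟩
    | succ m ih =>
      obtain ⟨α, h1, h2, h3, h4⟩ := ih
      have hmN := hle m α h2
      have hmn : m ≤ n := le_trans (Nat.le_mul_of_pos_right m hN) hmN
      set R : Finset (Fin n) := (Finset.univ.image (fun p : Fin m × Fin N => α p.1 p.2))ᶜ with hR
      have hRc : (R.card : ℝ) = (n : ℝ) - m * N := by
        rw [hR, Finset.card_compl, greedy_card α h2, Fintype.card_fin, Nat.cast_sub hmN]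
        push_cast
        ring
      have hbig : η * n ≤ R.card := by
        rw [hRc]
        by_contra hlt
        exact hcon ⟨m, α, h1, h2, h3, le_of_lt (not_le.mp hlt)⟩
      have hd : ∀ i a, α i a ∉ R := by
        intro i a
        rw [hR, Finset.mem_compl, not_not, Finset.mem_image]
        exact ⟨(i, a), Finset.mem_univ _, rfl⟩
      obtain ⟨g, hg, hgR, hgl, hgb⟩ := greedy_step hn C bad X hX0 hnl R (hX R hbig) α hmn h4 hd
      refine ⟨Fin.snoc α g, ?_, ?_, ?_, ?_⟩
      · intro i
        refine Fin.lastCases ?_ (fun i => ?_) i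
        · rw [Fin.snoc_last]; exact hg
        · rw [Fin.snoc_castSucc]; exact h1 i
      · intro i j a b
        refine Fin.lastCases ?_ (fun i => ?_) i
        · refine Fin.lastCases ?_ (fun j => ?_) j
          · intro h
            rw [Fin.snoc_last] at h
            exact ⟨rfl, hC g hg h⟩
          · intro h
            rw [Fin.snoc_last, Fin.snoc_castSucc] at h
            exact absurd (h ▸ hgR a) (hd j b)
        · refine Fin.lastCases ?_ (fun j => ?_) j
          · intro h
            rw [Fin.snoc_last, Fin.snoc_castSucc] at h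
            exact absurd (h ▸ hgR b) (hd i a)
          · intro h
            rw [Fin.snoc_castSucc, Fin.snoc_castSucc] at h
            obtain ⟨e1, e2⟩ := h2 i j a b h
            exact ⟨by rw [e1], e2⟩
      · intro i j
        refine Fin.lastCases ?_ (fun i => ?_) i
        · intro h
          exact absurd h (not_lt.mpr (Fin.le_last j))
        · refine Fin.lastCases ?_ (fun j => ?_) j
          · intro _
            rw [Fin.snoc_last, Fin.snoc_castSucc]
            exact hgb i
          · intro h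
            rw [Fin.snoc_castSucc, Fin.snoc_castSucc]
            exact h3 i j (by simpa using h)
      · intro i
        refine Fin.lastCases ?_ (fun i => ?_) i
        · rw [Fin.snoc_last]; exact hgl
        · rw [Fin.snoc_castSucc]; exact h4 i
  obtain ⟨α, -, h2, -, -⟩ := key (n + 1)
  have h := hle (n + 1) α h2
  have h' : n + 1 ≤ (n + 1) * N := Nat.le_mul_of_pos_right _ hN
  omega

end Pool.Agent.Lib.MP_23961f_co.AA
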