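import Pool.Agent.Lib.MP_23961f_co.AA.Blocks
import Pool.Agent.Lib.MP_23961f_co.AA.BadPair
import Pool.Agent.Lib.MP_23961f_co.AA.Greedy

/-!
Module Final. One-sided theorem: for almost all graphs `G` the complement of `G` has a positive
semidefinite matrix with the Strong Arnold Property of rank at most `(1/3 + ε) n`.

PROOF. W.l.o.g. `ε ≤ 1`. `c, N₀` from `card_not_gd (ε/4)`; `ε₁ = min (1/24) (c/64)`,
`η = ε/4`; `N` = the largest number with `4^(2N) ≤ n` (so `n < 4^(2N+2)`, `N → ∞`),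
`r = ⌈(1/3 + ε/4) N⌉`. `q = 1/2 - 3 ε₁ ≥ 1/4`, `q^N η n ≥ η n / 4^N ≥ η √n ≥ n^{1/4} =: t₀ ≥ 1/ε₁`.
`X = (ε₁ η n)^N q^(N(N-1)/2)`. Let `bad α β := ¬ Gd N r (fun a b => decide (G.Adj (α a) (β b)))` and
`Z(G)` = number of pairs of disjoint independent injective `α, β` with `bad α β`.
`card_pair_event` and `card_not_gd` give
`∑_G Z(G) ≤ n^(2N) 2^(-N(N-1)) exp (-c N²) |graphs|`, so by Markov the proportion of the graphs
with `Z(G) ≥ X²/(4n)` is at most
`4 n (ε₁ η)^(-2N) (1 - 6 ε₁)^(-N(N-1)) exp (-c N²) ≤ exp (O(N) + 12 ε₁ N² - c N²) → 0`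
(`1 - 6 ε₁ ≥ exp (-12 ε₁)`, `12 ε₁ ≤ c/4`). For all other graphs which are also `Dense ε₁`,
`card_indep_ge` + `exists_blocks` + `matrix_of_blocks` give the matrix of rank at most
`m r + (n - m N) ≤ n (1/3 + ε/4) + m + η n ≤ (1/3 + ε) n` for large `n` (`m ≤ n/N`).
-/

set_option autoImplicit false

namespace Pool.Agent.Lib.MP_23961f_co.AA

open Classical in
/-- Number of ordered pairs of disjoint independent blocks of `G` with a bad bipartite graph. -/
noncomputable def Zc {n : ℕ} (N r : ℕ) (G : SimpleGraph (Fin n)) : ℕ :=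
  ((indepTuples G N Finset.univ ×ˢ indepTuples G N Finset.univ).filter
    (fun p => (∀ a b, p.1 a ≠ p.2 b) ∧
      ¬ Gd N r (fun a b => decide (G.Adj (p.1 a) (p.2 b))))).card

open Classical in
theorem sum_Zc_le {n N r : ℕ} (β : ℝ) 
    (hβ : ((Finset.univ.filter (fun F : Fin N → Fin N → Bool => ¬ Gd N r F)).card : ℝ) ≤
      2 ^ (N * N) * β) :
    (∑ G : SimpleGraph (Fin n), (Zc N r G : ℝ)) ≤
      (n : ℝ) ^ (2 * N) * (β / 2 ^ (N * (N - 1))) * Fintype.card (SimpleGraph (Fin n)) := by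
  have hβ0 : 0 ≤ β := by
    have h1 : (0 : ℝ) ≤ 2 ^ (N * N) * β := le_trans (Nat.cast_nonneg _) hβ
    have h2 : (0 : ℝ) < 2 ^ (N * N) := by positivity
    exact nonneg_of_mul_nonneg_right h1 h2
  let rel : SimpleGraph (Fin n) → (Fin N → Fin n) × (Fin N → Fin n) → Prop := fun G p =>
    p ∈ (indepTuples G N Finset.univ ×ˢ indepTuples G N Finset.univ) ∧
      ((∀ a b, p.1 a ≠ p.2 b) ∧ ¬ Gd N r (fun a b => decide (G.Adj (p.1 a) (p.2 b))))
  have hZ : ∀ G : SimpleGraph (Fin n), Zc N r G =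
      (Finset.univ.filter (fun p => rel G p)).card := by
    intro G
    unfold Zc
    congr 1
    ext p
    simp only [Finset.mem_filter, Finset.mem_univ, true_and, rel]
  have hswap : (∑ G : SimpleGraph (Fin n), (Zc N r G : ℝ)) =
      ∑ p : (Fin N → Fin n) × (Fin N → Fin n),
        ((Finset.univ.filter (fun G : SimpleGraph (Fin n) => rel G p)).card : ℝ) := by
    have : (∑ G : SimpleGraph (Fin n), Zc N r G) =
      ∑ p : (Fin N → Fin n) × (Fin N → Fin n),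
        (Finset.univ.filter (fun G : SimpleGraph (Fin n) => rel G p)).card := by
      simp_rw [hZ]
      exact Finset.sum_card_bipartiteAbove_eq_sum_card_bipartiteBelow rel
    exact_mod_cast this
  rw [hswap]
  have hone : ∀ p : (Fin N → Fin n) × (Fin N → Fin n),
      ((Finset.univ.filter (fun G : SimpleGraph (Fin n) => rel G p)).card : ℝ) ≤
        (β / 2 ^ (N * (N - 1))) * Fintype.card (SimpleGraph (Fin n)) := by
    intro p
    by_cases hp : (Function.Injective p.1 ∧ Function.Injective p.2) ∧ ∀ a b, p.1 a ≠ p.2 b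
    · obtain ⟨⟨hp1, hp2⟩, hp3⟩ := hp
      have h := card_pair_event p.1 p.2 hp1 hp2 hp3 (fun F => ¬ Gd N r F)
      have hle : (Finset.univ.filter (fun G : SimpleGraph (Fin n) => rel G p)).card ≤
          (Finset.univ.filter (fun G : SimpleGraph (Fin n) =>
        (∀ a b, ¬ G.Adj (p.1 a) (p.1 b)) ∧ (∀ a b, ¬ G.Adj (p.2 a) (p.2 b)) ∧
          ¬ Gd N r (fun a b => decide (G.Adj (p.1 a) (p.2 b))))).card := by
        apply Finset.card_le_card
        intro G hG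
        have hG' := (Finset.mem_filter.1 hG).2
        obtain ⟨hG1, _, hG3⟩ := hG'
        rw [Finset.mem_product] at hG1
        have ha := (Finset.mem_filter.1 hG1.1).2.2
        have hb := (Finset.mem_filter.1 hG1.2).2.2
        refine Finset.mem_filter.2 ⟨Finset.mem_univ _, ?_, ?_, hG3⟩
        · intro a b hab
          by_cases h' : a = b
          · rw [h'] at hab; exact G.loopless.irrefl _ hab
          · exact (ha a b h').2 hab
        · intro a b hab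
          by_cases h' : a = b
          · rw [h'] at hab; exact G.loopless.irrefl _ hab
          · exact (hb a b h').2 hab
      have h' : (((Finset.univ.filter (fun G : SimpleGraph (Fin n) =>
        (∀ a b, ¬ G.Adj (p.1 a) (p.1 b)) ∧ (∀ a b, ¬ G.Adj (p.2 a) (p.2 b)) ∧
          ¬ Gd N r (fun a b => decide (G.Adj (p.1 a) (p.2 b))))).card : ℕ) : ℝ) *
            (2 ^ (N * (N - 1)) * 2 ^ (N * N)) ≤
          (2 ^ (N * N) * β) * Fintype.card (SimpleGraph (Fin n)) := by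
        have h2 : (((Finset.univ.filter (fun G : SimpleGraph (Fin n) =>
          (∀ a b, ¬ G.Adj (p.1 a) (p.1 b)) ∧ (∀ a b, ¬ G.Adj (p.2 a) (p.2 b)) ∧
          ¬ Gd N r (fun a b => decide (G.Adj (p.1 a) (p.2 b))))).card : ℕ) : ℝ) *
            (2 ^ (N * (N - 1)) * 2 ^ (N * N)) =
          ((Finset.univ.filter (fun F : Fin N → Fin N → Bool => ¬ Gd N r F)).card : ℝ) *
            Fintype.card (SimpleGraph (Fin n)) := by
          rw [← pow_add]
          have h9 : (((Finset.univ.filter (fun G : SimpleGraph (Fin n) =>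
            (∀ a b, ¬ G.Adj (p.1 a) (p.1 b)) ∧ (∀ a b, ¬ G.Adj (p.2 a) (p.2 b)) ∧
            ¬ Gd N r (fun a b => decide (G.Adj (p.1 a) (p.2 b))))).card : ℕ)) *
            2 ^ (N * (N - 1) + N * N) =
            ((Finset.univ.filter (fun F : Fin N → Fin N → Bool => ¬ Gd N r F)).card) *
            Fintype.card (SimpleGraph (Fin n)) := by
            convert h
          exact_mod_cast h9
        rw [h2]
        exact mul_le_mul_of_nonneg_right hβ (Nat.cast_nonneg _)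
      have hpos1 : (0 : ℝ) < 2 ^ (N * (N - 1)) := by positivity
      have hpos2 : (0 : ℝ) < 2 ^ (N * N) := by positivity
      have h3 : (((Finset.univ.filter (fun G : SimpleGraph (Fin n) => rel G p)).card : ℕ) : ℝ) *
          2 ^ (N * (N - 1)) ≤ β * Fintype.card (SimpleGraph (Fin n)) := by
        have h4 : (((Finset.univ.filter (fun G : SimpleGraph (Fin n) => rel G p)).card : ℕ) : ℝ) ≤
          (((Finset.univ.filter (fun G : SimpleGraph (Fin n) =>
        (∀ a b, ¬ G.Adj (p.1 a) (p.1 b)) ∧ (∀ a b, ¬ G.Adj (p.2 a) (p.2 b)) ∧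
          ¬ Gd N r (fun a b => decide (G.Adj (p.1 a) (p.2 b))))).card : ℕ) : ℝ) := by
          exact_mod_cast hle
        have h5 := mul_le_mul_of_nonneg_right h4 hpos1.le
        refine le_trans h5 ?_
        have h6 : (2 : ℝ) ^ (N * N) * ((((Finset.univ.filter (fun G : SimpleGraph (Fin n) =>
        (∀ a b, ¬ G.Adj (p.1 a) (p.1 b)) ∧ (∀ a b, ¬ G.Adj (p.2 a) (p.2 b)) ∧
          ¬ Gd N r (fun a b => decide (G.Adj (p.1 a) (p.2 b))))).card : ℕ) : ℝ) *
          2 ^ (N * (N - 1))) ≤ 2 ^ (N * N) * (β * Fintype.card (SimpleGraph (Fin n))) := by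
          linarith
        exact le_of_mul_le_mul_left h6 hpos2
      rw [div_mul_eq_mul_div, le_div_iff₀ hpos1]
      exact h3
    · have : (Finset.univ.filter (fun G : SimpleGraph (Fin n) => rel G p)) = ∅ := by
        apply Finset.filter_eq_empty_iff.2
        intro G _ hG
        apply hp
        obtain ⟨hG1, hG2, _⟩ := hG
        rw [Finset.mem_product] at hG1
        have ha := (Finset.mem_filter.1 hG1.1).2.2
        have hb := (Finset.mem_filter.1 hG1.2).2.2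
        refine ⟨⟨?_, ?_⟩, hG2⟩
        · intro a b hab
          by_contra h'
          exact (ha a b h').1 hab
        · intro a b hab
          by_contra h'
          exact (hb a b h').1 hab
      rw [this]
      simp only [Finset.card_empty, Nat.cast_zero]
      positivity
  have hsum := Finset.sum_le_sum (s := Finset.univ) (fun p _ => hone p)
  refine le_trans hsum (le_of_eq ?_)
  rw [Finset.sum_const, Finset.card_univ, Fintype.card_prod, Fintype.card_fun, Fintype.card_fin,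
    Fintype.card_fin, nsmul_eq_mul]
  push_cast
  ring

open Classical in
theorem card_Zc_ge_le {n N r : ℕ} (β Y : ℝ) (hY : 0 < Y)
    (hβ : ((Finset.univ.filter (fun F : Fin N → Fin N → Bool => ¬ Gd N r F)).card : ℝ) ≤
      2 ^ (N * N) * β) :
    ((Finset.univ.filter (fun G : SimpleGraph (Fin n) => Y ≤ (Zc N r G : ℝ))).card : ℝ) ≤
      (n : ℝ) ^ (2 * N) * (β / 2 ^ (N * (N - 1))) / Y *
        Fintype.card (SimpleGraph (Fin n)) := by
  have h1 := sum_Zc_le (n := n) β hβ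
  have h2 : ((Finset.univ.filter (fun G : SimpleGraph (Fin n) => Y ≤ (Zc N r G : ℝ))).card : ℝ)
      * Y ≤ ∑ G : SimpleGraph (Fin n), (Zc N r G : ℝ) := by
    calc ((Finset.univ.filter (fun G : SimpleGraph (Fin n) => Y ≤ (Zc N r G : ℝ))).card : ℝ) * Y
        = ∑ _G ∈ Finset.univ.filter (fun G : SimpleGraph (Fin n) => Y ≤ (Zc N r G : ℝ)), Y := by
          rw [Finset.sum_const, nsmul_eq_mul]
      _ ≤ ∑ G ∈ Finset.univ.filter (fun G : SimpleGraph (Fin n) => Y ≤ (Zc N r G : ℝ)),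
          (Zc N r G : ℝ) := by
          apply Finset.sum_le_sum
          intro G hG
          exact (Finset.mem_filter.1 hG).2
      _ ≤ ∑ G : SimpleGraph (Fin n), (Zc N r G : ℝ) := by
          apply Finset.sum_le_sum_of_subset_of_nonneg (Finset.filter_subset _ _)
          intro G _ _
          exact Nat.cast_nonneg _
  have h3 := h2.trans h1
  rw [div_mul_eq_mul_div, le_div_iff₀ hY]
  exact h3


/-- `G` has a positive semidefinite matrix with its pattern, with the Strong Arnold Property, of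
rank at most `D`. -/
def HasMat {n : ℕ} (H : SimpleGraph (Fin n)) (D : ℝ) : Prop :=
  ∃ A : Matrix (Fin n) (Fin n) ℝ, A.PosSemidef ∧
      (∀ i j, i ≠ j → (A i j ≠ 0 ↔ H.Adj i j)) ∧
      (∀ X : Matrix (Fin n) (Fin n) ℝ, X.IsSymm → (∀ i, X i i = 0) →
        (∀ i j, H.Adj i j → X i j = 0) → A * X = 0 → X = 0) ∧
      (A.rank : ℝ) ≤ D

open Classical in
theorem hasMat_of_good {n N r : ℕ} (hN : 0 < N) (hn : 0 < n) (hr : 0 < r) (ε₁ η X D t₀ : ℝ)
    (G : SimpleGraph (Fin n)) (hdense : Dense ε₁ G) (hε₁ : 0 < ε₁) (h12 : ε₁ ≤ 1 / 12)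
    (ht₀ : 1 / ε₁ ≤ t₀) (ht0n : ∀ k : ℕ, t₀ ≤ k → n ≤ k ^ 4)
    (hq : t₀ ≤ (1 / 2 - 3 * ε₁) ^ N * (η * n))
    (hX : X = (ε₁ * (η * n)) ^ N * (1 / 2 - 3 * ε₁) ^ (N * (N - 1) / 2)) (hX0 : 0 < X)
    (hZ : (Zc N r G : ℝ) < X ^ 2 / (4 * n))
    (hD : ∀ m : ℕ, m * N ≤ n → (n : ℝ) - m * N ≤ η * n →
      (m * r : ℝ) + ((n - m * N : ℕ) : ℝ) ≤ D) :
    HasMat Gᶜ D := by
  have hC : ∀ f ∈ indepTuples G N Finset.univ, Function.Injective f := by
    intro f hf a b hab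
    by_contra h'
    exact ((Finset.mem_filter.1 hf).2.2 a b h').1 hab
  obtain ⟨m, α, hα1, hα2, hα3, hα4⟩ := exists_blocks hN hn (indepTuples G N Finset.univ) hC
    (fun f g => ¬ Gd N r (fun a b => decide (G.Adj (f a) (g b)))) X η hX0 (by
      intro R hR
      have h1 := card_indep_ge G ε₁ hε₁ h12 t₀ ht₀ (fun T hT => hdense T (ht0n _ hT)) N R (η * n)
        hR hq
      rw [← hX] at h1
      refine h1.trans ?_
      have h2 : indepTuples G N R ⊆
          (indepTuples G N Finset.univ).filter (fun f => ∀ i, f i ∈ R) := by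
        intro f hf
        have hf' := (Finset.mem_filter.1 hf).2
        exact Finset.mem_filter.2 ⟨Finset.mem_filter.2 ⟨Finset.mem_univ _,
          fun i => Finset.mem_univ _, hf'.2⟩, hf'.1⟩
      exact_mod_cast Finset.card_le_card h2) (by
      unfold Zc at hZ
      convert hZ)
  have hmN : m * N ≤ n := by
    have hinj : Function.Injective (fun p : Fin m × Fin N => α p.1 p.2) := by
      rintro ⟨i, a⟩ ⟨j, b⟩ hab
      obtain ⟨h1, h2⟩ := hα2 i j a b hab
      rw [h1, h2]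
    have := Fintype.card_le_of_injective _ hinj
    simpa using this
  obtain ⟨A, hA1, hA2, hA3, hA4⟩ := matrix_of_blocks hr G α hα2 (by
      intro i a b hab
      by_cases h' : a = b
      · rw [h'] at hab; exact G.loopless.irrefl _ hab
      · exact ((Finset.mem_filter.1 (hα1 i)).2.2 a b h').2 hab) (by
      intro i j hij
      have := hα3 i j hij
      exact not_not.1 this)
  refine ⟨A, hA1, hA2, hA3, ?_⟩
  have h3 : (A.rank : ℝ) ≤ (m * r : ℝ) + ((n - m * N : ℕ) : ℝ) := by exact_mod_cast hA4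
  exact h3.trans (hD m hmN hα4)

/-- The asymptotic estimate. -/
theorem asymp (c a δ ε₁ : ℝ) (hc : 0 < c) (ha : 0 < a) (hδ : 0 < δ) (hε₁ : 0 < ε₁)
    (hε₂ : ε₁ ≤ 1 / 24) (hε₃ : 24 * ε₁ ≤ c / 2) :
    ∃ N₁ : ℕ, ∀ N : ℕ, N₁ ≤ N →
      4 * (16 : ℝ) ^ (N + 1) * Real.exp (-(c * N ^ 2)) ≤
        δ * (a ^ (2 * N) * (1 - 6 * ε₁) ^ (N * (N - 1))) := by
  -- exponent: `log 64 + N log 16 - c N² ≤ log δ + 2 N log a - 12 ε₁ N²`
  have hlog : ∃ N₁ : ℕ, ∀ N : ℕ, N₁ ≤ N →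
      Real.log 64 + N * Real.log 16 - c * N ^ 2 ≤
        Real.log δ + 2 * N * Real.log a - c / 2 * N ^ 2 := by
    obtain ⟨N₁, hN₁⟩ := exists_nat_ge
      (2 * (|Real.log 64| + |Real.log 16| + |Real.log δ| + 2 * |Real.log a|) / c + 1)
    refine ⟨N₁, fun N hN => ?_⟩
    have hN1 : (2 * (|Real.log 64| + |Real.log 16| + |Real.log δ| + 2 * |Real.log a|) / c + 1)
        ≤ N := hN₁.trans (by exact_mod_cast hN)
    have hN2 : (1 : ℝ) ≤ N := by
      have : 0 ≤ 2 * (|Real.log 64| + |Real.log 16| + |Real.log δ| + 2 * |Real.log a|) / c := by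
        positivity
      linarith
    have hN3 : 2 * (|Real.log 64| + |Real.log 16| + |Real.log δ| + 2 * |Real.log a|) ≤ c * N := by
      have : 2 * (|Real.log 64| + |Real.log 16| + |Real.log δ| + 2 * |Real.log a|) / c ≤ N := by
        linarith
      rw [div_le_iff₀ hc] at this
      linarith
    have e1 : Real.log 64 ≤ |Real.log 64| * N := by
      have := le_abs_self (Real.log 64)
      nlinarith [abs_nonneg (Real.log 64)]
    have e2 : N * Real.log 16 ≤ |Real.log 16| * N := by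
      have := le_abs_self (Real.log 16)
      nlinarith
    have e3 : -Real.log δ ≤ |Real.log δ| * N := by
      have := neg_le_abs (Real.log δ)
      nlinarith [abs_nonneg (Real.log δ)]
    have e4 : -(2 * N * Real.log a) ≤ 2 * |Real.log a| * N := by
      have := neg_le_abs (Real.log a)
      nlinarith
    have e5 : (2 * (|Real.log 64| + |Real.log 16| + |Real.log δ| + 2 * |Real.log a|)) * N ≤
        c * N * N := mul_le_mul_of_nonneg_right hN3 (by linarith)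
    nlinarith
  obtain ⟨N₁, hN₁⟩ := hlog
  refine ⟨N₁, fun N hN => ?_⟩
  have h1 := hN₁ N hN
  have h6 : (0 : ℝ) < 1 - 6 * ε₁ := by linarith
  -- lower bound for `(1 - 6 ε₁)^(N (N-1))`
  have h7 : Real.exp (-(c / 2 * N ^ 2)) ≤ (1 - 6 * ε₁) ^ (N * (N - 1)) := by
    have h8 : Real.exp (-(12 * ε₁)) ≤ 1 - 6 * ε₁ := by
      have h9 : (1 : ℝ) + 12 * ε₁ ≤ Real.exp (12 * ε₁) := by
        have := Real.add_one_le_exp (12 * ε₁); linarith
      rw [Real.exp_neg]
      have h10 : (Real.exp (12 * ε₁))⁻¹ ≤ (1 + 12 * ε₁)⁻¹ := by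
        apply inv_anti₀ (by positivity) h9
      refine h10.trans ?_
      rw [inv_le_iff_one_le_mul₀ (by positivity)]
      nlinarith
    calc Real.exp (-(c / 2 * N ^ 2)) ≤ Real.exp (-(12 * ε₁)) ^ (N * (N - 1)) := by
          rw [← Real.exp_nat_mul]
          apply Real.exp_le_exp.2
          have h11 : ((N * (N - 1) : ℕ) : ℝ) ≤ (N : ℝ) ^ 2 := by
            have : N * (N - 1) ≤ N ^ 2 := by
              rw [sq]; exact Nat.mul_le_mul_left _ (Nat.sub_le _ _)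
            exact_mod_cast this
          have h12 : ((N * (N - 1) : ℕ) : ℝ) * (12 * ε₁) ≤ (N : ℝ) ^ 2 * (c / 2) := by
            apply mul_le_mul h11 (by linarith) (by positivity) (by positivity)
          linarith
      _ ≤ (1 - 6 * ε₁) ^ (N * (N - 1)) := pow_le_pow_left₀ (Real.exp_pos _).le h8 _
  have h13 : Real.exp (Real.log 64 + N * Real.log 16 - c * N ^ 2) ≤
      Real.exp (Real.log δ + 2 * N * Real.log a - c / 2 * N ^ 2) := Real.exp_le_exp.2 h1
  have h14 : Real.exp (Real.log 64 + N * Real.log 16 - c * N ^ 2) =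
      4 * (16 : ℝ) ^ (N + 1) * Real.exp (-(c * N ^ 2)) := by
    rw [sub_eq_add_neg, Real.exp_add, Real.exp_add, Real.exp_log (by norm_num),
      Real.exp_nat_mul, Real.exp_log (by norm_num)]
    ring
  have h15 : Real.exp (Real.log δ + 2 * N * Real.log a - c / 2 * N ^ 2) =
      δ * (a ^ (2 * N) * Real.exp (-(c / 2 * N ^ 2))) := by
    rw [sub_eq_add_neg, Real.exp_add, Real.exp_add, Real.exp_log hδ]
    have : 2 * (N : ℝ) * Real.log a = ((2 * N : ℕ) : ℝ) * Real.log a := by push_cast; ring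
    rw [this, Real.exp_nat_mul, Real.exp_log ha]
    ring
  rw [h14, h15] at h13
  refine h13.trans ?_
  apply mul_le_mul_of_nonneg_left _ hδ.le
  exact mul_le_mul_of_nonneg_left h7 (by positivity)


open Classical in
theorem almost_all_one (ε δ : ℝ) (hε : 0 < ε) (hδ : 0 < δ) :
    ∃ n₀ : ℕ, ∀ n : ℕ, n₀ ≤ n →
      ((Finset.univ.filter (fun G : SimpleGraph (Fin n) =>
        ¬ HasMat Gᶜ ((1 / 3 + ε) * n))).card : ℝ) ≤
        δ * Fintype.card (SimpleGraph (Fin n)) := by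
  obtain ⟨ε', hε'0, hε'ε, hε'1⟩ : ∃ ε' : ℝ, 0 < ε' ∧ ε' ≤ ε ∧ ε' ≤ 1 :=
    ⟨min ε 1, lt_min hε one_pos, min_le_left _ _, min_le_right _ _⟩
  obtain ⟨c, hc, N₀, hN₀⟩ := card_not_gd (ε' / 4) (by positivity)
  obtain ⟨ε₁, hε₁0, hε₁1, hε₁2⟩ : ∃ ε₁ : ℝ, 0 < ε₁ ∧ ε₁ ≤ 1 / 24 ∧ 24 * ε₁ ≤ c / 2 :=
    ⟨min (1 / 24) (c / 48), lt_min (by norm_num) (by positivity), min_le_left _ _, by
      have := min_le_right (1 / 24) (c / 48); linarith⟩
  have hη0 : 0 < ε' / 4 := by positivity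
  obtain ⟨n₁, hn₁⟩ := card_not_dense ε₁ (δ / 2) hε₁0 (by linarith) (by positivity)
  obtain ⟨N₁, hN₁⟩ := asymp c (ε₁ * (ε' / 4)) (δ / 2) ε₁ hc (by positivity) (by positivity)
    hε₁0 hε₁1 hε₁2
  obtain ⟨N₂, hN₂⟩ := exists_nat_ge (4 / ε')
  obtain ⟨n₂, hn₂⟩ := exists_nat_ge ((1 / ε₁) ^ 4)
  obtain ⟨n₃, hn₃⟩ := exists_nat_ge ((1 / (ε' / 4)) ^ 4)
  refine ⟨n₁ + n₂ + n₃ + 16 ^ (N₀ + N₁ + N₂ + 1), fun n hn => ?_⟩
  obtain ⟨K, hK⟩ : ∃ K : ℕ, K = 16 ^ (N₀ + N₁ + N₂ + 1) := ⟨_, rfl⟩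
  have hKpos : 0 < K := by rw [hK]; positivity
  rw [← hK] at hn
  have hnn₁ : n₁ ≤ n := by omega
  have hnn₂ : n₂ ≤ n := by omega
  have hnn₃ : n₃ ≤ n := by omega
  have hnK : K ≤ n := by omega
  have hnpos : 0 < n := by omega
  set N := Nat.log 16 n with hNdef
  have hNge : N₀ + N₁ + N₂ + 1 ≤ N := by
    rw [hNdef]
    apply (Nat.le_log_iff_pow_le (by norm_num) hnpos.ne').2
    rw [← hK]
    exact hnK
  have h16le : 16 ^ N ≤ n := Nat.pow_log_le_self 16 hnpos.ne'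
  have h16lt : n < 16 ^ (N + 1) := Nat.lt_pow_succ_log_self (by norm_num) n
  have hNpos : 0 < N := by omega
  obtain ⟨r, hr⟩ : ∃ r : ℕ, r = ⌈(1 / 3 + ε' / 4) * (N : ℝ)⌉₊ := ⟨_, rfl⟩
  have hr1 : (1 / 3 + ε' / 4) * (N : ℝ) ≤ r := by rw [hr]; exact Nat.le_ceil _
  have hNr : (0 : ℝ) < N := by exact_mod_cast hNpos
  have hr2 : (r : ℝ) < (1 / 3 + ε' / 4) * (N : ℝ) + 1 := by
    rw [hr]; exact Nat.ceil_lt_add_one (by positivity)
  have hrpos : 0 < r := by
    have : (0 : ℝ) < r := lt_of_lt_of_le (by positivity) hr1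
    exact_mod_cast this
  have hr3 : (r : ℝ) ≤ (1 / 3 + ε' / 2) * N := by
    have h1 : (4 / ε' : ℝ) ≤ N := hN₂.trans (by
      have : N₂ ≤ N := by omega
      exact_mod_cast this)
    rw [div_le_iff₀ hε'0] at h1
    nlinarith
  have hbad := hN₀ N (by omega) r hr1
  have hn0 : (0 : ℝ) < n := by exact_mod_cast hnpos
  -- the threshold
  obtain ⟨t₀, ht₀⟩ : ∃ t₀ : ℝ, t₀ = Real.sqrt (Real.sqrt n) := ⟨_, rfl⟩
  have ht₀4 : t₀ ^ 4 = n := by
    rw [ht₀, show (4 : ℕ) = 2 * 2 from rfl, pow_mul, Real.sq_sqrt (Real.sqrt_nonneg _),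
      Real.sq_sqrt hn0.le]
  have ht₀0 : 0 ≤ t₀ := by rw [ht₀]; exact Real.sqrt_nonneg _
  have ht₀1 : 1 / ε₁ ≤ t₀ := by
    apply le_of_pow_le_pow_left₀ (n := 4) (by norm_num) ht₀0
    rw [ht₀4]
    have : (n₂ : ℝ) ≤ n := by exact_mod_cast hnn₂
    linarith
  have ht₀2 : 1 / (ε' / 4) ≤ t₀ := by
    apply le_of_pow_le_pow_left₀ (n := 4) (by norm_num) ht₀0
    rw [ht₀4]
    have : (n₃ : ℝ) ≤ n := by exact_mod_cast hnn₃
    linarith
  have ht0n : ∀ k : ℕ, t₀ ≤ k → n ≤ k ^ 4 := by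
    intro k hk
    have : (n : ℝ) ≤ (k : ℝ) ^ 4 := by
      rw [← ht₀4]
      exact pow_le_pow_left₀ ht₀0 hk 4
    exact_mod_cast this
  have hq0 : (1 : ℝ) / 4 ≤ 1 / 2 - 3 * ε₁ := by linarith
  have hqpos : (0 : ℝ) < 1 / 2 - 3 * ε₁ := by linarith
  have hq : t₀ ≤ (1 / 2 - 3 * ε₁) ^ N * (ε' / 4 * n) := by
    have h1 : ((1 : ℝ) / 4) ^ N ≤ (1 / 2 - 3 * ε₁) ^ N := pow_le_pow_left₀ (by norm_num) hq0 N
    have h2 : ((4 : ℝ) ^ N) ^ 2 ≤ (t₀ ^ 2) ^ 2 := by
      rw [← pow_mul, ← pow_mul, ht₀4, mul_comm, pow_mul]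
      norm_num
      exact_mod_cast h16le
    have h3 : (4 : ℝ) ^ N ≤ t₀ ^ 2 := le_of_pow_le_pow_left₀ (by norm_num) (by positivity) h2
    have ht₀pos : 0 < t₀ := lt_of_lt_of_le (by positivity) ht₀1
    have h4 : (1 : ℝ) / t₀ ^ 2 ≤ (1 / 4) ^ N := by
      rw [one_div_pow]
      exact one_div_le_one_div_of_le (by positivity) h3
    have h5 : (1 : ℝ) / t₀ ^ 2 * (ε' / 4 * n) ≤ (1 / 2 - 3 * ε₁) ^ N * (ε' / 4 * n) :=
      mul_le_mul_of_nonneg_right (h4.trans h1) (by positivity)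
    refine le_trans ?_ h5
    have h6 : (1 : ℝ) / t₀ ^ 2 * (ε' / 4 * n) = ε' / 4 * t₀ ^ 2 := by
      rw [← ht₀4]
      field_simp
    rw [h6]
    rw [div_le_iff₀ hη0] at ht₀2
    nlinarith
  obtain ⟨X, hX⟩ : ∃ X : ℝ, X = (ε₁ * (ε' / 4 * n)) ^ N *
    (1 / 2 - 3 * ε₁) ^ (N * (N - 1) / 2) := ⟨_, rfl⟩
  have hX0 : 0 < X := by rw [hX]; positivity
  have hXsq : X ^ 2 = (ε₁ * (ε' / 4)) ^ (2 * N) * (n : ℝ) ^ (2 * N) *
      (1 / 2 - 3 * ε₁) ^ (N * (N - 1)) := by
    have heven : N * (N - 1) / 2 * 2 = N * (N - 1) :=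
      Nat.div_mul_cancel (Nat.even_mul_pred_self N).two_dvd
    rw [hX, mul_pow, ← pow_mul, ← pow_mul, heven, ← mul_assoc ε₁, mul_pow]
    ring
  have hY : 0 < X ^ 2 / (4 * n) := by positivity
  -- first moment
  have hfirst := card_Zc_ge_le (n := n) (N := N) (r := r) (Real.exp (-(c * N ^ 2)))
    (X ^ 2 / (4 * n)) hY hbad
  have hsmall : (n : ℝ) ^ (2 * N) * (Real.exp (-(c * N ^ 2)) / 2 ^ (N * (N - 1))) /
      (X ^ 2 / (4 * n)) ≤ δ / 2 := by
    rw [div_le_iff₀ hY, hXsq]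
    have h1 := hN₁ N (by omega)
    have h2 : (1 - 6 * ε₁) ^ (N * (N - 1)) =
        2 ^ (N * (N - 1)) * (1 / 2 - 3 * ε₁) ^ (N * (N - 1)) := by
      rw [← mul_pow]; congr 1; ring
    rw [h2] at h1
    have h3 : (n : ℝ) ≤ 16 ^ (N + 1) := by exact_mod_cast h16lt.le
    have h4 : 4 * (n : ℝ) * Real.exp (-(c * N ^ 2)) ≤ δ / 2 * ((ε₁ * (ε' / 4)) ^ (2 * N) *
        (2 ^ (N * (N - 1)) * (1 / 2 - 3 * ε₁) ^ (N * (N - 1)))) := by
      refine le_trans ?_ h1
      have := mul_le_mul_of_nonneg_right h3 (Real.exp_pos (-(c * N ^ 2))).le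
      linarith
    have hp2 : (0 : ℝ) < 2 ^ (N * (N - 1)) := by positivity
    have hpn : (0 : ℝ) < (n : ℝ) ^ (2 * N) := by positivity
    have h5 : (n : ℝ) ^ (2 * N) * (Real.exp (-(c * N ^ 2)) / 2 ^ (N * (N - 1))) =
        (n : ℝ) ^ (2 * N) / (2 ^ (N * (N - 1)) * (4 * n)) *
          (4 * (n : ℝ) * Real.exp (-(c * N ^ 2))) := by
      field_simp
    have h6 : δ / 2 * ((ε₁ * (ε' / 4)) ^ (2 * N) * (n : ℝ) ^ (2 * N) *
      (1 / 2 - 3 * ε₁) ^ (N * (N - 1)) / (4 * n)) =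
        (n : ℝ) ^ (2 * N) / (2 ^ (N * (N - 1)) * (4 * n)) *
          (δ / 2 * ((ε₁ * (ε' / 4)) ^ (2 * N) *
        (2 ^ (N * (N - 1)) * (1 / 2 - 3 * ε₁) ^ (N * (N - 1))))) := by
      field_simp
    rw [h5, h6]
    exact mul_le_mul_of_nonneg_left h4 (by positivity)
  have hfirst' : ((Finset.univ.filter (fun G : SimpleGraph (Fin n) =>
      X ^ 2 / (4 * n) ≤ (Zc N r G : ℝ))).card : ℝ) ≤
      δ / 2 * Fintype.card (SimpleGraph (Fin n)) :=
    hfirst.trans (mul_le_mul_of_nonneg_right hsmall (Nat.cast_nonneg _))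
  have hdens := hn₁ n hnn₁
  have hsub : (Finset.univ.filter (fun G : SimpleGraph (Fin n) =>
        ¬ HasMat Gᶜ ((1 / 3 + ε) * n))) ⊆
      (Finset.univ.filter (fun G : SimpleGraph (Fin n) => ¬ Dense ε₁ G)) ∪
      (Finset.univ.filter (fun G : SimpleGraph (Fin n) =>
      X ^ 2 / (4 * n) ≤ (Zc N r G : ℝ))) := by
    intro G hG
    by_contra hcon
    rw [Finset.mem_union, not_or] at hcon
    obtain ⟨h1, h2⟩ := hcon
    have hd : Dense ε₁ G := by
      by_contra h3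
      exact h1 (Finset.mem_filter.2 ⟨Finset.mem_univ _, h3⟩)
    have hz : (Zc N r G : ℝ) < X ^ 2 / (4 * n) := by
      by_contra h3
      exact h2 (Finset.mem_filter.2 ⟨Finset.mem_univ _, not_lt.1 h3⟩)
    apply (Finset.mem_filter.1 hG).2
    apply hasMat_of_good hNpos hnpos hrpos ε₁ (ε' / 4) X _ t₀ G hd hε₁0 (by linarith) ht₀1 ht0n
      hq hX hX0 hz
    intro m hm1 hm2
    have h4 : ((n - m * N : ℕ) : ℝ) = (n : ℝ) - m * N := by
      rw [Nat.cast_sub hm1]; push_cast; ring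
    rw [h4]
    have h5 : (m : ℝ) * r ≤ m * ((1 / 3 + ε' / 2) * N) :=
      mul_le_mul_of_nonneg_left hr3 (Nat.cast_nonneg _)
    have h6 : (m : ℝ) * N ≤ n := by exact_mod_cast hm1
    have h7 : (m : ℝ) * ((1 / 3 + ε' / 2) * N) ≤ (1 / 3 + ε' / 2) * n := by
      have := mul_le_mul_of_nonneg_left h6 (show (0 : ℝ) ≤ 1 / 3 + ε' / 2 by positivity)
      linarith
    have h8 : ε' * n ≤ ε * n := mul_le_mul_of_nonneg_right hε'ε hn0.le
    have h9 : (1 / 3 + ε' / 2) * (n : ℝ) = 1 / 3 * n + ε' * n / 2 := by ring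
    have h10 : (1 / 3 + ε) * (n : ℝ) = 1 / 3 * n + ε * n := by ring
    have h11 : ε' / 4 * (n : ℝ) = ε' * n / 4 := by ring
    have h12 : 0 ≤ ε' * (n : ℝ) := by positivity
    rw [h9] at h7
    rw [h11] at hm2
    rw [h10]
    linarith
  have hcard := (Finset.card_le_card hsub).trans (Finset.card_union_le _ _)
  have hcard' := (Nat.cast_le (α := ℝ)).2 hcard
  rw [Nat.cast_add] at hcard'
  refine hcard'.trans ?_
  refine (add_le_add hdens hfirst').trans (le_of_eq ?_)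
  ring

end Pool.Agent.Lib.MP_23961f_co.AA
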