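import Pool.Agent.Lib.MP_23961f_co.AA.Chern

/-!
Module GraphCount. Counting graphs on `Fin n` with events on given sets of pairs.

PROOF. A graph is the same as a function from the non-diagonal unordered pairs
`I = {e : Sym2 (Fin n) // ¬ e.IsDiag}` to `Bool` (`SimpleGraph.fromEdgeSet`, `edgeSet`), so
`card_graph_comp` is `card_fun_comp`. For `card_pair_event` use
`J = P ⊕ P ⊕ (Fin N × Fin N)`, `P` = pairs `i < j` in `Fin N` (`|P| = N (N-1) / 2`),
`φ = s(α i, α j), s(β i, β j), s(α a, β b)`, which is injective because `α`, `β` are injective with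
disjoint ranges.
-/

set_option autoImplicit false

namespace Pool.Agent.Lib.MP_23961f_co.AA

open Classical in
/-- graphs on `Fin n` are the same as `Bool`-valued functions on the non-diagonal pairs -/
private noncomputable def graphEquiv (n : ℕ) :
    SimpleGraph (Fin n) ≃ ({e : Sym2 (Fin n) // ¬ e.IsDiag} → Bool) where
  toFun G := fun e => decide (e.1 ∈ G.edgeSet)
  invFun ω := SimpleGraph.fromEdgeSet {e | ∃ h : ¬ e.IsDiag, ω ⟨e, h⟩ = true}
  left_inv G := by
    apply SimpleGraph.edgeSet_injective
    rw [SimpleGraph.edgeSet_fromEdgeSet]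
    ext e
    simp only [decide_eq_true_eq, Set.mem_sdiff, Set.mem_ofPred_eq]
    constructor
    · rintro ⟨⟨_, h⟩, _⟩
      exact h
    · intro h
      have h1 := G.not_isDiag_of_mem_edgeSet h
      exact ⟨⟨h1, h⟩, h1⟩
  right_inv ω := by
    funext e
    obtain ⟨e, he⟩ := e
    rw [Bool.eq_iff_iff]
    beta_reduce
    simp only [decide_eq_true_eq, SimpleGraph.edgeSet_fromEdgeSet, Set.mem_sdiff,
      Set.mem_ofPred_eq]
    constructor
    · rintro ⟨⟨_, h⟩, _⟩
      exact h
    · intro h
      exact ⟨⟨he, h⟩, he⟩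

open Classical in
theorem card_graph_comp {n : ℕ} {J : Type} [Fintype J] (φ : J → Sym2 (Fin n))
    (hφ : Function.Injective φ) (hd : ∀ j, ¬ (φ j).IsDiag) (P : (J → Bool) → Prop) :
    (Finset.univ.filter (fun G : SimpleGraph (Fin n) =>
        P (fun j => decide (φ j ∈ G.edgeSet)))).card * 2 ^ Fintype.card J =
      (Finset.univ.filter P).card * Fintype.card (SimpleGraph (Fin n)) := by
  have h1 := card_fun_comp (R := Bool) (fun j => (⟨φ j, hd j⟩ : {e : Sym2 (Fin n) // ¬ e.IsDiag}))
    (fun i j hij => hφ (congrArg Subtype.val hij)) P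
  have h2 : (Finset.univ.filter (fun G : SimpleGraph (Fin n) =>
        P (fun j => decide (φ j ∈ G.edgeSet)))).card =
      (Finset.univ.filter (fun ω : {e : Sym2 (Fin n) // ¬ e.IsDiag} → Bool =>
        P (fun j => ω ⟨φ j, hd j⟩))).card := by
    apply Finset.card_equiv (graphEquiv n)
    intro G
    rw [Finset.mem_filter, Finset.mem_filter]
    simp only [Finset.mem_univ, true_and]
    exact Iff.rfl
  have h3 : Fintype.card (SimpleGraph (Fin n)) =
      Fintype.card Bool ^ Fintype.card {e : Sym2 (Fin n) // ¬ e.IsDiag} := by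
    rw [Fintype.card_congr (graphEquiv n), Fintype.card_fun]
  rw [h2, h3]
  rw [Fintype.card_bool] at h1 ⊢
  refine Eq.trans ?_ (h1.trans ?_)
  · exact congrArg (fun z => z * _) (card_irrel _ _ _ _ _ _ (fun x => Iff.rfl))
  · refine congrArg₂ (fun z w => z * w) ?_ ?_
    · exact card_irrel _ _ _ _ _ _ (fun x => Iff.rfl)
    · exact congrArg (fun z => 2 ^ z) (card_type_irrel _ _)

open Classical in
theorem card_pair_event {n N : ℕ} (α β : Fin N → Fin n) (hα : Function.Injective α)
    (hβ : Function.Injective β) (hd : ∀ a b, α a ≠ β b)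
    (B : (Fin N → Fin N → Bool) → Prop) :
    (Finset.univ.filter (fun G : SimpleGraph (Fin n) =>
        (∀ a b, ¬ G.Adj (α a) (α b)) ∧ (∀ a b, ¬ G.Adj (β a) (β b)) ∧
          B (fun a b => decide (G.Adj (α a) (β b))))).card * 2 ^ (N * (N - 1) + N * N) =
      (Finset.univ.filter B).card * Fintype.card (SimpleGraph (Fin n)) := by
  let E := {e : Sym2 (Fin N) // ¬ e.IsDiag}
  let φ : E ⊕ (E ⊕ (Fin N × Fin N)) → Sym2 (Fin n) :=
    Sum.elim (fun e => Sym2.map α e.1) (Sum.elim (fun e => Sym2.map β e.1)
      (fun p => s(α p.1, β p.2)))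
  have hαβ : ∀ (e e' : Sym2 (Fin N)), Sym2.map α e ≠ Sym2.map β e' := by
    intro e e'
    induction e using Sym2.ind with
    | _ a b =>
      induction e' using Sym2.ind with
      | _ c d =>
        intro h
        rw [Sym2.map_mk, Sym2.map_mk, Sym2.eq_iff] at h
        rcases h with ⟨h, _⟩ | ⟨h, _⟩
        · exact hd _ _ h
        · exact hd _ _ h
  have hαp : ∀ (e : Sym2 (Fin N)) (c d : Fin N), Sym2.map α e ≠ s(α c, β d) := by
    intro e c d
    induction e using Sym2.ind with
    | _ a b =>
      intro h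
      rw [Sym2.map_mk, Sym2.eq_iff] at h
      rcases h with ⟨_, h⟩ | ⟨h, _⟩
      · exact hd _ _ h
      · exact hd _ _ h
  have hβp : ∀ (e : Sym2 (Fin N)) (c d : Fin N), Sym2.map β e ≠ s(α c, β d) := by
    intro e c d
    induction e using Sym2.ind with
    | _ a b =>
      intro h
      rw [Sym2.map_mk, Sym2.eq_iff] at h
      rcases h with ⟨h, _⟩ | ⟨_, h⟩
      · exact hd _ _ h.symm
      · exact hd _ _ h.symm
  have hφ : Function.Injective φ := by
    rintro (e | e | ⟨a, b⟩) (e' | e' | ⟨c, d⟩) h
    · have h1 : e.1 = e'.1 := Sym2.map.injective hα h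
      rw [Subtype.ext h1]
    · exact absurd h (hαβ _ _)
    · exact absurd h (hαp _ _ _)
    · exact absurd h.symm (hαβ _ _)
    · have h1 : e.1 = e'.1 := Sym2.map.injective hβ h
      rw [Subtype.ext h1]
    · exact absurd h (hβp _ _ _)
    · exact absurd h.symm (hαp _ _ _)
    · exact absurd h.symm (hβp _ _ _)
    · have h1 : s(α a, β b) = s(α c, β d) := h
      rw [Sym2.eq_iff] at h1
      rcases h1 with ⟨h1, h2⟩ | ⟨h1, _⟩
      · rw [hα h1, hβ h2]
      · exact absurd h1 (hd _ _)
  have hdiag : ∀ j, ¬ (φ j).IsDiag := by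
    rintro (e | e | ⟨a, b⟩)
    · intro h
      exact e.2 ((Sym2.isDiag_map hα).mp h)
    · intro h
      exact e.2 ((Sym2.isDiag_map hβ).mp h)
    · intro h
      exact hd a b (Sym2.mk_isDiag_iff.mp h)
  let P : (E ⊕ (E ⊕ (Fin N × Fin N)) → Bool) → Prop := fun g =>
    (∀ e, g (Sum.inl e) = false) ∧ (∀ e, g (Sum.inr (Sum.inl e)) = false) ∧
      B (fun a b => g (Sum.inr (Sum.inr (a, b))))
  have h1 := card_graph_comp φ hφ hdiag P
  have h2 : Fintype.card (E ⊕ (E ⊕ (Fin N × Fin N))) = N * (N - 1) + N * N := by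
    have h3 : Fintype.card E = N.choose 2 := by
      have := Sym2.card_subtype_not_diag (α := Fin N)
      rw [Fintype.card_fin] at this
      rw [← this]
    have h4 : N.choose 2 * 2 = N * (N - 1) := by
      rw [Nat.choose_two_right]
      exact Nat.div_mul_cancel (Nat.even_mul_pred_self N).two_dvd
    rw [Fintype.card_sum, Fintype.card_sum, Fintype.card_prod, Fintype.card_fin, h3]
    omega
  have h3 : (Finset.univ.filter P).card = (Finset.univ.filter B).card := by
    apply Finset.card_bij' (fun g _ => fun a b => g (Sum.inr (Sum.inr (a, b))))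
      (fun h _ => Sum.elim (fun _ => false) (Sum.elim (fun _ => false) (fun p => h p.1 p.2)))
    case hi =>
      intro g hg
      rw [Finset.mem_filter] at hg ⊢
      exact ⟨Finset.mem_univ _, hg.2.2.2⟩
    case hj =>
      intro h hh
      rw [Finset.mem_filter] at hh ⊢
      exact ⟨Finset.mem_univ _, fun _ => rfl, fun _ => rfl, hh.2⟩
    case left_inv =>
      intro g hg
      rw [Finset.mem_filter] at hg
      funext j
      rcases j with e | e | ⟨a, b⟩
      · exact (hg.2.1 e).symm
      · exact (hg.2.2.1 e).symm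
      · rfl
    case right_inv =>
      intro h _
      rfl
  have h4 : (Finset.univ.filter (fun G : SimpleGraph (Fin n) =>
        (∀ a b, ¬ G.Adj (α a) (α b)) ∧ (∀ a b, ¬ G.Adj (β a) (β b)) ∧
          B (fun a b => decide (G.Adj (α a) (β b))))) =
      (Finset.univ.filter (fun G : SimpleGraph (Fin n) =>
        P (fun j => decide (φ j ∈ G.edgeSet)))) := by
    apply Finset.filter_congr
    intro G _
    have key : ∀ γ : Fin N → Fin n, (∀ a b, ¬ G.Adj (γ a) (γ b)) ↔
        ∀ e : E, decide (Sym2.map γ e.1 ∈ G.edgeSet) = false := by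
      intro γ
      constructor
      · rintro h ⟨e, he⟩
        rw [decide_eq_false_iff_not]
        induction e using Sym2.ind with
        | _ a b => exact h a b
      · intro h a b hab
        have hne : a ≠ b := by
          rintro rfl
          exact G.loopless.irrefl _ hab
        have h5 := h ⟨s(a, b), fun h => hne (Sym2.mk_isDiag_iff.mp h)⟩
        rw [decide_eq_false_iff_not] at h5
        exact h5 hab
    rw [key α, key β]
    exact Iff.rfl
  rw [h4, ← h2, ← h3]
  refine Eq.trans ?_ (h1.trans ?_)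
  · exact congrArg (fun z => z * _) (card_irrel _ _ _ _ _ _ (fun x => Iff.rfl))
  · refine congrArg₂ (fun z w => z * w) ?_ ?_
    · exact card_irrel _ _ _ _ _ _ (fun x => Iff.rfl)
    · exact card_type_irrel _ _

end Pool.Agent.Lib.MP_23961f_co.AA
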