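import Pool.Agent.Lib.MP_23961f_co.AA.Defs

/-!
Module Perturb. From an orthogonal configuration without stress, whose orthogonal non-adjacent
pairs can be opened, to a faithful positive semidefinite matrix with the Strong Arnold Property.

PROOF. Let `W = V → E`. For a finite set `S` of unordered pairs `{v,w}`, `v ≠ w`, consider
`Φ_S : W → (S → ℝ)`, `u ↦ (⟪u v, u w⟫)`. Its strict derivative at `u` is surjective iff there is no
stress on `S` at `u` (orthogonal complement of the range), i.e. iff the vectors `m_{vw}(u) ∈ W`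
(`u w` at `v`, `u v` at `w`) are linearly independent; this is an open condition in `u`
(`isOpen_setOf_linearIndependent`). Claim: for every finite list of pairs `x ≠ y` not adjacent in
`G` there is `u'` arbitrarily near `u` with `⟪u' v, u' w⟫ = 0` on the edges, still without stress on
`G` and on the `G + xy`, and `⟪u' x, u' y⟫ ≠ 0` for all pairs of the list. Induction: if the next
pair has inner product `0` at the current point, then it has no stress on `G + xy`, so
`Φ_{G+xy}` maps neighbourhoods to neighbourhoods (`HasStrictFDerivAt.map_nhds_eq_of_surj`) and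
takes the value `(0, t)` for some small `t ≠ 0` near the current point. Then take the Gram matrix
`A i j = ⟪u i, u j⟫` (see `matrix_of_good` in Staircase.lean for the last step: `A * X = 0` gives
`∑ w, X v w • u w = 0`).
-/

set_option autoImplicit false

open scoped InnerProductSpace Topology

namespace Pool.Agent.Lib.MP_23961f_co.AA

section config

variable {V : Type*} [Fintype V] [DecidableEq V] {E : Type*} [NormedAddCommGroup E]
  [InnerProductSpace ℝ E]

/-- the stress vector of a pair -/
def mv (u : V → E) (p : V × V) : V → E := Pi.single p.1 (u p.2) + Pi.single p.2 (u p.1)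

/-- no stress -/
def NS (S : V → V → Prop) (u : V → E) : Prop :=
  LinearIndependent ℝ (fun p : {p : V × V // S p.1 p.2} => mv u p.1)

open Classical in
theorem sum_mv (S : V → V → Prop) (hS : ∀ v w, S v w → ¬ S w v) (u : V → E) (X : V → V → ℝ)
    (hX : ∀ v w, X v w = X w v) (hX0 : ∀ v w, ¬ S v w → ¬ S w v → X v w = 0) (v : V) :
    (∑ p : {p : V × V // S p.1 p.2}, X p.1.1 p.1.2 • mv u p.1) v = ∑ w, X v w • u w := by
  rw [← Finset.sum_subtype (Finset.univ.filter (fun p : V × V => S p.1 p.2)) (by simp)
    (fun p : V × V => X p.1 p.2 • mv u p), Finset.sum_filter, Fintype.sum_prod_type,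
    Finset.sum_apply]
  have h1 : ∀ a : V, (∑ b, if S a b then X a b • mv u (a, b) else 0) v =
      (if a = v then ∑ b, (if S v b then X v b • u b else 0) else 0) +
        (if S a v then X v a • u a else 0) := by
    intro a
    rw [Finset.sum_apply]
    have h2 : ∀ b : V, (if S a b then X a b • mv u (a, b) else 0 : V → E) v =
        (if a = v then (if S v b then X v b • u b else 0) else 0) +
          (if b = v then (if S a v then X v a • u a else 0) else 0) := by
      intro b
      by_cases hab : S a b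
      · rw [if_pos hab]
        simp only [Pi.smul_apply, mv, Pi.add_apply, Pi.single_apply]
        by_cases ha : v = a
        · subst ha
          have hb : ¬ v = b := by
            rintro rfl
            exact hS _ _ hab hab
          have hb' : ¬ b = v := fun h => hb h.symm
          simp [hb, hb', hab]
        · have ha' : ¬ a = v := fun h => ha h.symm
          by_cases hb : v = b
          · subst hb
            simp [ha, ha', hab, hX a v]
          · have hb' : ¬ b = v := fun h => hb h.symm
            simp [ha, ha', hb, hb']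
      · rw [if_neg hab]
        by_cases ha : a = v
        · subst ha
          by_cases hb : b = a
          · subst hb
            simp [hab]
          · simp [hab, hb]
        · by_cases hb : b = v
          · subst hb
            simp [hab, ha]
          · simp [ha, hb]
    rw [Finset.sum_congr rfl (fun b _ => h2 b), Finset.sum_add_distrib]
    congr 1
    · by_cases ha : a = v
      · simp [ha]
      · simp [ha]
    · rw [Finset.sum_ite_eq' Finset.univ v, if_pos (Finset.mem_univ v)]
  rw [Finset.sum_congr rfl (fun a _ => h1 a), Finset.sum_add_distrib,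
    Finset.sum_ite_eq' Finset.univ v, if_pos (Finset.mem_univ v), ← Finset.sum_add_distrib]
  refine Finset.sum_congr rfl fun w _ => ?_
  by_cases h3 : S v w
  · rw [if_pos h3, if_neg (hS _ _ h3), add_zero]
  · by_cases h4 : S w v
    · rw [if_neg h3, if_pos h4, zero_add]
    · rw [if_neg h3, if_neg h4, hX0 v w h3 h4, zero_smul, add_zero]

open Classical in
theorem ns_of {S : V → V → Prop} (hS : ∀ v w, S v w → ¬ S w v) {u : V → E}
    (h : ∀ X : V → V → ℝ, (∀ v w, X v w = X w v) → (∀ v w, ¬ S v w → ¬ S w v → X v w = 0) →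
      (∀ v, ∑ w, X v w • u w = 0) → ∀ v w, X v w = 0) : NS S u := by
  refine Fintype.linearIndependent_iff.2 fun g hg p => ?_
  let X : V → V → ℝ := fun v w =>
    (if h : S v w then g ⟨(v, w), h⟩ else 0) + (if h : S w v then g ⟨(w, v), h⟩ else 0)
  have hXs : ∀ v w, X v w = X w v := fun v w => add_comm _ _
  have hX0 : ∀ v w, ¬ S v w → ¬ S w v → X v w = 0 := by
    intro v w h1 h2
    show (if h : S v w then g ⟨(v, w), h⟩ else 0) + (if h : S w v then g ⟨(w, v), h⟩ else 0) = 0
    rw [dif_neg h1, dif_neg h2, add_zero]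
  have hXg : ∀ p : {p : V × V // S p.1 p.2}, X p.1.1 p.1.2 = g p := by
    rintro ⟨⟨v, w⟩, h1⟩
    show (if h : S v w then g ⟨(v, w), h⟩ else 0) + (if h : S w v then g ⟨(w, v), h⟩ else 0) = _
    rw [dif_pos h1, dif_neg (hS _ _ h1), add_zero]
  rw [← hXg p]
  refine h X hXs hX0 ?_ _ _
  intro v
  rw [← sum_mv S hS u X hXs hX0 v]
  have h2 : (∑ p : {p : V × V // S p.1 p.2}, X p.1.1 p.1.2 • mv u p.1) = 0 := by
    rw [← hg]
    exact Finset.sum_congr rfl fun p _ => by rw [hXg p]
  rw [h2]
  rfl

open Classical in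
theorem NS.eq_zero {S : V → V → Prop} (hS : ∀ v w, S v w → ¬ S w v) {u : V → E} (hN : NS S u)
    (X : V → V → ℝ) (hX : ∀ v w, X v w = X w v) (hX0 : ∀ v w, ¬ S v w → ¬ S w v → X v w = 0)
    (h : ∀ v, ∑ w, X v w • u w = 0) (v w : V) : X v w = 0 := by
  have h1 := Fintype.linearIndependent_iff.1 hN (fun p => X p.1.1 p.1.2) (by
    funext v
    rw [sum_mv S hS u X hX hX0 v, h v]
    rfl)
  by_cases h3 : S v w
  · exact h1 ⟨(v, w), h3⟩
  · by_cases h4 : S w v
    · rw [hX v w]
      exact h1 ⟨(w, v), h4⟩
    · exact hX0 v w h3 h4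

theorem continuous_mv (p : V × V) : Continuous (fun u : V → E => mv u p) := by
  unfold mv
  refine Continuous.add ?_ ?_
  · exact (continuous_single p.1).comp (continuous_apply p.2)
  · exact (continuous_single p.2).comp (continuous_apply p.1)

theorem isOpen_ns [FiniteDimensional ℝ E] (S : V → V → Prop) : IsOpen {u : V → E | NS S u} := by
  have h := isOpen_setOfPred_linearIndependent (𝕜 := ℝ) (E := V → E)
    (ι := {p : V × V // S p.1 p.2})
  have hc : Continuous (fun (u : V → E) (p : {p : V × V // S p.1 p.2}) => mv u p.1) :=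
    continuous_pi fun p => continuous_mv p.1
  exact h.preimage hc

/-- the inner products along the pairs -/
noncomputable def phi (S : V → V → Prop) (u : V → E) : {p : V × V // S p.1 p.2} → ℝ :=
  fun p => ⟪u p.1.1, u p.1.2⟫_ℝ

/-- the derivative of `phi` -/
noncomputable def phi' (S : V → V → Prop) (u : V → E) :
    (V → E) →L[ℝ] ({p : V × V // S p.1 p.2} → ℝ) :=
  ContinuousLinearMap.pi fun p => (fderivInnerCLM ℝ (u p.1.1, u p.1.2)).comp
    ((ContinuousLinearMap.proj p.1.1).prod (ContinuousLinearMap.proj p.1.2))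

open Classical in
theorem hasStrictFDerivAt_phi (S : V → V → Prop) (u : V → E) :
    HasStrictFDerivAt (phi S) (phi' S u) u := by
  refine hasStrictFDerivAt_pi.2 fun p => ?_
  exact (hasStrictFDerivAt_apply p.1.1 u).inner ℝ (hasStrictFDerivAt_apply p.1.2 u)

theorem sum_inner_mv (h u : V → E) (p : V × V) :
    ∑ v, ⟪h v, mv u p v⟫_ℝ = ⟪h p.1, u p.2⟫_ℝ + ⟪u p.1, h p.2⟫_ℝ := by
  simp only [mv, Pi.add_apply, inner_add_right, Finset.sum_add_distrib]
  congr 1
  · rw [Finset.sum_eq_single p.1]
    · rw [Pi.single_eq_same]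
    · intro b _ hb
      rw [Pi.single_eq_of_ne hb, inner_zero_right]
    · intro hb
      exact absurd (Finset.mem_univ _) hb
  · rw [Finset.sum_eq_single p.2]
    · rw [Pi.single_eq_same, real_inner_comm]
    · intro b _ hb
      rw [Pi.single_eq_of_ne hb, inner_zero_right]
    · intro hb
      exact absurd (Finset.mem_univ _) hb

open Classical in
theorem range_phi' {S : V → V → Prop} {u : V → E} (hN : NS S u) :
    (phi' S u).range = ⊤ := by
  by_contra hne
  obtain ⟨f, hf0, hf⟩ := Submodule.exists_le_ker_of_lt_top _ (lt_top_iff_ne_top.2 hne)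
  apply hf0
  have hfs : ∀ y : {p : V × V // S p.1 p.2} → ℝ, f y = ∑ p, y p * f (Pi.single p 1) := by
    intro y
    rw [LinearMap.pi_apply_eq_sum_univ f y]
    refine Finset.sum_congr rfl fun p _ => ?_
    rw [smul_eq_mul]
    congr 2
    funext q
    rw [Pi.single_apply]
    simp only [eq_comm]
  have hker : ∀ h : V → E, ∑ p : {p : V × V // S p.1 p.2},
      (⟪h p.1.1, u p.1.2⟫_ℝ + ⟪u p.1.1, h p.1.2⟫_ℝ) * f (Pi.single p 1) = 0 := by
    intro h
    have h1 : f (phi' S u h) = 0 := hf ⟨h, rfl⟩
    rw [hfs] at h1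
    rw [← h1]
    refine Finset.sum_congr rfl fun p _ => ?_
    congr 1
    show _ = fderivInnerCLM ℝ (u p.1.1, u p.1.2) (h p.1.1, h p.1.2)
    rw [fderivInnerCLM_apply]
    rw [add_comm]
  have hz : (∑ p : {p : V × V // S p.1 p.2}, f (Pi.single p 1) • mv u p.1) = 0 := by
    set z : V → E := ∑ p : {p : V × V // S p.1 p.2}, f (Pi.single p 1) • mv u p.1 with hzdef
    have h1 : ∑ v, ⟪z v, z v⟫_ℝ = 0 := by
      have h2 : ∀ v, ⟪z v, z v⟫_ℝ = ∑ p : {p : V × V // S p.1 p.2},
          f (Pi.single p 1) * ⟪z v, mv u p.1 v⟫_ℝ := by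
        intro v
        have hzv : z v = ∑ p : {p : V × V // S p.1 p.2}, f (Pi.single p 1) • mv u p.1 v := by
          rw [hzdef, Finset.sum_apply]
          rfl
        calc ⟪z v, z v⟫_ℝ = ⟪z v, ∑ p : {p : V × V // S p.1 p.2},
              f (Pi.single p 1) • mv u p.1 v⟫_ℝ := congrArg (fun y => ⟪z v, y⟫_ℝ) hzv
          _ = _ := by
            rw [inner_sum]
            refine Finset.sum_congr rfl fun p _ => ?_
            rw [inner_smul_right]
      rw [Finset.sum_congr rfl fun v _ => h2 v, Finset.sum_comm]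
      rw [← hker z]
      refine Finset.sum_congr rfl fun p _ => ?_
      rw [← Finset.mul_sum, sum_inner_mv, mul_comm]
    funext v
    have h3 := (Finset.sum_eq_zero_iff_of_nonneg (fun v _ => real_inner_self_nonneg)).1 h1 v
      (Finset.mem_univ v)
    exact inner_self_eq_zero.1 h3
  have hc := Fintype.linearIndependent_iff.1 hN (fun p => f (Pi.single p 1)) hz
  refine LinearMap.ext fun y => ?_
  rw [hfs y]
  simp [hc]

end config

open Classical in
theorem matrix_of_config {V : Type*} [Fintype V] (G : SimpleGraph V)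
    {E : Type*} [NormedAddCommGroup E] [InnerProductSpace ℝ E] [FiniteDimensional ℝ E]
    (u : V → E)
    (h0 : ∀ v w, G.Adj v w → ⟪u v, u w⟫_ℝ = 0)
    (h1 : ∀ X : V → V → ℝ, (∀ v w, X v w = X w v) → (∀ v w, ¬ G.Adj v w → X v w = 0) →
      (∀ v, ∑ w, X v w • u w = 0) → ∀ v w, X v w = 0)
    (h2 : ∀ x y, x ≠ y → ¬ G.Adj x y → ⟪u x, u y⟫_ℝ ≠ 0 ∨
      ∀ X : V → V → ℝ, (∀ v w, X v w = X w v) →
        (∀ v w, ¬ G.Adj v w → ¬ (v = x ∧ w = y) → ¬ (v = y ∧ w = x) → X v w = 0) →
        (∀ v, ∑ w, X v w • u w = 0) → ∀ v w, X v w = 0) :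
    ∃ A : Matrix V V ℝ, A.PosSemidef ∧ (∀ i j, i ≠ j → (A i j ≠ 0 ↔ Gᶜ.Adj i j)) ∧
      (∀ X : Matrix V V ℝ, X.IsSymm → (∀ i, X i i = 0) →
        (∀ i j, Gᶜ.Adj i j → X i j = 0) → A * X = 0 → X = 0) ∧
      A.rank ≤ Module.finrank ℝ E := by
  let o := Fintype.equivFin V
  let S : V → V → Prop := fun v w => G.Adj v w ∧ o v < o w
  let S' : V × V → V → V → Prop := fun q v w => S v w ∨ (v = q.1 ∧ w = q.2)
  have hS : ∀ v w, S v w → ¬ S w v := fun v w h h' => lt_asymm h.2 h'.2
  -- the non-adjacent pairs
  let Q : Finset (V × V) := Finset.univ.filter (fun q => ¬ G.Adj q.1 q.2 ∧ o q.1 < o q.2)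
  have hS' : ∀ q ∈ Q, ∀ v w, S' q v w → ¬ S' q w v := by
    intro q hq v w h h'
    have hq2 : o q.1 < o q.2 := (Finset.mem_filter.1 hq).2.2
    have h1 : o v < o w := by
      rcases h with h | ⟨rfl, rfl⟩
      · exact h.2
      · exact hq2
    have h2 : o w < o v := by
      rcases h' with h | ⟨rfl, rfl⟩
      · exact h.2
      · exact hq2
    exact lt_asymm h1 h2
  have hSG : ∀ v w, ¬ S v w → ¬ S w v → ¬ G.Adj v w := by
    intro v w h1 h2 h3
    rcases lt_trichotomy (o v) (o w) with h4 | h4 | h4
    · exact h1 ⟨h3, h4⟩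
    · exact h3.ne (o.injective h4)
    · exact h2 ⟨h3.symm, h4⟩
  -- the open set
  let O : Set (V → E) := {u | NS S u ∧ ∀ q ∈ Q, (⟪u q.1, u q.2⟫_ℝ ≠ 0 ∨ NS (S' q) u)}
  have hop1 : ∀ q : V × V, IsOpen {u : V → E | ⟪u q.1, u q.2⟫_ℝ ≠ 0} := by
    intro q
    exact isOpen_ne_fun ((continuous_apply q.1).inner (continuous_apply q.2)) continuous_const
  have hO : IsOpen O := by
    have h3 : O = {u | NS S u} ∩ ⋂ q ∈ Q, ({u : V → E | ⟪u q.1, u q.2⟫_ℝ ≠ 0} ∪
        {u | NS (S' q) u}) := by
      ext u
      simp [O]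
    rw [h3]
    refine (isOpen_ns S).inter (isOpen_biInter_finset fun q _ => ?_)
    exact (hop1 q).union (isOpen_ns (S' q))
  have key : ∀ T : Finset (V × V), T ⊆ Q → ∃ u' : V → E, u' ∈ O ∧
      (∀ v w, G.Adj v w → ⟪u' v, u' w⟫_ℝ = 0) ∧ ∀ q ∈ T, ⟪u' q.1, u' q.2⟫_ℝ ≠ 0 := by
    intro T
    induction T using Finset.induction_on with
    | empty =>
      intro _
      refine ⟨u, ⟨?_, ?_⟩, h0, fun q hq => absurd hq (Finset.notMem_empty q)⟩
      · refine ns_of hS fun X hX hX0 hs => ?_
        exact h1 X hX (fun v w hvw => hX0 v w (fun h => hvw h.1) (fun h => hvw h.1.symm)) hs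
      · intro q hq
        obtain ⟨_, hq1, hq2⟩ := Finset.mem_filter.1 hq
        have hne : q.1 ≠ q.2 := fun h => by rw [h] at hq2; exact lt_irrefl _ hq2
        rcases h2 q.1 q.2 hne hq1 with h | h
        · exact Or.inl h
        · refine Or.inr (ns_of (hS' q hq) fun X hX hX0 hs => ?_)
          refine h X hX (fun v w h3 h4 h5 => hX0 v w ?_ ?_) hs
          · rintro (h6 | h6)
            · exact h3 h6.1
            · exact h4 h6
          · rintro (h6 | h6)
            · exact h3 h6.1.symm
            · exact h5 ⟨h6.2, h6.1⟩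
    | insert q T hqT ih =>
      intro hTQ
      obtain ⟨u', hu'O, hu'0, hu'T⟩ := ih ((Finset.subset_insert q T).trans hTQ)
      have hqQ : q ∈ Q := hTQ (Finset.mem_insert_self q T)
      by_cases hq0 : ⟪u' q.1, u' q.2⟫_ℝ = 0
      · -- open the pair `q`
        have hNS : NS (S' q) u' := by
          rcases hu'O.2 q hqQ with h | h
          · exact absurd hq0 h
          · exact h
        have hN : IsOpen (O ∩ ⋂ q ∈ T, {u : V → E | ⟪u q.1, u q.2⟫_ℝ ≠ 0}) :=
          hO.inter (isOpen_biInter_finset fun q _ => hop1 q)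
        have hmem : u' ∈ O ∩ ⋂ q ∈ T, {u : V → E | ⟪u q.1, u q.2⟫_ℝ ≠ 0} := by
          refine ⟨hu'O, ?_⟩
          simp only [Set.mem_iInter]
          exact fun q hq => hu'T q hq
        have hmap := (hasStrictFDerivAt_phi (S' q) u').map_nhds_eq_of_surj (range_phi' hNS)
        have hphi0 : phi (S' q) u' = 0 := by
          funext p
          rcases p.2 with h | h
          · exact hu'0 _ _ h.1
          · show ⟪u' p.1.1, u' p.1.2⟫_ℝ = 0
            rw [h.1, h.2]
            exact hq0
        have himg : phi (S' q) '' (O ∩ ⋂ q ∈ T, {u : V → E | ⟪u q.1, u q.2⟫_ℝ ≠ 0}) ∈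
            𝓝 (0 : {p : V × V // S' q p.1 p.2} → ℝ) := by
          rw [← hphi0, ← hmap]
          exact Filter.image_mem_map (hN.mem_nhds hmem)
        let p0 : {p : V × V // S' q p.1 p.2} := ⟨q, Or.inr ⟨rfl, rfl⟩⟩
        have hcont : Filter.Tendsto (fun t : ℝ => (Pi.single p0 t :
            {p : V × V // S' q p.1 p.2} → ℝ)) (𝓝[≠] 0) (𝓝 0) := by
          have h3 : Continuous (fun t : ℝ => (Pi.single p0 t :
              {p : V × V // S' q p.1 p.2} → ℝ)) := by
            refine continuous_pi fun p => ?_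
            by_cases hp : p = p0
            · subst hp
              simp only [Pi.single_eq_same]
              exact continuous_id
            · simp only [Pi.single_eq_of_ne hp]
              exact continuous_const
          have h4 := h3.tendsto 0
          rw [Pi.single_zero] at h4
          exact h4.mono_left nhdsWithin_le_nhds
        have hev : ∀ᶠ t : ℝ in 𝓝[≠] 0, (Pi.single p0 t : {p : V × V // S' q p.1 p.2} → ℝ) ∈
            phi (S' q) '' (O ∩ ⋂ q ∈ T, {u : V → E | ⟪u q.1, u q.2⟫_ℝ ≠ 0}) :=
          hcont himg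
        obtain ⟨t, ht, ht0⟩ := (hev.and self_mem_nhdsWithin).exists
        obtain ⟨w, ⟨hwO, hwT⟩, hw⟩ := ht
        refine ⟨w, hwO, ?_, ?_⟩
        · have h3 : ∀ a b, S a b → ⟪w a, w b⟫_ℝ = 0 := by
            intro a b hab
            have h4 := congrFun hw ⟨(a, b), Or.inl hab⟩
            rw [Pi.single_eq_of_ne] at h4
            · exact h4
            · intro h5
              have h6 : (a, b) = q := congrArg Subtype.val h5
              subst h6
              exact (Finset.mem_filter.1 hqQ).2.1 hab.1
          intro a b hab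
          rcases lt_trichotomy (o a) (o b) with h4 | h4 | h4
          · exact h3 a b ⟨hab, h4⟩
          · exact absurd (o.injective h4) hab.ne
          · rw [real_inner_comm]
            exact h3 b a ⟨hab.symm, h4⟩
        · intro q' hq'
          rcases Finset.mem_insert.1 hq' with rfl | hq'
          · have h4 := congrFun hw p0
            rw [Pi.single_eq_same] at h4
            have h5 : ⟪w q'.1, w q'.2⟫_ℝ = t := h4
            rw [h5]
            exact ht0
          · simp only [Set.mem_iInter] at hwT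
            exact hwT q' hq'
      · refine ⟨u', hu'O, hu'0, fun q' hq' => ?_⟩
        rcases Finset.mem_insert.1 hq' with rfl | hq'
        · exact hq0
        · exact hu'T q' hq'
  obtain ⟨w, hwO, hw0, hwQ⟩ := key Q (Finset.Subset.refl Q)
  have hwne : ∀ i j, i ≠ j → ¬ G.Adj i j → ⟪w i, w j⟫_ℝ ≠ 0 := by
    intro i j hij hG
    rcases lt_trichotomy (o i) (o j) with h4 | h4 | h4
    · exact hwQ (i, j) (Finset.mem_filter.2 ⟨Finset.mem_univ _, hG, h4⟩)
    · exact absurd (o.injective h4) hij
    · rw [real_inner_comm]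
      exact hwQ (j, i) (Finset.mem_filter.2 ⟨Finset.mem_univ _, fun h => hG h.symm, h4⟩)
  refine ⟨Matrix.gram ℝ w, Matrix.posSemidef_gram ℝ w, ?_, ?_, ?_⟩
  · intro i j hij
    rw [Matrix.gram_apply, SimpleGraph.compl_adj]
    constructor
    · intro hne
      exact ⟨hij, fun hG => hne (hw0 i j hG)⟩
    · intro hG
      exact hwne i j hij hG.2
  · intro X hXs hX0 hXG hAX
    have hcol : ∀ j, ∑ i, X i j • w i = 0 := by
      intro j
      have horth : ∀ k, ⟪w k, ∑ i, X i j • w i⟫_ℝ = 0 := by
        intro k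
        have h1 : (Matrix.gram ℝ w * X) k j = 0 := by rw [hAX]; rfl
        rw [Matrix.mul_apply] at h1
        rw [inner_sum, ← h1]
        apply Finset.sum_congr rfl
        intro i _
        rw [inner_smul_right, Matrix.gram_apply, mul_comm]
      have hself : ⟪∑ i, X i j • w i, ∑ i, X i j • w i⟫_ℝ = 0 := by
        rw [sum_inner]
        apply Finset.sum_eq_zero
        intro i _
        rw [inner_smul_left, horth i, mul_zero]
      exact inner_self_eq_zero.1 hself
    have hsym : ∀ v w, X v w = X w v := fun a b => by rw [hXs.apply]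
    have h5 := NS.eq_zero hS hwO.1 (fun a b => X a b) hsym (fun a b h3 h4 => by
      by_cases hab : a = b
      · subst hab
        exact hX0 a
      · exact hXG a b ((SimpleGraph.compl_adj _ _ _).2 ⟨hab, hSG a b h3 h4⟩)) (fun v => by
      rw [← hcol v]
      exact Finset.sum_congr rfl fun b _ => by rw [hsym v b])
    ext i j
    exact h5 i j
  · have h1 := Matrix.gram_eq_conjTranspose_mul (𝕜 := ℝ) (stdOrthonormalBasis ℝ E) w
    rw [h1]
    refine (Matrix.rank_mul_le_right _ _).trans ?_
    refine (Matrix.rank_le_card_height _).trans ?_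
    simp

end Pool.Agent.Lib.MP_23961f_co.AA
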